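/-
BAS : definitions of the project NL (k-clique against circuits with few arbitrary gates).

A label is a map from all finsets of `Fin n` to `Fin Q`; the random edge set of `R` rounds is the set of all
finsets which get the label 0 in some round (only finsets with two elements matter later).
-/
import Mathlib

set_option autoImplicit false

namespace Pool.Agent.H29.NL

open Finset

/-- Uniform probability of `p` on a finite type. -/
noncomputable def pr {Ω : Type*} [Fintype Ω] (p : Ω → Prop) : ℝ :=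
  open Classical in ((univ.filter p).card : ℝ) / (Fintype.card Ω : ℝ)

/-- The pairs inside `X`. -/
def EE {n : ℕ} (X : Finset (Fin n)) : Finset (Finset (Fin n)) := X.powersetCard 2

/-- One labelling of the subsets of `Fin n`. -/
abbrev Lab (n Q : ℕ) := Finset (Fin n) → Fin Q

/-- `R` labellings. -/
abbrev Rnd (n Q R : ℕ) := Fin R → Lab n Q

/-- The sets with the label 0 in some round. -/
def dset {n Q R : ℕ} (ω : Rnd n Q R) : Finset (Finset (Fin n)) :=
  univ.filter fun e => ∃ ρ, (ω ρ e : ℕ) = 0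

/-- The union of the first `i` blocks. -/
def xx {n Q R M : ℕ} (ω : Fin M → Rnd n Q R) (i : ℕ) : Finset (Finset (Fin n)) :=
  open Classical in univ.filter fun e => ∃ m : Fin M, (m : ℕ) < i ∧ e ∈ dset (ω m)

/-- Some member of `A` has all its pairs in `x`. -/
def Sat {n : ℕ} (A : Finset (Finset (Fin n))) (x : Finset (Finset (Fin n))) : Prop :=
  ∃ X ∈ A, EE X ⊆ x

/-- `Y` is implied by `A` (up to probability `2^-R`). -/
def Impl {n : ℕ} (Q R : ℕ) (A : Finset (Finset (Fin n))) (Y : Finset (Fin n)) : Prop :=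
  pr (fun ω : Rnd n Q R => ¬ Sat A (EE Y ∪ dset ω)) ≤ (1 / 2 : ℝ) ^ R

/-- `A` consists of sets of size at most `q` and contains all the implied ones. -/
def Closed {n : ℕ} (q Q R : ℕ) (A : Finset (Finset (Fin n))) : Prop :=
  (∀ X ∈ A, X.card ≤ q) ∧ ∀ Y : Finset (Fin n), Y.card ≤ q → Impl Q R A Y → Y ∈ A

/-- The minimal members of `A`. -/
def mins {n : ℕ} (A : Finset (Finset (Fin n))) : Finset (Finset (Fin n)) :=
  A.filter fun X => ∀ X' ∈ A, X' ⊆ X → X' = X

/-- The minimal members of `A` of size `j` containing `W`. -/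
def fam {n : ℕ} (A : Finset (Finset (Fin n))) (j : ℕ) (W : Finset (Fin n)) :
    Finset (Finset (Fin n)) :=
  (mins A).filter fun X => X.card = j ∧ W ⊆ X

/-- The bound for the size of `fam A j W`, `w = |W|`. -/
def bb (q Q j w : ℕ) : ℕ := (2 * q) ^ (j - w) * Q ^ (j.choose 2 - w.choose 2)

/-- The `k`-subsets of `Fin n`. -/
abbrev KK (n k : ℕ) := {K : Finset (Fin n) // K.card = k}

/-- The error of a closure step. -/
noncomputable def EM (n q R : ℕ) : ℝ := ((n : ℝ) + 1) ^ q * (1 / 2 : ℝ) ^ R

/-- The error of an AND gate. -/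
noncomputable def EP (n k q Q : ℕ) : ℝ :=
  ((q : ℝ) + 1) ^ 2 * 2 ^ q * (2 * q * k) ^ (2 * q) * ((Q : ℝ) ^ (q.choose 2) / (n : ℝ) ^ q)

/-- The probability that a nontrivial closed family accepts a random clique is at most this. -/
noncomputable def EZ (n k q Q : ℕ) : ℝ :=
  ((q : ℝ) + 1) * (2 * q * k) ^ q * ((Q : ℝ) / (n : ℝ) ^ 2)

/-- Gates of monotone circuits on edge sets. -/
inductive MK (n s : ℕ)
  | const (c : Prop)
  | inp (e : Finset (Fin n))
  | and (a b : Fin s)
  | or (S : Finset (Fin s))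

/-- The value of a gate, given the values `v` of all the gates. -/
def MK.st {n s : ℕ} : MK n s → (Fin s → Prop) → Finset (Finset (Fin n)) → Prop
  | .const c, _, _ => c
  | .inp e, _, x => e ∈ x
  | .and a b, v, _ => v a ∧ v b
  | .or S, v, _ => ∃ a ∈ S, v a

/-- Gate `i` only uses earlier gates (and pairs as inputs). -/
def MK.Ok {n s : ℕ} : MK n s → Fin s → Prop
  | .const _, _ => True
  | .inp e, _ => e.card = 2
  | .and a b, i => a < i ∧ b < i
  | .or S, i => ∀ a ∈ S, a < i

/-- The graph of an edge set. -/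
def gr {n : ℕ} (x : Finset (Finset (Fin n))) : SimpleGraph (Fin n) where
  Adj u v := u ≠ v ∧ {u, v} ∈ x
  symm := ⟨fun u v h => ⟨h.1.symm, by rw [Finset.pair_comm]; exact h.2⟩⟩
  loopless := ⟨fun _ h => h.1 rfl⟩

section Circuits

variable {n s : ℕ}

/-- Gate `i` tests whether two vertices are adjacent. -/
def IsInput (fn : Fin s → SimpleGraph (Fin n) → Prop) (i : Fin s) : Prop :=
  ∃ u v : Fin n, ∀ G, fn i G ↔ G.Adj u v

/-- Gate `i` is the AND of two earlier gates. -/
def IsAnd (fn : Fin s → SimpleGraph (Fin n) → Prop) (i : Fin s) : Prop :=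
  ∃ a b : Fin s, a < i ∧ b < i ∧ ∀ G, fn i G ↔ fn a G ∧ fn b G

/-- Gate `i` is the OR of a set of earlier gates. -/
def IsOr (fn : Fin s → SimpleGraph (Fin n) → Prop) (i : Fin s) : Prop :=
  ∃ S : Finset (Fin s), (∀ a ∈ S, a < i) ∧ ∀ G, fn i G ↔ ∃ a ∈ S, fn a G

/-- Gate `i` is an arbitrary function of at most `t` earlier gates. -/
def IsArb (t : ℕ) (fn : Fin s → SimpleGraph (Fin n) → Prop) (i : Fin s) : Prop :=
  ∃ T : Finset (Fin s), T.card ≤ t ∧ (∀ a ∈ T, a < i) ∧
    ∀ G H, (∀ a ∈ T, (fn a G ↔ fn a H)) → (fn i G ↔ fn i H)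

end Circuits

/-- A circuit with `s` gates on graphs with `n` vertices, at most `r` of them arbitrary gates of
fan-in at most `t`, the others inputs, ANDs of two gates and ORs of any number of gates. -/
structure Circuit (n s r t : ℕ) where
  fn : Fin s → SimpleGraph (Fin n) → Prop
  out : Fin s
  arb : Finset (Fin s)
  card_arb : arb.card ≤ r
  gate : ∀ i, i ∉ arb → IsInput fn i ∨ IsAnd fn i ∨ IsOr fn i
  arb_gate : ∀ i ∈ arb, IsArb t fn i

/-- The circuit accepts the graphs with a `k`-clique and rejects those without an `l`-clique. -/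
def Circuit.Separates {n s r t : ℕ} (C : Circuit n s r t) (k l : ℕ) : Prop :=
  (∀ G : SimpleGraph (Fin n), ¬ G.CliqueFree k → C.fn C.out G) ∧
    ∀ G : SimpleGraph (Fin n), G.CliqueFree l → ¬ C.fn C.out G

end Pool.Agent.H29.NL
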