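/-
EDG : the pairs inside a set.

PROOFS.  EE X = X.powersetCard 2, membership: Finset.mem_powersetCard (e ⊆ X and e.card = 2); Finset.card_powersetCard;
powersetCard_mono; EE (X ∩ Y): subset_inter_iff.
* EE_subset_iff: for x ∈ X take y ∈ X, y ≠ x (2 ≤ card, Finset.exists_mem_ne); {x, y} ∈ EE X ⊆ EE K gives x ∈ K.
* card_sdiff: card_sdiff_of_subset (EE Y ⊆ EE X).
* card_union: (EE X \ EE Y) ∪ (EE X' \ EE Y) = (EE X ∪ EE X') \ EE Y, EE Y ⊆ EE X ∪ EE X',
  card (EE X ∪ EE X') + card (EE X ∩ EE X') = card (EE X) + card (EE X') (card_union_add_card_inter), EE X ∩ EE X' = EE (X ∩ X').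
-/
import Pool.Agent.H29.NL.Bas

set_option autoImplicit false

namespace Pool.Agent.H29.NL

open Finset

variable {n : ℕ}

lemma card_EE (X : Finset (Fin n)) : (EE X).card = X.card.choose 2 := by
  unfold EE
  exact Finset.card_powersetCard 2 X

lemma EDG_mem {X e : Finset (Fin n)} : e ∈ EE X ↔ e ⊆ X ∧ e.card = 2 := by
  unfold EE
  exact Finset.mem_powersetCard

lemma EE_mono {X Y : Finset (Fin n)} (h : X ⊆ Y) : EE X ⊆ EE Y := by
  intro e he
  rw [EDG_mem] at he ⊢
  exact ⟨he.1.trans h, he.2⟩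

lemma EE_inter (X Y : Finset (Fin n)) : EE X ∩ EE Y = EE (X ∩ Y) := by
  ext e
  rw [Finset.mem_inter, EDG_mem, EDG_mem, EDG_mem, Finset.subset_inter_iff]
  tauto

lemma EE_small {X : Finset (Fin n)} (h : X.card ≤ 1) : EE X = ∅ := by
  rw [← Finset.card_eq_zero, card_EE]
  exact Nat.choose_eq_zero_of_lt (by omega)

lemma EE_subset_iff {X K : Finset (Fin n)} (h : 2 ≤ X.card) : EE X ⊆ EE K ↔ X ⊆ K := by
  constructor
  · intro hE x hx
    obtain ⟨y, hy, hyx⟩ := Finset.exists_mem_ne (show 1 < X.card by omega) x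
    have hmem : ({x, y} : Finset (Fin n)) ∈ EE X := by
      rw [EDG_mem]
      refine ⟨?_, Finset.card_pair (Ne.symm hyx)⟩
      intro z hz
      rw [Finset.mem_insert, Finset.mem_singleton] at hz
      rcases hz with rfl | rfl
      · exact hx
      · exact hy
    have h2 := hE hmem
    rw [EDG_mem] at h2
    exact h2.1 (Finset.mem_insert_self x {y})
  · exact EE_mono

lemma EE_pair {u v : Fin n} (h : u ≠ v) : EE ({u, v} : Finset (Fin n)) = {{u, v}} := by
  ext e
  rw [EDG_mem, Finset.mem_singleton]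
  constructor
  · rintro ⟨h1, h2⟩
    exact Finset.eq_of_subset_of_card_le h1 (by rw [Finset.card_pair h, h2])
  · rintro rfl
    exact ⟨Finset.Subset.refl _, Finset.card_pair h⟩

lemma card_sdiff_EE {X Y : Finset (Fin n)} (h : Y ⊆ X) :
    (EE X \ EE Y).card = X.card.choose 2 - Y.card.choose 2 := by
  rw [Finset.card_sdiff_of_subset (EE_mono h), card_EE, card_EE]

lemma card_union_sdiff_EE {X X' Y : Finset (Fin n)} (h : Y ⊆ X) (h' : Y ⊆ X') :
    ((EE X \ EE Y) ∪ (EE X' \ EE Y)).card + (X ∩ X').card.choose 2 + Y.card.choose 2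
      = X.card.choose 2 + X'.card.choose 2 := by
  have h1 : (EE X \ EE Y) ∪ (EE X' \ EE Y) = (EE X ∪ EE X') \ EE Y :=
    (Finset.union_sdiff_distrib (EE X) (EE X') (EE Y)).symm
  have h2 : EE Y ⊆ EE X ∪ EE X' := (EE_mono h).trans Finset.subset_union_left
  have h3 := Finset.card_union_add_card_inter (EE X) (EE X')
  have h4 := Finset.card_sdiff_add_card_eq_card h2
  rw [h1]
  rw [EE_inter] at h3
  simp only [card_EE] at h3 h4
  omega

end Pool.Agent.H29.NL
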