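/-
PRA : elementary properties of `pr` (counting on a finite type).

PROOFS.  Unfold `pr` (`classical`); everything is a statement on `(univ.filter p).card`:
* mono: Finset.card_le_card (filter_subset_filter / monotone_filter_right), div_le_div_of_nonneg_right.
* le_one: card of the filter is at most Fintype.card Ω (card_filter_le, Finset.card_univ), div_le_one_of_le₀.
* or: filter_or, card_union_le.   exists: induction on s (Finset.induction_on) with pr_or_le, or card_biUnion_le.
* not: card_filter_add_card_filter_not (the name is Finset.card_filter_add_card_filter_not), the cardinality of Ω is not 0.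
* equiv: Fintype.card_congr and Finset.card_bij / Finset.card_map.
-/
import Pool.Agent.H29.NL.Bas

set_option autoImplicit false

namespace Pool.Agent.H29.NL

open Finset

section

variable {Ω : Type*} [Fintype Ω]

lemma PRA_or (p q : Ω → Prop) [DecidablePred p] [DecidablePred q]
    [i3 : DecidablePred (fun ω => p ω ∨ q ω)] :
    #(univ.filter (fun ω => p ω ∨ q ω)) ≤ #(univ.filter p) + #(univ.filter q) := by
  have h : @Finset.filter Ω (fun ω => p ω ∨ q ω) i3 univ =
      @Finset.filter Ω (fun ω => p ω ∨ q ω) (fun _ => instDecidableOr) univ := by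
    rw [Subsingleton.elim i3 (fun _ => instDecidableOr)]
  rw [h]
  classical
  rw [Finset.filter_or]
  exact Finset.card_union_le _ _

lemma PRA_false {p : Ω → Prop} [DecidablePred p] (h : ∀ ω, ¬ p ω) :
    #(univ.filter p) = 0 := by
  rw [Finset.filter_false_of_mem fun ω _ => h ω]
  exact Finset.card_empty

lemma pr_nonneg (p : Ω → Prop) : 0 ≤ pr p := by
  unfold pr
  positivity

lemma pr_le_one (p : Ω → Prop) : pr p ≤ 1 := by
  classical
  unfold pr
  refine div_le_one_of_le₀ ?_ (by positivity)
  rw [← Finset.card_univ]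
  exact_mod_cast Finset.card_filter_le _ _

lemma pr_mono {p q : Ω → Prop} (h : ∀ ω, p ω → q ω) : pr p ≤ pr q := by
  classical
  unfold pr
  refine div_le_div_of_nonneg_right ?_ (by positivity)
  have h2 : (#(@Finset.filter Ω p (fun a => Classical.propDecidable (p a)) univ) : ℕ) ≤
      #(@Finset.filter Ω q (fun a => Classical.propDecidable (q a)) univ) := by
    refine Finset.card_le_card ?_
    intro ω hω
    rw [Finset.mem_filter] at hω ⊢
    exact ⟨hω.1, h ω hω.2⟩
  exact_mod_cast h2

lemma pr_congr {p q : Ω → Prop} (h : ∀ ω, p ω ↔ q ω) : pr p = pr q :=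
  le_antisymm (pr_mono fun ω => (h ω).1) (pr_mono fun ω => (h ω).2)

lemma pr_or_le (p q : Ω → Prop) : pr (fun ω => p ω ∨ q ω) ≤ pr p + pr q := by
  classical
  unfold pr
  rw [← add_div]
  refine div_le_div_of_nonneg_right ?_ (by positivity)
  have h2 := @PRA_or Ω _ p q (fun a => Classical.propDecidable (p a))
    (fun a => Classical.propDecidable (q a)) (fun a => Classical.propDecidable (p a ∨ q a))
  exact_mod_cast h2

lemma pr_exists_le {κ : Type*} (s : Finset κ) (p : κ → Ω → Prop) :
    pr (fun ω => ∃ i ∈ s, p i ω) ≤ ∑ i ∈ s, pr (p i) := by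
  classical
  induction s using Finset.induction_on with
  | empty =>
    rw [Finset.sum_empty]
    unfold pr
    have h0 := @PRA_false Ω _ (fun ω => ∃ i ∈ (∅ : Finset κ), p i ω)
      (fun a => Classical.propDecidable _) (by
        rintro ω ⟨i, hi, _⟩
        exact absurd hi (Finset.notMem_empty i))
    rw [h0]
    simp
  | insert a s ha ih =>
    rw [Finset.sum_insert ha]
    refine le_trans (pr_mono (q := fun ω => p a ω ∨ ∃ i ∈ s, p i ω) ?_) ?_
    · rintro ω ⟨i, hi, hp⟩
      rcases Finset.mem_insert.1 hi with h | h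
      · exact Or.inl (h ▸ hp)
      · exact Or.inr ⟨i, h, hp⟩
    · refine le_trans (pr_or_le _ _) ?_
      exact add_le_add (le_refl _) ih

lemma pr_not [Nonempty Ω] (p : Ω → Prop) : pr (fun ω => ¬ p ω) = 1 - pr p := by
  classical
  unfold pr
  have hpos : (0 : ℝ) < (Fintype.card Ω : ℝ) := by exact_mod_cast Fintype.card_pos
  rw [eq_sub_iff_add_eq, ← add_div, div_eq_one_iff_eq hpos.ne']
  have h2 : (#(@Finset.filter Ω p (fun a => Classical.propDecidable (p a)) univ) : ℕ) +
      #(@Finset.filter Ω (fun ω => ¬ p ω) (fun a => Classical.propDecidable (¬ p a)) univ) =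
      Fintype.card Ω := by
    rw [← Finset.card_univ]
    exact @Finset.card_filter_add_card_filter_not Ω univ p
      (fun a => Classical.propDecidable (p a)) (fun a => Classical.propDecidable (¬ p a))
  rw [add_comm]
  exact_mod_cast h2

lemma pr_equiv {Ω' : Type*} [Fintype Ω'] (e : Ω ≃ Ω') (p : Ω' → Prop) :
    pr (fun ω => p (e ω)) = pr p := by
  classical
  unfold pr
  rw [Fintype.card_congr e]
  congr 2
  refine Finset.card_bij (fun ω _ => e ω) ?_ ?_ ?_
  · intro ω hω
    rw [Finset.mem_filter] at hω ⊢
    exact ⟨Finset.mem_univ _, hω.2⟩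
  · intro a _ b _ h
    exact e.injective h
  · intro b hb
    rw [Finset.mem_filter] at hb
    refine ⟨e.symm b, ?_, e.apply_symm_apply b⟩
    rw [Finset.mem_filter]
    refine ⟨Finset.mem_univ _, ?_⟩
    rw [e.apply_symm_apply]
    exact hb.2

end

end Pool.Agent.H29.NL
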