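/-
CLO : closed families.

PROOFS.
* Sat monotonicity: immediate.
* up: Impl Q R A Y holds because Sat A (EE Y ∪ dset ω) always (EE X ⊆ EE Y): the probability of its negation is 0 ≤ (1/2)^R
  (pr of an everywhere false predicate is 0: pr_mono to False .. or simp [pr]).
* empty_of_small: EE X = ∅ for card X ≤ 1, so Sat A (anything); Impl Q R A ∅; card ∅ = 0 ≤ q.
* inter: if Impl for A ∩ B then Impl for A (Sat (A ∩ B) x → Sat A x, so ¬ Sat A ≤ ¬ Sat (A ∩ B), pr_mono) and for B.
* full: every Y of card ≤ q is in it.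
* exists_mins: induction on card X (strong), or Finset.exists_minimal-type lemma on A.filter (· ⊆ X) (take a member of least cardinality).
* exists_closure: let 𝒞 be the finite set of families B with A ⊆ B, (∀ X ∈ B, card X ≤ q) and
  pr (Sat B (dset ω) ∧ ¬ Sat A (dset ω)) ≤ (card (B \ A)) * (1/2)^R.  A ∈ 𝒞 (the event is empty).  Take B ∈ 𝒞 of maximal cardinality
  (Finset.exists_max_image on univ.filter).  B is closed: if Y has card ≤ q, Impl Q R B Y and Y ∉ B, then insert Y B ∈ 𝒞: the event for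
  insert Y B is contained in (event for B) ∪ {EE Y ⊆ dset ω ∧ ¬ Sat B (dset ω)}, and the latter is contained in
  {¬ Sat B (EE Y ∪ dset ω)} (as EE Y ∪ dset ω = dset ω there), of probability ≤ (1/2)^R; card (insert Y B \ A) = card (B \ A) + 1
  (Y ∉ B, A ⊆ B).  Contradiction.  Finally card (B \ A) ≤ card {X : card X ≤ q} ≤ (n+1)^q  (the sets of card ≤ q inject into
  functions Fin q → Option (Fin n) - or: card = Σ_{i ≤ q} C(n,i) ≤ (n+1)^q; for the sum use e.g. that the map
  (Fin q → Option (Fin n)) → Finset (Fin n), f ↦ image of the some-values, has all the sets of card ≤ q in its range).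
  EM n q R = (n+1)^q (1/2)^R.
-/
import Pool.Agent.H29.NL.PRA
import Pool.Agent.H29.NL.EDG

set_option autoImplicit false

namespace Pool.Agent.H29.NL

open Finset

variable {n q Q R : ℕ}

lemma clo_pr_false_le {Ω : Type*} [Fintype Ω] {p : Ω → Prop} (h : ∀ ω, ¬ p ω) : pr p ≤ 0 := by
  refine (pr_mono (q := fun _ => False) fun ω hω => h ω hω).trans ?_
  simp [pr]

lemma Sat.mono_set {A x y : Finset (Finset (Fin n))} (h : x ⊆ y) (hs : Sat A x) : Sat A y := by
  obtain ⟨X, hX, hsub⟩ := hs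
  exact ⟨X, hX, hsub.trans h⟩

lemma Sat.mono_fam {A B x : Finset (Finset (Fin n))} (h : A ⊆ B) (hs : Sat A x) : Sat B x := by
  obtain ⟨X, hX, hsub⟩ := hs
  exact ⟨X, h hX, hsub⟩

lemma Closed.up {A : Finset (Finset (Fin n))} (hA : Closed q Q R A) {X Y : Finset (Fin n)}
    (hX : X ∈ A) (h : X ⊆ Y) (hY : Y.card ≤ q) : Y ∈ A := by
  refine hA.2 Y hY ?_
  have h0 : pr (fun ω : Rnd n Q R => ¬ Sat A (EE Y ∪ dset ω)) ≤ 0 :=
    clo_pr_false_le fun ω hω => hω ⟨X, hX, (EE_mono h).trans subset_union_left⟩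
  exact h0.trans (by positivity)

lemma Closed.empty_of_small {A : Finset (Finset (Fin n))} (hA : Closed q Q R A)
    {X : Finset (Fin n)} (hX : X ∈ A) (h : X.card ≤ 1) : ∅ ∈ A := by
  refine hA.2 ∅ (by simp) ?_
  have h0 : pr (fun ω : Rnd n Q R => ¬ Sat A (EE ∅ ∪ dset ω)) ≤ 0 :=
    clo_pr_false_le fun ω hω => hω ⟨X, hX, by rw [EE_small h]; exact empty_subset _⟩
  exact h0.trans (by positivity)

lemma Closed.inter {A B : Finset (Finset (Fin n))} (hA : Closed q Q R A) (hB : Closed q Q R B) :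
    Closed q Q R (A ∩ B) := by
  refine ⟨fun X hX => hA.1 X (mem_of_mem_inter_left hX), fun Y hY hI => mem_inter.mpr ⟨?_, ?_⟩⟩
  · refine hA.2 Y hY ((pr_mono fun ω hω hs => hω ?_).trans hI)
    exact Sat.mono_fam inter_subset_left hs
  · refine hB.2 Y hY ((pr_mono fun ω hω hs => hω ?_).trans hI)
    exact Sat.mono_fam inter_subset_right hs

lemma closed_full : Closed q Q R (univ.filter fun X : Finset (Fin n) => X.card ≤ q) := by
  refine ⟨fun X hX => (mem_filter.mp hX).2, fun Y hY _ => mem_filter.mpr ⟨mem_univ _, hY⟩⟩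

lemma exists_mins {A : Finset (Finset (Fin n))} {X : Finset (Fin n)} (hX : X ∈ A) :
    ∃ X' ∈ mins A, X' ⊆ X := by
  obtain ⟨Z, hZ, hmin⟩ := exists_min_image (A.filter (· ⊆ X)) (fun Z => Z.card)
    ⟨X, mem_filter.mpr ⟨hX, Subset.rfl⟩⟩
  rw [mem_filter] at hZ
  refine ⟨Z, mem_filter.mpr ⟨hZ.1, fun X' hX' hsub => ?_⟩, hZ.2⟩
  exact eq_of_subset_of_card_le hsub (hmin X' (mem_filter.mpr ⟨hX', hsub.trans hZ.2⟩))

lemma clo_card_small_le (n q : ℕ) :
    (univ.filter fun X : Finset (Fin n) => X.card ≤ q).card ≤ (n + 1) ^ q := by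
  classical
  have h1 : (univ.filter fun X : Finset (Fin n) => X.card ≤ q) ⊆
      (univ : Finset (Fin q → Option (Fin n))).image
        (fun f => univ.filter fun v => ∃ i, f i = some v) := by
    intro X hX
    rw [mem_filter] at hX
    rw [mem_image]
    let e := X.equivFin
    refine ⟨fun i => if h : (i : ℕ) < X.card then some (e.symm ⟨i, h⟩ : Fin n) else none,
      mem_univ _, ?_⟩
    ext v
    rw [mem_filter]
    constructor
    · rintro ⟨-, i, hi⟩
      dsimp only at hi
      split_ifs at hi with h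
      rw [Option.some.injEq] at hi
      rw [← hi]
      exact (e.symm ⟨i, h⟩).2
    · intro hv
      refine ⟨mem_univ _, ⟨(e ⟨v, hv⟩ : ℕ), (e ⟨v, hv⟩).2.trans_le hX.2⟩, ?_⟩
      have h : ((e ⟨v, hv⟩ : Fin X.card) : ℕ) < X.card := (e ⟨v, hv⟩).2
      dsimp only
      rw [dif_pos h]
      simp
  refine (card_le_card h1).trans (card_image_le.trans ?_)
  rw [card_univ, Fintype.card_fun, Fintype.card_option, Fintype.card_fin, Fintype.card_fin]

theorem exists_closure (A : Finset (Finset (Fin n))) (hA : ∀ X ∈ A, X.card ≤ q) :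
    ∃ B, A ⊆ B ∧ Closed q Q R B ∧
      pr (fun ω : Rnd n Q R => Sat B (dset ω) ∧ ¬ Sat A (dset ω)) ≤ EM n q R := by
  classical
  have hne : (univ.filter fun B : Finset (Finset (Fin n)) => A ⊆ B ∧ (∀ X ∈ B, X.card ≤ q) ∧
      pr (fun ω : Rnd n Q R => Sat B (dset ω) ∧ ¬ Sat A (dset ω)) ≤
        ((B \ A).card : ℝ) * (1 / 2 : ℝ) ^ R).Nonempty := by
    refine ⟨A, mem_filter.mpr ⟨mem_univ _, Subset.rfl, hA, ?_⟩⟩
    exact (clo_pr_false_le fun ω hω => hω.2 hω.1).trans (by positivity)
  obtain ⟨B, hB, hmax⟩ := exists_max_image _ (fun B : Finset (Finset (Fin n)) => B.card) hne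
  rw [mem_filter] at hB
  obtain ⟨-, hAB, hBq, hpr⟩ := hB
  refine ⟨B, hAB, ⟨hBq, fun Y hY hI => ?_⟩, hpr.trans ?_⟩
  · by_contra hYB
    have hcard : ((insert Y B) \ A).card = (B \ A).card + 1 := by
      rw [insert_sdiff_of_notMem _ (fun h => hYB (hAB h)), card_insert_of_notMem]
      exact fun h => hYB (mem_sdiff.mp h).1
    have hmem : insert Y B ∈ (univ.filter fun B : Finset (Finset (Fin n)) =>
        A ⊆ B ∧ (∀ X ∈ B, X.card ≤ q) ∧
          pr (fun ω : Rnd n Q R => Sat B (dset ω) ∧ ¬ Sat A (dset ω)) ≤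
            ((B \ A).card : ℝ) * (1 / 2 : ℝ) ^ R) := by
      refine mem_filter.mpr ⟨mem_univ _, hAB.trans (subset_insert _ _), ?_, ?_⟩
      · intro X hX
        rw [mem_insert] at hX
        rcases hX with rfl | hX
        · exact hY
        · exact hBq X hX
      · rw [hcard]
        have h1 : pr (fun ω : Rnd n Q R => Sat (insert Y B) (dset ω) ∧ ¬ Sat A (dset ω)) ≤
            pr (fun ω : Rnd n Q R => (Sat B (dset ω) ∧ ¬ Sat A (dset ω)) ∨
              ¬ Sat B (EE Y ∪ dset ω)) := by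
          refine pr_mono fun ω hω => ?_
          by_cases hs : Sat B (dset ω)
          · exact Or.inl ⟨hs, hω.2⟩
          · obtain ⟨X, hX, hsub⟩ := hω.1
            rw [mem_insert] at hX
            rcases hX with rfl | hX
            · refine Or.inr ?_
              rwa [union_eq_right.mpr hsub]
            · exact absurd ⟨X, hX, hsub⟩ hs
        refine h1.trans ((pr_or_le _ _).trans ((add_le_add hpr hI).trans (le_of_eq ?_)))
        push_cast
        ring
    have h2 := hmax _ hmem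
    rw [card_insert_of_notMem hYB] at h2
    omega
  · unfold EM
    refine mul_le_mul_of_nonneg_right ?_ (by positivity)
    have h3 : (B \ A).card ≤ (n + 1) ^ q :=
      (card_le_card fun X hX => mem_filter.mpr ⟨mem_univ _, hBq X (mem_sdiff.mp hX).1⟩).trans
        (clo_card_small_le n q)
    exact_mod_cast h3

end Pool.Agent.H29.NL
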