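/-
PRB : `pr` on products and powers.

PROOFS.  (classical; card Ω may be 0, then all the pr are 0 by division by zero)
* prod_le: the number of pairs in {p} is the sum over a of the number of b with p (a, b) (Finset.card_filter, Fintype.sum_prod_type, or
  card_sigma / `Finset.card_eq_sum_card_fiberwise`); each inner number is at most c * card Ω' (from h, if card Ω' > 0; if card Ω' = 0 both
  sides are 0).  So the total is at most card Ω * (c * card Ω'), and card (Ω × Ω') = card Ω * card Ω' (Fintype.card_prod).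
* fst_le: {q} is contained in {p} ×ˢ univ, whose cardinality is card{p} * card Ω'.  If card Ω' = 0 then pr q = 0 ≤ pr p.  snd_le in the
  same way (or via Equiv.prodComm).
* pi: the set of ω with ∀ ρ, p (ω ρ) is Fintype.piFinset (fun _ => univ.filter p), of cardinality (card{p})^R (Fintype.card_piFinset,
  prod_const, card_fin); card (Fin R → Ω) = card Ω ^ R (Fintype.card_fun / Fintype.card_pi); div_pow.
* update_le: averaging.  For fixed i the map Ω × (Fin M → Ω) → (Fin M → Ω), (a, ω) ↦ update ω i a has all fibres of size card Ω (fibre of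
  ω' is {(ω' i, update ω' i a) | a}).  So card Ω * #{(ω', κ) | p} = #{(a, ω, κ) | p (update ω i a, κ)} = Σ_ω #{(a, κ) | ...}
  ≤ (card Ω)^M * c * card Ω * card Κ.   Alternatively use Equiv.funSplitAt i Ω : (Fin M → Ω) ≃ Ω × ({j // j ≠ i} → Ω), pr_equiv from PRA and
  pr_prod_le on {j // j ≠ i} → Ω  times  Ω × Κ: for every rest f, choose ω := the function equal to f off i (Ω nonempty, otherwise trivial);
  the section is a ↦ update ω i a.
-/
import Pool.Agent.H29.NL.PRA

set_option autoImplicit false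

namespace Pool.Agent.H29.NL

open Finset

section

variable {Ω Ω' : Type*} [Fintype Ω] [Fintype Ω']

open Classical in
lemma PRB_mul (p : Ω → Prop) : pr p * (Fintype.card Ω : ℝ) = ((univ.filter p).card : ℝ) := by
  have h0 : pr p = ((univ.filter p).card : ℝ) / (Fintype.card Ω : ℝ) := rfl
  rw [h0]
  by_cases hc : (Fintype.card Ω : ℝ) = 0
  · have h1 : (univ.filter p).card ≤ Fintype.card Ω := card_le_univ _
    have h2 : Fintype.card Ω = 0 := by exact_mod_cast hc
    have h3 : (univ.filter p).card = 0 := by omega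
    rw [h3, hc]
    simp
  · exact div_mul_cancel₀ _ hc

open Classical in
lemma PRB_prod (p : Ω × Ω' → Prop) :
    ((univ.filter p).card : ℝ) = ∑ a : Ω, ((univ.filter (fun b => p (a, b))).card : ℝ) := by
  rw [Finset.natCast_card_filter, Fintype.sum_prod_type]
  refine Finset.sum_congr rfl ?_
  intro a _
  rw [Finset.natCast_card_filter]

open Classical in
lemma pr_prod_le (p : Ω × Ω' → Prop) {c : ℝ} (hc : 0 ≤ c)
    (h : ∀ a, pr (fun b => p (a, b)) ≤ c) : pr p ≤ c := by
  have h0 : pr p = ((univ.filter p).card : ℝ) / (Fintype.card (Ω × Ω') : ℝ) := rfl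
  rw [h0]
  refine div_le_of_le_mul₀ (Nat.cast_nonneg _) hc ?_
  rw [PRB_prod, Fintype.card_prod, Nat.cast_mul]
  calc ∑ a : Ω, ((univ.filter (fun b => p (a, b))).card : ℝ)
      ≤ ∑ _a : Ω, c * (Fintype.card Ω' : ℝ) := by
        refine Finset.sum_le_sum ?_
        intro a _
        rw [← PRB_mul (fun b => p (a, b))]
        exact mul_le_mul_of_nonneg_right (h a) (Nat.cast_nonneg _)
    _ = c * ((Fintype.card Ω : ℝ) * (Fintype.card Ω' : ℝ)) := by
        rw [Finset.sum_const, Finset.card_univ, nsmul_eq_mul]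
        ring

open Classical in
lemma pr_fst_le (p : Ω → Prop) (q : Ω × Ω' → Prop) (h : ∀ z, q z → p z.1) : pr q ≤ pr p := by
  have h0 : pr q = ((univ.filter q).card : ℝ) / (Fintype.card (Ω × Ω') : ℝ) := rfl
  rw [h0]
  refine div_le_of_le_mul₀ (Nat.cast_nonneg _) (pr_nonneg p) ?_
  rw [Fintype.card_prod, Nat.cast_mul, ← mul_assoc, PRB_mul]
  have h1 : univ.filter q ⊆ (univ.filter p) ×ˢ (univ : Finset Ω') := by
    intro z hz
    rw [Finset.mem_product]
    exact ⟨Finset.mem_filter.2 ⟨Finset.mem_univ _, h z (Finset.mem_filter.1 hz).2⟩,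
      Finset.mem_univ _⟩
  have h2 := Finset.card_le_card h1
  rw [Finset.card_product, Finset.card_univ] at h2
  exact_mod_cast h2

lemma pr_snd_le (p : Ω' → Prop) (q : Ω × Ω' → Prop) (h : ∀ z, q z → p z.2) : pr q ≤ pr p := by
  rw [← pr_equiv (Equiv.prodComm Ω' Ω) q]
  exact pr_fst_le p _ (fun z hz => h _ hz)

open Classical in
lemma PRB_pi (R : ℕ) (p : Ω → Prop) (q : (Fin R → Ω) → Prop) (hq : ∀ ω, q ω ↔ ∀ ρ, p (ω ρ)) :
    pr q = (pr p) ^ R := by
  have h0 : pr q = ((univ.filter q).card : ℝ) / (Fintype.card (Fin R → Ω) : ℝ) := rfl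
  have h1 : pr p = ((univ.filter p).card : ℝ) / (Fintype.card Ω : ℝ) := rfl
  rw [h0, h1, div_pow]
  have h2 : univ.filter q = Fintype.piFinset (fun _ : Fin R => univ.filter p) := by
    ext ω
    rw [Finset.mem_filter, Fintype.mem_piFinset, hq]
    constructor
    · intro hω ρ
      exact Finset.mem_filter.2 ⟨Finset.mem_univ _, hω.2 ρ⟩
    · intro hω
      exact ⟨Finset.mem_univ _, fun ρ => (Finset.mem_filter.1 (hω ρ)).2⟩
  rw [h2, Fintype.card_piFinset, Finset.prod_const, Finset.card_univ, Fintype.card_fin,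
    Fintype.card_fun, Fintype.card_fin]
  push_cast
  rfl

lemma pr_pi (R : ℕ) (p : Ω → Prop) :
    pr (fun ω : Fin R → Ω => ∀ ρ, p (ω ρ)) = (pr p) ^ R :=
  PRB_pi R p _ (fun _ => Iff.rfl)

/-- splitting off the coordinate `i` -/
def PRB_split (Ω Ω' : Type*) {M : ℕ} (i : Fin M) :
    ({j : Fin M // j ≠ i} → Ω) × (Ω × Ω') ≃ (Fin M → Ω) × Ω' where
  toFun z := ((Equiv.funSplitAt i Ω).symm (z.2.1, z.1), z.2.2)
  invFun w := (((Equiv.funSplitAt i Ω) w.1).2, (((Equiv.funSplitAt i Ω) w.1).1, w.2))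
  left_inv := by
    rintro ⟨f, a, b⟩
    simp only [Equiv.apply_symm_apply]
  right_inv := by
    rintro ⟨ω, b⟩
    simp only [Prod.mk.eta, Equiv.symm_apply_apply]

lemma pr_update_le {M : ℕ} (i : Fin M) (p : (Fin M → Ω) × Ω' → Prop) {c : ℝ} (hc : 0 ≤ c)
    (h : ∀ ω, pr (fun z : Ω × Ω' => p (Function.update ω i z.1, z.2)) ≤ c) : pr p ≤ c := by
  rw [← pr_equiv (PRB_split Ω Ω' i) p]
  refine pr_prod_le _ hc ?_
  intro f
  rcases isEmpty_or_nonempty Ω with hΩ | hΩ
  · have h1 : pr (fun b : Ω × Ω' => p ((PRB_split Ω Ω' i) (f, b))) *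
        (Fintype.card (Ω × Ω') : ℝ) = _ := PRB_mul _
    have h0 : pr (fun b : Ω × Ω' => p ((PRB_split Ω Ω' i) (f, b))) = 0 := by
      unfold pr
      have : Fintype.card (Ω × Ω') = 0 := Fintype.card_eq_zero
      rw [this]
      simp
    rw [h0]
    exact hc
  · obtain ⟨a0⟩ := hΩ
    refine le_trans (le_of_eq ?_) (h ((Equiv.funSplitAt i Ω).symm (a0, f)))
    apply pr_congr
    rintro ⟨a, b⟩
    have hu : Function.update ((Equiv.funSplitAt i Ω).symm (a0, f)) i a =
        (Equiv.funSplitAt i Ω).symm (a, f) := by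
      funext j
      by_cases hj : j = i
      · subst hj
        rw [Function.update_self]
        simp [Equiv.funSplitAt, Equiv.piSplitAt]
      · rw [Function.update_of_ne hj]
        simp [Equiv.funSplitAt, Equiv.piSplitAt, hj]
    change p ((Equiv.funSplitAt i Ω).symm (a, f), b) ↔ p (Function.update _ i a, b)
    rw [hu]

end

end Pool.Agent.H29.NL
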