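/-
CNT : the number of minimal members of a closed family.

PROOF.  Suppose bb q Q j (card W) < card (fam A j W).  Among the Y with card Y < j and bb q Q j (card Y) ≤ card (fam A j Y) (W is one of
them; finitely many) take one of maximal cardinality (Finset.exists_max_image).  Then for Z ⊃ Y with card Z < j:
card (fam A j Z) < bb q Q j (card Z) and (fam A j Y).filter (Z ⊆ ·) = fam A j Z (as Y ⊆ Z).  So `spread` applies to S := fam A j Y
(members: card j, contain Y): one round hits with probability ≥ 1/2.  R rounds: ¬ Sat A (EE Y ∪ dset ω) implies that for every ρ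
there is no X ∈ S with ∀ e ∈ EE X \ EE Y, (ω ρ e : ℕ) = 0 (otherwise EE X ⊆ EE Y ∪ dset ω, X ∈ mins A ⊆ A).  By pr_mono and pr_pi the
probability is ≤ (pr (no hit in one round))^R ≤ (1/2)^R  (pr_not; Lab n Q is nonempty as Q > 0; pow_le_pow_left₀).  So Impl Q R A Y, card Y < j ≤ q,
hence Y ∈ A.  S is nonempty (bb ≥ 1: Nat.pos_of_ne_zero, q ≥ 1, Q ≥ 1): take X ∈ S; X ∈ mins A, Y ∈ A, Y ⊆ X gives Y = X, but card Y < j = card X.
-/
import Pool.Agent.H29.NL.PRB
import Pool.Agent.H29.NL.SPR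
import Pool.Agent.H29.NL.CLO

set_option autoImplicit false

namespace Pool.Agent.H29.NL

open Finset

theorem card_fam_le {n q Q R j : ℕ} (hQ : 0 < Q) (hq : 1 ≤ q) (hj : j ≤ q)
    {A : Finset (Finset (Fin n))} (hA : Closed q Q R A) (W : Finset (Fin n)) (hW : W.card < j) :
    (fam A j W).card ≤ bb q Q j W.card := by
  classical
  by_contra hcon
  have hcon' := not_le.1 hcon
  obtain ⟨Y, hY, hmax⟩ := Finset.exists_max_image
    (univ.filter (fun Y : Finset (Fin n) => Y.card < j ∧ bb q Q j Y.card ≤ (fam A j Y).card))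
    (fun Y => Y.card) ⟨W, Finset.mem_filter.2 ⟨Finset.mem_univ _, hW, hcon'.le⟩⟩
  obtain ⟨hYc, hYb⟩ := (Finset.mem_filter.1 hY).2
  have hsp := spread hQ hq hj Y hYc (fam A j Y) (fun X hX => (Finset.mem_filter.1 hX).2) hYb (by
    intro Z hYZ hZ
    have h1 : ((fam A j Y).filter fun X => Z ⊆ X) ⊆ fam A j Z := by
      intro X hX
      obtain ⟨h2, h3⟩ := Finset.mem_filter.1 hX
      obtain ⟨h4, h5, -⟩ := Finset.mem_filter.1 h2
      exact Finset.mem_filter.2 ⟨h4, h5, h3⟩
    refine (Finset.card_le_card h1).trans ?_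
    by_contra hlt
    have hlt' := not_le.1 hlt
    have h6 := hmax Z (Finset.mem_filter.2 ⟨Finset.mem_univ _, hZ, hlt'.le⟩)
    have h7 := Finset.card_lt_card hYZ
    omega)
  have hne : Nonempty (Lab n Q) := ⟨fun _ => ⟨0, hQ⟩⟩
  have himpl : Impl Q R A Y := by
    unfold Impl
    have hmono : pr (fun ω : Rnd n Q R => ¬ Sat A (EE Y ∪ dset ω)) ≤
        pr (fun ω : Rnd n Q R => ∀ ρ, ¬ ∃ X ∈ fam A j Y, ∀ e ∈ EE X \ EE Y, (ω ρ e : ℕ) = 0) := by
      refine pr_mono ?_
      rintro ω hω ρ ⟨X, hX, he⟩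
      apply hω
      refine ⟨X, (Finset.mem_filter.1 (Finset.mem_filter.1 hX).1).1, ?_⟩
      intro e heX
      by_cases heY : e ∈ EE Y
      · exact Finset.mem_union_left _ heY
      · refine Finset.mem_union_right _ ?_
        unfold dset
        rw [Finset.mem_filter]
        exact ⟨Finset.mem_univ _, ρ, he e (Finset.mem_sdiff.2 ⟨heX, heY⟩)⟩
    refine hmono.trans ?_
    rw [pr_pi R (fun σ : Lab n Q => ¬ ∃ X ∈ fam A j Y, ∀ e ∈ EE X \ EE Y, (σ e : ℕ) = 0)]
    refine pow_le_pow_left₀ (pr_nonneg _) ?_ R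
    rw [pr_not]
    linarith
  have hYA : Y ∈ A := hA.2 Y (by omega) himpl
  have hpos : 0 < bb q Q j Y.card := by
    unfold bb
    have : 0 < 2 * q := by omega
    positivity
  obtain ⟨X, hX⟩ := Finset.card_pos.1 (lt_of_lt_of_le hpos hYb)
  obtain ⟨h1, h2, h3⟩ := Finset.mem_filter.1 hX
  have h4 := (Finset.mem_filter.1 h1).2 Y hYA h3
  rw [h4] at hYc
  omega

end Pool.Agent.H29.NL
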