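/-
KSP : random k-sets.

PROOF.  u := card U.  If u > k the event is empty (0 ≤ (k/n)^u).  Otherwise the number of k-sets K ⊇ U is C(n-u, k-u)
(bijection K ↦ K \ U with the (k-u)-subsets of univ \ U; e.g. Finset.card_powersetCard on (univ \ U), Finset.card_bij /
Finset.card_nbij'), the number of all k-sets is C(n,k) (Fintype.card {K // K.card = k}: Fintype.card_finset_len or via powersetCard univ), and
C(n-u,k-u)/C(n,k) ≤ (k/n)^u.  Simplest by induction on U: if v ∉ U, insert v U ⊆ K: double counting inequality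
C(n-u-1,k-u-1) * (n-u) = C(n-u,k-u) * (k-u) (Nat.succ_mul_choose_eq / Nat.add_one_mul_choose_eq) and (k-u)/(n-u) ≤ k/n (k ≤ n, u < n).
So with c u := C(n-u,k-u) (for u ≤ k): c (u+1) = c u (k-u)/(n-u) ≤ c u * (k/n), c 0 = C(n,k).
-/
import Pool.Agent.H29.NL.PRA

set_option autoImplicit false

namespace Pool.Agent.H29.NL

open Finset

lemma KSP_choose {n k : ℕ} (hk : k ≤ n) (hn : 0 < n) (u : ℕ) (hu : u ≤ k) :
    ((n - u).choose (k - u) : ℝ) ≤ ((k : ℝ) / n) ^ u * (n.choose k : ℝ) := by
  have hn' : (0 : ℝ) < (n : ℝ) := by exact_mod_cast hn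
  induction u with
  | zero => simp
  | succ u ih =>
    have ih' := ih (by omega)
    have h1 : (n - u) * (n - (u + 1)).choose (k - (u + 1)) = (n - u).choose (k - u) * (k - u) := by
      obtain ⟨a, ha⟩ : ∃ a, n - u = a + 1 := ⟨n - u - 1, by omega⟩
      obtain ⟨b, hb⟩ : ∃ b, k - u = b + 1 := ⟨k - u - 1, by omega⟩
      have ha' : n - (u + 1) = a := by omega
      have hb' : k - (u + 1) = b := by omega
      rw [ha', hb', ha, hb]
      exact Nat.add_one_mul_choose_eq a b
    have h1R : ((n : ℝ) - u) * ((n - (u + 1)).choose (k - (u + 1)) : ℝ) =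
        ((n - u).choose (k - u) : ℝ) * ((k : ℝ) - u) := by
      have := congrArg (fun t : ℕ => (t : ℝ)) h1
      simp only [Nat.cast_mul] at this
      rw [Nat.cast_sub (by omega), Nat.cast_sub (by omega)] at this
      exact this
    have hnu : (0 : ℝ) < (n : ℝ) - u := by
      have : u < n := by omega
      have : (u : ℝ) < (n : ℝ) := by exact_mod_cast this
      linarith
    have hkn : (k : ℝ) ≤ (n : ℝ) := by exact_mod_cast hk
    have hu0 : (0 : ℝ) ≤ (u : ℝ) := Nat.cast_nonneg u
    have hc0 : (0 : ℝ) ≤ ((n - u).choose (k - u) : ℝ) := Nat.cast_nonneg _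
    have h2 : ((n - (u + 1)).choose (k - (u + 1)) : ℝ) * n ≤
        ((n - u).choose (k - u) : ℝ) * k := by
      have h3 : ((n : ℝ) - u) * (((n - (u + 1)).choose (k - (u + 1)) : ℝ) * n) ≤
          ((n : ℝ) - u) * (((n - u).choose (k - u) : ℝ) * k) := by
        have h4 : ((k : ℝ) - u) * n ≤ ((n : ℝ) - u) * k := by nlinarith
        calc ((n : ℝ) - u) * (((n - (u + 1)).choose (k - (u + 1)) : ℝ) * n)
            = ((n - u).choose (k - u) : ℝ) * (((k : ℝ) - u) * n) := by
              rw [← mul_assoc, h1R]; ring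
          _ ≤ ((n - u).choose (k - u) : ℝ) * (((n : ℝ) - u) * k) :=
              mul_le_mul_of_nonneg_left h4 hc0
          _ = ((n : ℝ) - u) * (((n - u).choose (k - u) : ℝ) * k) := by ring
      exact le_of_mul_le_mul_left h3 hnu
    have h5 : ((n - (u + 1)).choose (k - (u + 1)) : ℝ) ≤
        ((n - u).choose (k - u) : ℝ) * ((k : ℝ) / n) := by
      rw [mul_div_assoc', le_div_iff₀ hn']
      exact h2
    refine le_trans h5 ?_
    rw [pow_succ]
    calc ((n - u).choose (k - u) : ℝ) * ((k : ℝ) / n)
        ≤ (((k : ℝ) / n) ^ u * (n.choose k : ℝ)) * ((k : ℝ) / n) :=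
          mul_le_mul_of_nonneg_right ih' (by positivity)
      _ = ((k : ℝ) / n) ^ u * ((k : ℝ) / n) * (n.choose k : ℝ) := by ring

lemma KSP_card {n k : ℕ} (U : Finset (Fin n)) (hU : U.card ≤ k)
    [DecidablePred (fun K : KK n k => U ⊆ K.1)] :
    (univ.filter (fun K : KK n k => U ⊆ K.1)).card = (n - U.card).choose (k - U.card) := by
  have h1 : (n - U.card).choose (k - U.card) =
      ((univ \ U).powersetCard (k - U.card)).card := by
    rw [Finset.card_powersetCard, Finset.card_univ_sdiff, Fintype.card_fin]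
  rw [h1]
  refine Finset.card_bij' (fun K _ => K.1 \ U)
    (fun T hT => ⟨T ∪ U, by
      rw [Finset.mem_powersetCard] at hT
      have hd : Disjoint T U := Finset.disjoint_of_subset_left hT.1 Finset.sdiff_disjoint
      rw [Finset.card_union_of_disjoint hd, hT.2]
      omega⟩) ?_ ?_ ?_ ?_
  · intro K hK
    rw [Finset.mem_filter] at hK
    rw [Finset.mem_powersetCard]
    refine ⟨Finset.sdiff_subset_sdiff (Finset.subset_univ _) (Finset.Subset.refl _), ?_⟩
    rw [Finset.card_sdiff_of_subset hK.2, K.2]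
  · intro T hT
    rw [Finset.mem_filter]
    exact ⟨Finset.mem_univ _, Finset.subset_union_right⟩
  · intro K hK
    rw [Finset.mem_filter] at hK
    apply Subtype.ext
    exact Finset.sdiff_union_of_subset hK.2
  · intro T hT
    rw [Finset.mem_powersetCard] at hT
    have hd : Disjoint T U := Finset.disjoint_of_subset_left hT.1 Finset.sdiff_disjoint
    exact Finset.union_sdiff_cancel_right hd

lemma KSP_total (n k : ℕ) : Fintype.card (KK n k) = n.choose k := by
  have := Fintype.card_finset_len (α := Fin n) k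
  rw [Fintype.card_fin] at this
  rw [← this]

lemma pr_KK_le {n k : ℕ} (hk : k ≤ n) (hn : 0 < n) (U : Finset (Fin n)) :
    pr (fun K : KK n k => U ⊆ K.1) ≤ ((k : ℝ) / n) ^ U.card := by
  classical
  by_cases hU : U.card ≤ k
  · unfold pr
    rw [KSP_total]
    have hpos : (0 : ℝ) < (n.choose k : ℝ) := by exact_mod_cast Nat.choose_pos hk
    rw [div_le_iff₀ hpos]
    refine le_trans (le_of_eq ?_) (KSP_choose hk hn U.card hU)
    exact congrArg (Nat.cast : ℕ → ℝ)
      (@KSP_card n k U hU (fun a => Classical.propDecidable _))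
  · have h0 : pr (fun K : KK n k => U ⊆ K.1) ≤ pr (fun _ : KK n k => False) := by
      refine pr_mono ?_
      intro K hK
      exact hU (K.2 ▸ Finset.card_le_card hK)
    refine le_trans h0 ?_
    have h1 : pr (fun _ : KK n k => False) = 0 := by
      unfold pr
      simp
    rw [h1]
    positivity

lemma KK_nonempty {n k : ℕ} (hk : k ≤ n) : Nonempty (KK n k) := by
  have h : 0 < Fintype.card (KK n k) := by
    rw [KSP_total]
    exact Nat.choose_pos hk
  exact Fintype.card_pos_iff.1 h

end Pool.Agent.H29.NL
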