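/-
WQ : inequalities for the weights.

PROOFS.
* weight_exp: with u = q - j, v = q - j', D = j + j' - i - q (all ≥ 0; i = q - u - v - D) twice the difference RHS - LHS is
  D^2 - D + 2uv + 2uD + 2vD ≥ 0 (2 * C(x,2) = x(x-1): Nat.choose_two_right / Nat.triangle_succ; it is convenient to write
  i, u, v, D as the free naturals: q = i + u + v + D, j = i + v + D, j' = i + u + D, and to use (x+1).choose 2 or
  Nat.choose_two_right with Nat.div; or induct on D).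
* bb_mul: bb q Q j 0 * bb q Q j' i * (k/n)^(j+j'-i) = (2q)^(j + j' - i) Q^(C(j,2) + C(j',2) - C(i,2)) k^(j+j'-i) / n^(j+j'-i), where
  (i ≤ j': the exponents add: j + (j' - i) = j + j' - i; C(i,2) ≤ C(j',2): Nat.choose_le_choose).  (2qk)^(j+j'-i) ≤ (2qk)^(2q) (2qk ≥ 1).  With
  D := j + j' - i - q: Q^(C(j,2)+C(j',2)-C(i,2)) ≤ Q^(C(q,2)) * (Q^(q-1))^D ≤ Q^(C(q,2)) * n^D (weight_exp, hQn), and n^(j+j'-i) = n^q * n^D.
* small_weight: for 2 ≤ j ≤ q: bb q Q j 0 * (k/n)^j = (2qk)^j Q^(C(j,2)) / n^j ≤ (2qk)^q * Q/n^2, because C(j,2) ≤ 1 + (j-2)(q-1)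
  (j = 2: equality; otherwise 3 ≤ j ≤ q and C(j,2) - 1 = (j-2)(j+1)/2 ≤ (j-2)(q-1)) and n^j = n^2 * n^(j-2).
-/
import Pool.Agent.H29.NL.Bas

set_option autoImplicit false

namespace Pool.Agent.H29.NL

open Finset

lemma WQ_two (x : ℕ) : 2 * (x.choose 2 : ℤ) = (x : ℤ) ^ 2 - x := by
  have h : 2 * x.choose 2 = x * (x - 1) := by
    rw [Nat.choose_two_right, Nat.mul_div_cancel' (Nat.even_mul_pred_self x).two_dvd]
  cases x with
  | zero => simp
  | succ y =>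
    rw [Nat.add_sub_cancel] at h
    have h2 : 2 * ((y + 1).choose 2 : ℤ) = ((y : ℤ) + 1) * y := by exact_mod_cast h
    rw [h2]
    push_cast
    ring

lemma WQ_exp (i u v D : ℕ) : (i + v + D).choose 2 + (i + u + D).choose 2 ≤
    (i + u + v + D).choose 2 + i.choose 2 + D * (i + u + v + D - 1) := by
  have e1 := WQ_two (i + v + D)
  have e2 := WQ_two (i + u + D)
  have e3 := WQ_two (i + u + v + D)
  have e4 := WQ_two i
  have e5 : ((D * (i + u + v + D - 1) : ℕ) : ℤ) = (D : ℤ) * ((i : ℤ) + u + v + D - 1) := by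
    rcases Nat.eq_zero_or_pos D with h | h
    · subst h
      simp
    · rw [Nat.cast_mul, Nat.cast_sub (by omega)]
      push_cast
      ring
  have hD : (D : ℤ) ≤ (D : ℤ) ^ 2 := by
    have : D ≤ D ^ 2 := Nat.le_self_pow two_ne_zero D
    exact_mod_cast this
  have huv : (0 : ℤ) ≤ (u : ℤ) * v := by positivity
  have huD : (0 : ℤ) ≤ (u : ℤ) * D := by positivity
  have hvD : (0 : ℤ) ≤ (v : ℤ) * D := by positivity
  have key : (((i + v + D).choose 2 + (i + u + D).choose 2 : ℕ) : ℤ) ≤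
      (((i + u + v + D).choose 2 + i.choose 2 + D * (i + u + v + D - 1) : ℕ) : ℤ) := by
    rw [Nat.cast_add, Nat.cast_add, Nat.cast_add, e5]
    push_cast at e1 e2 e3 e4
    nlinarith
  exact_mod_cast key

lemma weight_exp {i j j' q : ℕ} (hij : i ≤ j) (hij' : i ≤ j') (hj : j ≤ q) (hj' : j' ≤ q)
    (h : q + i ≤ j + j') :
    j.choose 2 + j'.choose 2 ≤ q.choose 2 + i.choose 2 + (j + j' - i - q) * (q - 1) := by
  have h1 := WQ_exp i (q - j) (q - j') (j + j' - i - q)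
  have e1 : i + (q - j') + (j + j' - i - q) = j := by omega
  have e2 : i + (q - j) + (j + j' - i - q) = j' := by omega
  have e3 : i + (q - j) + (q - j') + (j + j' - i - q) = q := by omega
  rw [e1, e2, e3] at h1
  exact h1

lemma weight_le {n k q Q i j j' : ℕ} (hQ : 0 < Q) (hn : 0 < n) (hk : 1 ≤ k) (hq : 1 ≤ q)
    (hQn : Q ^ (q - 1) ≤ n) (hij : i ≤ j) (hij' : i ≤ j') (hj : j ≤ q) (hj' : j' ≤ q)
    (h : q + i ≤ j + j') :
    (bb q Q j 0 : ℝ) * (bb q Q j' i : ℝ) * ((k : ℝ) / n) ^ (j + j' - i)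
      ≤ (2 * q * k : ℝ) ^ (2 * q) * ((Q : ℝ) ^ (q.choose 2) / (n : ℝ) ^ q) := by
  have hnR : (0 : ℝ) < n := by exact_mod_cast hn
  have hQ1 : (1 : ℝ) ≤ Q := by exact_mod_cast hQ
  have hqR : (1 : ℝ) ≤ q := by exact_mod_cast hq
  have hkR : (1 : ℝ) ≤ k := by exact_mod_cast hk
  have hw := weight_exp hij hij' hj hj' h
  have hci : i.choose 2 ≤ j'.choose 2 := Nat.choose_le_choose 2 hij'
  set D := j + j' - i - q with hD
  have he : j + j' - i = q + D := by omega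
  have he' : j + (j' - i) = q + D := by omega
  set E := j.choose 2 + (j'.choose 2 - i.choose 2) with hE
  have hEle : E ≤ q.choose 2 + D * (q - 1) := by omega
  have h1 : (bb q Q j 0 : ℝ) * (bb q Q j' i : ℝ) * ((k : ℝ) / n) ^ (j + j' - i) =
      (2 * q * k : ℝ) ^ (q + D) * ((Q : ℝ) ^ E / (n : ℝ) ^ (q + D)) := by
    unfold bb
    push_cast
    rw [Nat.sub_zero, Nat.choose_eq_zero_of_lt (show 0 < 2 by norm_num), Nat.sub_zero, he, div_pow]
    have e1 : (2 * q * k : ℝ) ^ (q + D) = (2 * q : ℝ) ^ j * (2 * q : ℝ) ^ (j' - i) * (k : ℝ) ^ (q + D) := by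
      rw [mul_pow, ← pow_add, he']
    have e2 : (Q : ℝ) ^ E = (Q : ℝ) ^ (j.choose 2) * (Q : ℝ) ^ (j'.choose 2 - i.choose 2) := by
      rw [← pow_add]
    rw [e1, e2]
    ring
  have h2 : (2 * q * k : ℝ) ^ (q + D) ≤ (2 * q * k : ℝ) ^ (2 * q) := by
    apply pow_le_pow_right₀ _ (by omega)
    nlinarith
  have h3 : (Q : ℝ) ^ E ≤ (Q : ℝ) ^ (q.choose 2) * (n : ℝ) ^ D := by
    calc (Q : ℝ) ^ E ≤ (Q : ℝ) ^ (q.choose 2 + D * (q - 1)) := pow_le_pow_right₀ hQ1 hEle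
      _ = (Q : ℝ) ^ (q.choose 2) * ((Q : ℝ) ^ (q - 1)) ^ D := by
          rw [pow_add, mul_comm D, pow_mul]
      _ ≤ (Q : ℝ) ^ (q.choose 2) * (n : ℝ) ^ D := by
          apply mul_le_mul_of_nonneg_left _ (by positivity)
          apply pow_le_pow_left₀ (by positivity)
          exact_mod_cast hQn
  have h4 : (Q : ℝ) ^ E / (n : ℝ) ^ (q + D) ≤ (Q : ℝ) ^ (q.choose 2) / (n : ℝ) ^ q := by
    rw [div_le_div_iff₀ (by positivity) (by positivity), pow_add (n : ℝ) q D]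
    calc (Q : ℝ) ^ E * (n : ℝ) ^ q ≤ ((Q : ℝ) ^ (q.choose 2) * (n : ℝ) ^ D) * (n : ℝ) ^ q :=
          mul_le_mul_of_nonneg_right h3 (by positivity)
      _ = (Q : ℝ) ^ (q.choose 2) * ((n : ℝ) ^ q * (n : ℝ) ^ D) := by ring
  rw [h1]
  exact mul_le_mul h2 h4 (by positivity) (by positivity)

lemma small_weight {n k q Q j : ℕ} (hQ : 0 < Q) (hn : 0 < n) (hk : 1 ≤ k) (hQn : Q ^ (q - 1) ≤ n)
    (hj2 : 2 ≤ j) (hj : j ≤ q) :
    (bb q Q j 0 : ℝ) * ((k : ℝ) / n) ^ j ≤ (2 * q * k : ℝ) ^ q * ((Q : ℝ) / (n : ℝ) ^ 2) := by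
  have hnR : (0 : ℝ) < n := by exact_mod_cast hn
  have hQ1 : (1 : ℝ) ≤ Q := by exact_mod_cast hQ
  have hqR : (1 : ℝ) ≤ q := by
    have : 1 ≤ q := by omega
    exact_mod_cast this
  have hkR : (1 : ℝ) ≤ k := by exact_mod_cast hk
  have hc : j.choose 2 ≤ 1 + (j - 2) * (q - 1) := by
    obtain ⟨a, rfl⟩ := Nat.exists_eq_add_of_le hj2
    obtain ⟨b, rfl⟩ := Nat.exists_eq_add_of_le hj
    have e1 := WQ_two (2 + a)
    have e2 : 2 + a - 2 = a := by omega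
    have e3 : 2 + a + b - 1 = 1 + a + b := by omega
    rw [e2, e3]
    have ha : (a : ℤ) ≤ (a : ℤ) ^ 2 := by
      have : a ≤ a ^ 2 := Nat.le_self_pow two_ne_zero a
      exact_mod_cast this
    have hab : (0 : ℤ) ≤ (a : ℤ) * b := by positivity
    have key : (((2 + a).choose 2 : ℕ) : ℤ) ≤ ((1 + a * (1 + a + b) : ℕ) : ℤ) := by
      push_cast at e1 ⊢
      nlinarith
    exact_mod_cast key
  have h1 : (bb q Q j 0 : ℝ) * ((k : ℝ) / n) ^ j =
      (2 * q * k : ℝ) ^ j * ((Q : ℝ) ^ (j.choose 2) / (n : ℝ) ^ j) := by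
    unfold bb
    push_cast
    rw [Nat.sub_zero, Nat.choose_eq_zero_of_lt (show 0 < 2 by norm_num), Nat.sub_zero, div_pow,
      mul_pow]
    ring
  have h2 : (2 * q * k : ℝ) ^ j ≤ (2 * q * k : ℝ) ^ q := by
    apply pow_le_pow_right₀ _ hj
    nlinarith
  have h3 : (Q : ℝ) ^ (j.choose 2) ≤ (Q : ℝ) * (n : ℝ) ^ (j - 2) := by
    calc (Q : ℝ) ^ (j.choose 2) ≤ (Q : ℝ) ^ (1 + (j - 2) * (q - 1)) := pow_le_pow_right₀ hQ1 hc
      _ = (Q : ℝ) * ((Q : ℝ) ^ (q - 1)) ^ (j - 2) := by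
          rw [pow_add, pow_one, mul_comm (j - 2), pow_mul]
      _ ≤ (Q : ℝ) * (n : ℝ) ^ (j - 2) := by
          apply mul_le_mul_of_nonneg_left _ (by positivity)
          apply pow_le_pow_left₀ (by positivity)
          exact_mod_cast hQn
  have h4 : (Q : ℝ) ^ (j.choose 2) / (n : ℝ) ^ j ≤ (Q : ℝ) / (n : ℝ) ^ 2 := by
    rw [div_le_div_iff₀ (by positivity) (by positivity)]
    have e : (n : ℝ) ^ j = (n : ℝ) ^ (j - 2) * (n : ℝ) ^ 2 := by
      rw [← pow_add]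
      congr 1
      omega
    rw [e, ← mul_assoc]
    exact mul_le_mul_of_nonneg_right h3 (by positivity)
  rw [h1]
  exact mul_le_mul h2 h4 (by positivity) (by positivity)

end Pool.Agent.H29.NL
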