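/-
ANE : the error of an AND gate.

PROOF.  Let K be in the event.  If ∅ ∈ A then A contains all the sets of card ≤ q (Closed.up), so B ⊆ A (hB.1), A ∩ B = B and Sat (A ∩ B) (EE K): contradiction.  So ∅ ∉ A, and
∅ ∉ B in the same way.  As in NTR there are X ∈ mins A, X' ∈ mins B with X ⊆ K, X' ⊆ K (their cards are between 2 and q).  If card (X ∪ X') ≤ q then
X ∪ X' ∈ A ∩ B (Closed.up) and EE (X ∪ X') ⊆ EE K (EE_mono): contradiction.  So q < card (X ∪ X').  Put j = card X, j' = card X', W = X ∩ X', i = card W: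
card (X ∪ X') = j + j' - i > q, so i < j' (as j ≤ q) and X' ∈ fam B j' W, X ∈ fam A j ∅.  Hence the event is contained in
 ⋃_{j ∈ range (q+1), j ≥ 1} ⋃_{X ∈ fam A j ∅} ⋃_{W ∈ X.powerset} ⋃_{j' ∈ range (q+1), card W < j', q < j + j' - card W} ⋃_{X' ∈ fam B j' W, card (X ∪ X') = j + j' - card W} {X ∪ X' ⊆ K},
and by pr_exists_le, pr_KK_le, card_fam_le:
 pr ≤ Σ_j Σ_{X ∈ fam A j ∅} Σ_{W ⊆ X} Σ_{j'} bb q Q j' (card W) * (k/n)^(j + j' - card W).
Each summand times bb q Q j 0 (≥ the number of X) is ≤ (2qk)^(2q) * (Q^C(q,2)/n^q) =: E by weight_le (card W ≤ j, card W ≤ j', q + card W ≤ j + j').  So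
 pr ≤ Σ_j (card (fam A j ∅)) * 2^j * (q+1) * (E / bb q Q j 0) ≤ (q+1) * 2^q * (q+1) * E = EP n k q Q.
(The number of subsets W of X is 2^j ≤ 2^q.)
-/
import Pool.Agent.H29.NL.CNT
import Pool.Agent.H29.NL.WQ
import Pool.Agent.H29.NL.KSP

set_option autoImplicit false

namespace Pool.Agent.H29.NL

open Finset

lemma ANE_false {n k : ℕ} {p : KK n k → Prop} (h : ∀ K, ¬ p K) : pr p = 0 := by
  rw [pr_congr (q := fun _ => False) (fun K => iff_false_intro (h K))]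
  simp [pr]

lemma ANE_sum {κ : Type*} (s : Finset κ) (f : κ → ℝ) (c M : ℝ) (hc : 0 ≤ c)
    (hf : ∀ i ∈ s, f i ≤ c) (hM : (s.card : ℝ) ≤ M) : ∑ i ∈ s, f i ≤ M * c := by
  calc ∑ i ∈ s, f i ≤ ∑ _i ∈ s, c := Finset.sum_le_sum hf
    _ = s.card * c := by rw [Finset.sum_const, nsmul_eq_mul]
    _ ≤ M * c := mul_le_mul_of_nonneg_right hM hc

lemma ANE_mem {q Q R n k : ℕ} {A : Finset (Finset (Fin n))} (hA : Closed q Q R A) (h0 : ∅ ∉ A)
    {K : KK n k} (h : Sat A (EE K.1)) : ∃ X ∈ mins A, X ⊆ K.1 ∧ 1 ≤ X.card ∧ X.card ≤ q := by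
  obtain ⟨X0, hX0, hE⟩ := h
  have h2 : 2 ≤ X0.card := by
    by_contra hcon
    exact h0 (hA.empty_of_small hX0 (by omega))
  have hsub : X0 ⊆ K.1 := (EE_subset_iff h2).1 hE
  obtain ⟨X, hX, hXX⟩ := exists_mins hX0
  have hXA : X ∈ A := (Finset.mem_filter.1 hX).1
  refine ⟨X, hX, hXX.trans hsub, ?_, hA.1 X hXA⟩
  rcases X.eq_empty_or_nonempty with rfl | hne
  · exact absurd hXA h0
  · exact Finset.card_pos.2 hne

lemma ANE_notMem {q Q R n k : ℕ} {A B : Finset (Finset (Fin n))} (hA : Closed q Q R A)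
    (hB : ∀ X ∈ B, X.card ≤ q) {K : KK n k} (h : Sat B (EE K.1))
    (hn : ¬ ∃ X, X ∈ A ∧ X ∈ B ∧ EE X ⊆ EE K.1) : ∅ ∉ A := by
  intro h0
  obtain ⟨X, hX, hE⟩ := h
  exact hn ⟨X, hA.up h0 (Finset.empty_subset _) (hB X hX), hX, hE⟩

theorem and_le {n k q Q R : ℕ} (hQ : 0 < Q) (hq : 2 ≤ q) (hn : 0 < n) (hk1 : 1 ≤ k)
    (hk : k ≤ n) (hQn : Q ^ (q - 1) ≤ n) {A B : Finset (Finset (Fin n))}
    (hA : Closed q Q R A) (hB : Closed q Q R B) :
    pr (fun K : KK n k => Sat A (EE K.1) ∧ Sat B (EE K.1) ∧ ¬ Sat (A ∩ B) (EE K.1))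
      ≤ EP n k q Q := by
  classical
  have hev : ∀ K : KK n k, (Sat A (EE K.1) ∧ Sat B (EE K.1) ∧ ¬ Sat (A ∩ B) (EE K.1)) →
      ∃ j ∈ Icc 1 q, ∃ X ∈ fam A j ∅, ∃ W ∈ X.powerset, ∃ j' ∈ range (q + 1), ∃ X' ∈ fam B j' W,
        (W.card < j' ∧ q < j + j' - W.card ∧ (X ∪ X').card = j + j' - W.card) ∧
          X ∪ X' ⊆ K.1 := by
    rintro K ⟨hSA, hSB, hSn⟩
    have hno : ¬ ∃ X, X ∈ A ∧ X ∈ B ∧ EE X ⊆ EE K.1 := by
      rintro ⟨X, h1, h2, h3⟩
      exact hSn ⟨X, Finset.mem_inter.2 ⟨h1, h2⟩, h3⟩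
    have hno' : ¬ ∃ X, X ∈ B ∧ X ∈ A ∧ EE X ⊆ EE K.1 := by
      rintro ⟨X, h1, h2, h3⟩
      exact hno ⟨X, h2, h1, h3⟩
    have h0A : ∅ ∉ A := ANE_notMem hA hB.1 hSB hno
    have h0B : ∅ ∉ B := ANE_notMem hB hA.1 hSA hno'
    obtain ⟨X, hX, hXK, hX1, hXq⟩ := ANE_mem hA h0A hSA
    obtain ⟨X', hX', hXK', hX1', hXq'⟩ := ANE_mem hB h0B hSB
    have hXA : X ∈ A := (Finset.mem_filter.1 hX).1
    have hXB : X' ∈ B := (Finset.mem_filter.1 hX').1
    have hcard : q < (X ∪ X').card := by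
      by_contra hcon
      have hle := not_lt.1 hcon
      exact hno ⟨X ∪ X', hA.up hXA Finset.subset_union_left hle,
        hB.up hXB Finset.subset_union_right hle, EE_mono (Finset.union_subset hXK hXK')⟩
    have hcu : (X ∪ X').card = X.card + X'.card - (X ∩ X').card := Finset.card_union X X'
    have hi1 : (X ∩ X').card ≤ X.card := Finset.card_le_card Finset.inter_subset_left
    have hi2 : (X ∩ X').card ≤ X'.card := Finset.card_le_card Finset.inter_subset_right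
    refine ⟨X.card, Finset.mem_Icc.2 ⟨hX1, hXq⟩, X, ?_, X ∩ X',
      Finset.mem_powerset.2 Finset.inter_subset_left, X'.card,
      Finset.mem_range.2 (Nat.lt_succ_of_le hXq'), X', ?_, ⟨?_, ?_, hcu⟩,
      Finset.union_subset hXK hXK'⟩
    · exact Finset.mem_filter.2 ⟨hX, rfl, Finset.empty_subset _⟩
    · exact Finset.mem_filter.2 ⟨hX', rfl, Finset.inter_subset_right⟩
    · omega
    · omega
  refine (pr_mono hev).trans ?_
  refine (pr_exists_le _ _).trans ?_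
  have hE0 : 0 ≤ (2 * q * k : ℝ) ^ (2 * q) * ((Q : ℝ) ^ (q.choose 2) / (n : ℝ) ^ q) := by
    positivity
  set E0 : ℝ := (2 * q * k : ℝ) ^ (2 * q) * ((Q : ℝ) ^ (q.choose 2) / (n : ℝ) ^ q) with hE0d
  have hfin : EP n k q Q = ((q : ℝ) + 1) * (2 ^ q * (((q : ℝ) + 1) * E0)) := by
    unfold EP
    rw [hE0d]
    ring
  rw [hfin]
  refine ANE_sum _ _ _ _ (by positivity) ?_ ?_
  swap
  · rw [Nat.card_Icc]
    push_cast [Nat.add_sub_cancel]
    linarith
  intro j hj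
  obtain ⟨hj1, hjq⟩ := Finset.mem_Icc.1 hj
  have hbb : 0 < bb q Q j 0 := by
    unfold bb
    have : 0 < 2 * q := by omega
    positivity
  have hbb' : (0 : ℝ) < (bb q Q j 0 : ℝ) := by exact_mod_cast hbb
  have hsplit : 2 ^ q * (((q : ℝ) + 1) * E0) =
      (bb q Q j 0 : ℝ) * (2 ^ q * (((q : ℝ) + 1) * (E0 / (bb q Q j 0 : ℝ)))) := by
    field_simp
  rw [hsplit]
  refine (pr_exists_le _ _).trans (ANE_sum _ _ _ _ (by positivity) ?_ ?_)
  swap
  · have h1 := card_fam_le (j := j) hQ (by omega : 1 ≤ q) hjq hA ∅ (by rw [Finset.card_empty]; exact hj1)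
    rw [Finset.card_empty] at h1
    exact_mod_cast h1
  intro X hX
  have hXc : X.card = j := (Finset.mem_filter.1 hX).2.1
  refine (pr_exists_le _ _).trans (ANE_sum _ _ _ _ (by positivity) ?_ ?_)
  swap
  · rw [Finset.card_powerset, hXc]
    push_cast
    exact pow_le_pow_right₀ (by norm_num) hjq
  intro W hW
  have hWj : W.card ≤ j := hXc ▸ Finset.card_le_card (Finset.mem_powerset.1 hW)
  refine (pr_exists_le _ _).trans (ANE_sum _ _ _ _ (by positivity) ?_ ?_)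
  swap
  · rw [Finset.card_range]
    push_cast
    exact le_rfl
  intro j' hj'
  have hj'q : j' ≤ q := Nat.lt_succ_iff.1 (Finset.mem_range.1 hj')
  by_cases hc : W.card < j' ∧ q < j + j' - W.card
  · have hkey := weight_le (n := n) (k := k) (q := q) (Q := Q) (i := W.card) (j := j) (j' := j')
      hQ hn hk1 (by omega) hQn hWj hc.1.le hjq hj'q (by omega)
    have hb2 : (bb q Q j' W.card : ℝ) * ((k : ℝ) / n) ^ (j + j' - W.card) ≤
        E0 / (bb q Q j 0 : ℝ) := by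
      rw [le_div_iff₀ hbb']
      calc (bb q Q j' W.card : ℝ) * ((k : ℝ) / n) ^ (j + j' - W.card) * (bb q Q j 0 : ℝ)
          = (bb q Q j 0 : ℝ) * (bb q Q j' W.card : ℝ) * ((k : ℝ) / n) ^ (j + j' - W.card) := by
            ring
        _ ≤ E0 := hkey
    refine le_trans ?_ hb2
    refine (pr_exists_le _ _).trans (ANE_sum _ _ _ _ (by positivity) ?_ ?_)
    swap
    · have h1 := card_fam_le (j := j') hQ (by omega : 1 ≤ q) hj'q hB W hc.1
      exact_mod_cast h1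
    intro X' hX'
    by_cases hcard : (X ∪ X').card = j + j' - W.card
    · rw [← hcard]
      exact (pr_mono fun K h => h.2).trans (pr_KK_le hk hn _)
    · rw [ANE_false (fun K h => hcard h.1.2.2)]
      positivity
  · rw [ANE_false]
    · positivity
    · rintro K ⟨X', -, h, -⟩
      exact hc ⟨h.1, h.2.1⟩

end Pool.Agent.H29.NL
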