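/-
APA : the approximators.

PROOF.  Construct A i by strong recursion on i.  One way: prove by induction on m ≤ s that there is A : Fin s → _ with the three properties for all i with (i : ℕ) < m
(for the step change A at i = m only, Function.update; the properties at i < m only use the values at indices ≤ i by (κ i).Ok i - so they are
unchanged; for m = s done).  At stage i:
* const c: if c take the full family {X | card X ≤ q} (closed_full; it contains ∅, so Sat holds everywhere; both error events are empty: in the first one st = c is true);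
  if ¬ c take the closure of ∅ given by exists_closure ∅ (Sat ∅ x is false; error ≤ EM; second event: st = c false, empty).
* inp e (card e = 2): closure of {e} (card e ≤ q): Sat {e} x ↔ EE e ⊆ x ↔ e ∈ x (EE e = {e} as card e = 2: EE_pair via Finset.card_eq_two).
  First event ≤ EM by exists_closure; second event empty (Sat {e} → Sat of the closure: Sat.mono_fam).
* and a b: A a ∩ A b (Closed.inter).  First event: Sat (A a ∩ A b) x → Sat (A a) x ∧ Sat (A b) x, so it is empty, 0 ≤ EM.  Second event ≤ EP by and_le.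
* or S: closure of ⋃_{a ∈ S} A a (S.biUnion A; the members have card ≤ q by (A a) closed).  Sat (biUnion) x ↔ ∃ a ∈ S, Sat (A a) x.  First event ≤ EM, second empty.
EM, EP ≥ 0 (positivity after unfolding); pr of an everywhere false predicate is 0.
-/
import Pool.Agent.H29.NL.ANE

set_option autoImplicit false

namespace Pool.Agent.H29.NL

open Finset

lemma APA_pr_false {Ω : Type*} [Fintype Ω] {p : Ω → Prop} (h : ∀ ω, ¬ p ω) : pr p = 0 := by
  classical
  unfold pr
  have : (univ.filter p) = ∅ := Finset.filter_false_of_mem fun ω _ => h ω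
  rw [this]
  simp

lemma APA_EM_nonneg (n q R : ℕ) : 0 ≤ EM n q R := by
  unfold EM; positivity

lemma APA_EP_nonneg (n k q Q : ℕ) : 0 ≤ EP n k q Q := by
  unfold EP; positivity

lemma APA_st_congr {n s : ℕ} {κ : MK n s} {i : Fin s} (hok : κ.Ok i) {v w : Fin s → Prop}
    (h : ∀ a, a < i → (v a ↔ w a)) (x : Finset (Finset (Fin n))) : κ.st v x ↔ κ.st w x := by
  cases κ with
  | const c => exact Iff.rfl
  | inp e => exact Iff.rfl
  | and a b => exact and_congr (h a hok.1) (h b hok.2)
  | or S => exact exists_congr fun a => and_congr_right fun ha => h a (hok a ha)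

/-- The property of the approximator `B` of a gate `κ`, given those of the earlier gates. -/
def APA_P {n s : ℕ} (k q Q R : ℕ) (κ : MK n s) (A : Fin s → Finset (Finset (Fin n)))
    (B : Finset (Finset (Fin n))) : Prop :=
  Closed q Q R B ∧
    pr (fun ω : Rnd n Q R => Sat B (dset ω) ∧
      ¬ κ.st (fun a => Sat (A a) (dset ω)) (dset ω)) ≤ EM n q R ∧
    pr (fun K : KK n k => κ.st (fun a => Sat (A a) (EE K.1)) (EE K.1) ∧
      ¬ Sat B (EE K.1)) ≤ EP n k q Q

lemma APA_P_congr {n s k q Q R : ℕ} {κ : MK n s} {i : Fin s} (hok : κ.Ok i)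
    {A A' : Fin s → Finset (Finset (Fin n))} (h : ∀ a, a < i → A a = A' a)
    {B : Finset (Finset (Fin n))} (hP : APA_P k q Q R κ A B) : APA_P k q Q R κ A' B := by
  have hst : ∀ x, κ.st (fun a => Sat (A a) x) x ↔ κ.st (fun a => Sat (A' a) x) x := fun x =>
    APA_st_congr hok (fun a ha => by rw [h a ha]) x
  refine ⟨hP.1, ?_, ?_⟩
  · refine le_trans (le_of_eq (pr_congr fun ω => ?_)) hP.2.1
    rw [hst]
  · refine le_trans (le_of_eq (pr_congr fun K => ?_)) hP.2.2
    rw [hst]

/-- The closure step. -/
lemma APA_closure {n s k q Q R : ℕ} {κ : MK n s} {A : Fin s → Finset (Finset (Fin n))}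
    (C : Finset (Finset (Fin n))) (hC : ∀ X ∈ C, X.card ≤ q)
    (h : ∀ x, κ.st (fun a => Sat (A a) x) x ↔ Sat C x) :
    ∃ B, APA_P k q Q R κ A B := by
  obtain ⟨B, hCB, hB, hpr⟩ := exists_closure (Q := Q) (R := R) C hC
  refine ⟨B, hB, ?_, ?_⟩
  · refine le_trans (le_of_eq (pr_congr fun ω => ?_)) hpr
    rw [h]
  · refine le_trans (le_of_eq (APA_pr_false ?_)) (APA_EP_nonneg n k q Q)
    rintro K ⟨h1, h2⟩
    exact h2 (Sat.mono_fam hCB ((h _).1 h1))

lemma APA_step {n s k q Q R : ℕ} (hQ : 0 < Q) (hq : 2 ≤ q) (hn : 0 < n) (hk1 : 1 ≤ k)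
    (hk : k ≤ n) (hQn : Q ^ (q - 1) ≤ n) (κ : MK n s) (i : Fin s) (hok : κ.Ok i)
    (A : Fin s → Finset (Finset (Fin n))) (hA : ∀ a, a < i → Closed q Q R (A a)) :
    ∃ B, APA_P k q Q R κ A B := by
  classical
  cases κ with
  | const c =>
    by_cases hc : c
    · refine ⟨univ.filter fun X : Finset (Fin n) => X.card ≤ q, closed_full, ?_, ?_⟩
      · refine le_trans (le_of_eq (APA_pr_false ?_)) (APA_EM_nonneg n q R)
        rintro ω ⟨_, h2⟩
        exact h2 hc
      · refine le_trans (le_of_eq (APA_pr_false ?_)) (APA_EP_nonneg n k q Q)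
        rintro K ⟨_, h2⟩
        apply h2
        refine ⟨∅, ?_, ?_⟩
        · simp
        · rw [EE_small (by simp)]
          exact Finset.empty_subset _
    · refine APA_closure ∅ (by simp) ?_
      intro x
      constructor
      · intro h
        exact absurd h hc
      · rintro ⟨X, hX, _⟩
        simp at hX
  | inp e =>
    have he : e.card = 2 := hok
    obtain ⟨u, v, huv, rfl⟩ := Finset.card_eq_two.1 he
    refine APA_closure {{u, v}} ?_ ?_
    · intro X hX
      rw [Finset.mem_singleton] at hX
      rw [hX, he]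
      exact hq
    · intro x
      constructor
      · intro h
        refine ⟨{u, v}, Finset.mem_singleton_self _, ?_⟩
        rw [EE_pair huv]
        intro y hy
        rw [Finset.mem_singleton] at hy
        rw [hy]
        exact h
      · rintro ⟨X, hX, hXx⟩
        rw [Finset.mem_singleton] at hX
        rw [hX, EE_pair huv] at hXx
        exact hXx (Finset.mem_singleton_self _)
  | and a b =>
    have ha := hA a hok.1
    have hb := hA b hok.2
    refine ⟨A a ∩ A b, ha.inter hb, ?_, ?_⟩
    · refine le_trans (le_of_eq (APA_pr_false ?_)) (APA_EM_nonneg n q R)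
      rintro ω ⟨h1, h2⟩
      exact h2 ⟨Sat.mono_fam Finset.inter_subset_left h1,
        Sat.mono_fam Finset.inter_subset_right h1⟩
    · refine le_trans (pr_mono ?_) (and_le hQ hq hn hk1 hk hQn ha hb)
      rintro K ⟨h1, h2⟩
      exact ⟨h1.1, h1.2, h2⟩
  | or S =>
    refine APA_closure (S.biUnion A) ?_ ?_
    · intro X hX
      rw [Finset.mem_biUnion] at hX
      obtain ⟨a, ha, hXa⟩ := hX
      exact (hA a (hok a ha)).1 X hXa
    · intro x
      constructor
      · rintro ⟨a, ha, X, hX, hXx⟩
        exact ⟨X, Finset.mem_biUnion.2 ⟨a, ha, hX⟩, hXx⟩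
      · rintro ⟨X, hX, hXx⟩
        rw [Finset.mem_biUnion] at hX
        obtain ⟨a, ha, hXa⟩ := hX
        exact ⟨a, ha, X, hXa, hXx⟩

theorem approx_exists {n s k q Q R : ℕ} (hQ : 0 < Q) (hq : 2 ≤ q) (hn : 0 < n) (hk1 : 1 ≤ k)
    (hk : k ≤ n) (hQn : Q ^ (q - 1) ≤ n) (κ : Fin s → MK n s) (hκ : ∀ i, (κ i).Ok i) :
    ∃ A : Fin s → Finset (Finset (Fin n)), (∀ i, Closed q Q R (A i)) ∧
      (∀ i, pr (fun ω : Rnd n Q R => Sat (A i) (dset ω) ∧
        ¬ (κ i).st (fun a => Sat (A a) (dset ω)) (dset ω)) ≤ EM n q R) ∧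
      ∀ i, pr (fun K : KK n k => (κ i).st (fun a => Sat (A a) (EE K.1)) (EE K.1) ∧
        ¬ Sat (A i) (EE K.1)) ≤ EP n k q Q := by
  classical
  have key : ∀ m : ℕ, ∃ A : Fin s → Finset (Finset (Fin n)),
      ∀ i : Fin s, (i : ℕ) < m → APA_P k q Q R (κ i) A (A i) := by
    intro m
    induction m with
    | zero => exact ⟨fun _ => ∅, fun i hi => absurd hi (Nat.not_lt_zero _)⟩
    | succ m ih =>
      obtain ⟨A, hA⟩ := ih
      by_cases hm : m < s
      · set i0 : Fin s := ⟨m, hm⟩ with hi0
        obtain ⟨B, hB⟩ := APA_step (R := R) hQ hq hn hk1 hk hQn (κ i0) i0 (hκ i0) A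
          (fun a ha => (hA a ha).1)
        have hne : ∀ a : Fin s, a < i0 → A a = Function.update A i0 B a := by
          intro a ha
          rw [Function.update_of_ne (ne_of_lt ha)]
        refine ⟨Function.update A i0 B, ?_⟩
        intro i hi
        by_cases hii : i = i0
        · rw [hii, Function.update_self]
          exact APA_P_congr (hκ i0) hne hB
        · have hlt : i < i0 := by
            refine lt_of_le_of_ne ?_ hii
            rw [Fin.le_def]
            exact Nat.lt_succ_iff.1 hi
          rw [← hne i hlt]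
          exact APA_P_congr (hκ i) (fun a ha => hne a (lt_trans ha hlt)) (hA i hlt)
      · refine ⟨A, fun i _ => hA i ?_⟩
        have := i.2
        omega
  obtain ⟨A, hA⟩ := key s
  exact ⟨A, fun i => (hA i i.2).1, fun i => (hA i i.2).2.1, fun i => (hA i i.2).2.2⟩

end Pool.Agent.H29.NL
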