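/-
NTR : a nontrivial closed family rejects most cliques.

PROOF.  If Sat A (EE K) then there is X₀ ∈ A with EE X₀ ⊆ EE K; card X₀ ≥ 2 (otherwise ∅ ∈ A by Closed.empty_of_small), so X₀ ⊆ K (EE_subset_iff); take
X ∈ mins A, X ⊆ X₀ (exists_mins): X ∈ A, again 2 ≤ card X ≤ q, X ⊆ K.  So the event is contained in
⋃_{j ∈ Icc 2 q} ⋃_{X ∈ fam A j ∅} {X ⊆ K}.  Union bounds (pr_exists_le), pr_KK_le, card_fam_le (card ∅ = 0 < j; bb q Q j 0):
Σ_{j ∈ Icc 2 q} bb q Q j 0 * (k/n)^j ≤ (number of j, ≤ q + 1) * (2qk)^q * (Q/n^2) by small_weight.  This is EZ n k q Q.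
-/
import Pool.Agent.H29.NL.CNT
import Pool.Agent.H29.NL.WQ
import Pool.Agent.H29.NL.KSP

set_option autoImplicit false

namespace Pool.Agent.H29.NL

open Finset

theorem nontrivial_le {n k q Q R : ℕ} (hQ : 0 < Q) (hq : 2 ≤ q) (hn : 0 < n) (hk1 : 1 ≤ k)
    (hk : k ≤ n) (hQn : Q ^ (q - 1) ≤ n) {A : Finset (Finset (Fin n))} (hA : Closed q Q R A)
    (h0 : ∅ ∉ A) : pr (fun K : KK n k => Sat A (EE K.1)) ≤ EZ n k q Q := by
  have hbig : ∀ X ∈ A, 2 ≤ X.card := by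
    intro X hX
    by_contra hc
    exact h0 (hA.empty_of_small hX (by omega))
  set C : ℝ := (2 * q * k : ℝ) ^ q * ((Q : ℝ) / (n : ℝ) ^ 2) with hC
  have hC0 : 0 ≤ C := by rw [hC]; positivity
  have h1 : pr (fun K : KK n k => Sat A (EE K.1)) ≤
      pr (fun K : KK n k => ∃ t ∈ (Icc 2 q).sigma (fun j => fam A j ∅), t.2 ⊆ K.1) := by
    refine pr_mono ?_
    rintro K ⟨X₀, hX₀, hX₀K⟩
    obtain ⟨X, hX, hXX₀⟩ := exists_mins hX₀
    have hXA : X ∈ A := (Finset.mem_filter.1 hX).1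
    refine ⟨⟨X.card, X⟩, ?_, ?_⟩
    · rw [Finset.mem_sigma]
      refine ⟨Finset.mem_Icc.2 ⟨hbig X hXA, hA.1 X hXA⟩, ?_⟩
      exact Finset.mem_filter.2 ⟨hX, rfl, Finset.empty_subset _⟩
    · exact hXX₀.trans ((EE_subset_iff (hbig X₀ hX₀)).1 hX₀K)
  refine h1.trans ((pr_exists_le _ _).trans ?_)
  rw [Finset.sum_sigma]
  have h2 : ∀ j ∈ Icc 2 q, ∑ X ∈ fam A j ∅, pr (fun K : KK n k => X ⊆ K.1) ≤ C := by
    intro j hj
    rw [Finset.mem_Icc] at hj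
    have h3 : ∀ X ∈ fam A j ∅, pr (fun K : KK n k => X ⊆ K.1) ≤ ((k : ℝ) / n) ^ j := by
      intro X hX
      have h4 := pr_KK_le hk hn X
      rw [(Finset.mem_filter.1 hX).2.1] at h4
      exact h4
    refine (Finset.sum_le_sum h3).trans ?_
    rw [Finset.sum_const, nsmul_eq_mul]
    have h5 := card_fam_le hQ (by omega : 1 ≤ q) hj.2 hA ∅ (by rw [Finset.card_empty]; omega)
    rw [Finset.card_empty] at h5
    have h6 : ((fam A j ∅).card : ℝ) ≤ (bb q Q j 0 : ℝ) := by exact_mod_cast h5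
    refine (mul_le_mul_of_nonneg_right h6 (by positivity)).trans ?_
    exact small_weight hQ hn hk1 hQn hj.1 hj.2
  refine (Finset.sum_le_sum h2).trans ?_
  rw [Finset.sum_const, Nat.card_Icc, nsmul_eq_mul]
  have h7 : ((q + 1 - 2 : ℕ) : ℝ) ≤ (q : ℝ) + 1 := by
    have : q + 1 - 2 ≤ q + 1 := Nat.sub_le _ _
    exact_mod_cast this
  calc ((q + 1 - 2 : ℕ) : ℝ) * C ≤ ((q : ℝ) + 1) * C := mul_le_mul_of_nonneg_right h7 hC0
    _ = EZ n k q Q := by rw [hC]; unfold EZ; ring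

end Pool.Agent.H29.NL
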