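/-
APB : a monotone circuit does not separate the random edge set from the random clique.

PROOF.  Take A from approx_exists.  (κ i).st v x is monotone in v (if v a → w a for all a then st v x → st w x; cases on κ i), and only depends on v a for a < i (Ok).
(1) If ω is outside all the first error events, then for all i: Sat (A i) (dset ω) → h i (dset ω), by strong induction on i:
 Sat (A i) → st (fun a => Sat (A a) ..) (no error) → st (fun a => h a ..) (induction, the gates used are < i: Ok) → h i.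
 So pr (Sat (A i) (dset ω) ∧ ¬ h i (dset ω)) ≤ pr (∃ a, error a) ≤ s * EM (pr_exists_le over univ, Finset.card_univ).
(2) In the same way pr (h i (EE K) ∧ ¬ Sat (A i) (EE K)) ≤ s * EP.
(3) If ∅ ∈ A i: Sat (A i) x for all x (EE ∅ = ∅: EE_small), so pr (¬ h i (dset ω)) ≤ s * EM, and the event of the theorem implies ¬ h i (dset z.1): pr_fst_le.
 If ∅ ∉ A i: h i (EE K) implies (h i (EE K) ∧ ¬ Sat) or Sat (A i) (EE K): probability ≤ s * EP + EZ (nontrivial_le), pr_snd_le.
All of EM, EP, EZ are ≥ 0.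
-/
import Pool.Agent.H29.NL.APA
import Pool.Agent.H29.NL.NTR

set_option autoImplicit false

namespace Pool.Agent.H29.NL

open Finset

lemma APB_st_mono {n s : ℕ} {κ : MK n s} {i : Fin s} (hok : κ.Ok i) {v w : Fin s → Prop}
    (h : ∀ a, a < i → v a → w a) (x : Finset (Finset (Fin n))) : κ.st v x → κ.st w x := by
  cases κ with
  | const c => exact id
  | inp e => exact id
  | and a b => exact fun hx => ⟨h a hok.1 hx.1, h b hok.2 hx.2⟩
  | or S =>
    rintro ⟨a, ha, hx⟩
    exact ⟨a, ha, h a (hok a ha) hx⟩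

lemma APB_one {n s : ℕ} (κ : Fin s → MK n s) (hκ : ∀ i, (κ i).Ok i)
    (h : Fin s → Finset (Finset (Fin n)) → Prop)
    (hh : ∀ i x, h i x ↔ (κ i).st (fun a => h a x) x) (A : Fin s → Finset (Finset (Fin n)))
    (x : Finset (Finset (Fin n)))
    (he : ∀ a, ¬ (Sat (A a) x ∧ ¬ (κ a).st (fun b => Sat (A b) x) x)) :
    ∀ m : ℕ, ∀ i : Fin s, (i : ℕ) < m → Sat (A i) x → h i x := by
  intro m
  induction m with
  | zero => exact fun i hi => absurd hi (Nat.not_lt_zero _)
  | succ m ih =>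
    intro i hi hs
    rw [hh]
    have h1 : (κ i).st (fun b => Sat (A b) x) x := by
      by_contra hc
      exact he i ⟨hs, hc⟩
    refine APB_st_mono (hκ i) (fun a ha => ih a ?_) x h1
    have := Fin.lt_def.1 ha
    omega

lemma APB_two {n s : ℕ} (κ : Fin s → MK n s) (hκ : ∀ i, (κ i).Ok i)
    (h : Fin s → Finset (Finset (Fin n)) → Prop)
    (hh : ∀ i x, h i x ↔ (κ i).st (fun a => h a x) x) (A : Fin s → Finset (Finset (Fin n)))
    (x : Finset (Finset (Fin n)))
    (he : ∀ a, ¬ ((κ a).st (fun b => Sat (A b) x) x ∧ ¬ Sat (A a) x)) :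
    ∀ m : ℕ, ∀ i : Fin s, (i : ℕ) < m → h i x → Sat (A i) x := by
  intro m
  induction m with
  | zero => exact fun i hi => absurd hi (Nat.not_lt_zero _)
  | succ m ih =>
    intro i hi hs
    rw [hh] at hs
    have h1 : (κ i).st (fun b => Sat (A b) x) x := by
      refine APB_st_mono (hκ i) (fun a ha => ih a ?_) x hs
      have := Fin.lt_def.1 ha
      omega
    by_contra hc
    exact he i ⟨h1, hc⟩

theorem approx_bound {n s k q Q R : ℕ} (hQ : 0 < Q) (hq : 2 ≤ q) (hn : 0 < n) (hk1 : 1 ≤ k)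
    (hk : k ≤ n) (hQn : Q ^ (q - 1) ≤ n) (κ : Fin s → MK n s) (hκ : ∀ i, (κ i).Ok i)
    (h : Fin s → Finset (Finset (Fin n)) → Prop)
    (hh : ∀ i x, h i x ↔ (κ i).st (fun a => h a x) x) (i : Fin s) :
    pr (fun z : Rnd n Q R × KK n k => ¬ h i (dset z.1) ∧ h i (EE z.2.1))
      ≤ s * EM n q R + s * EP n k q Q + EZ n k q Q := by
  obtain ⟨A, hA, hM, hP⟩ := approx_exists (R := R) hQ hq hn hk1 hk hQn κ hκ
  have hEM : 0 ≤ (s : ℝ) * EM n q R := mul_nonneg (Nat.cast_nonneg _) (APA_EM_nonneg n q R)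
  have hEP : 0 ≤ (s : ℝ) * EP n k q Q := mul_nonneg (Nat.cast_nonneg _) (APA_EP_nonneg n k q Q)
  have hEZ : 0 ≤ EZ n k q Q := by unfold EZ; positivity
  have b1 : pr (fun ω : Rnd n Q R => Sat (A i) (dset ω) ∧ ¬ h i (dset ω)) ≤ s * EM n q R := by
    refine le_trans (pr_mono (q := fun ω => ∃ a ∈ (univ : Finset (Fin s)), Sat (A a) (dset ω) ∧
      ¬ (κ a).st (fun b => Sat (A b) (dset ω)) (dset ω)) ?_) ?_
    · rintro ω ⟨h1, h2⟩
      by_contra hc
      push Not at hc
      exact h2 (APB_one κ hκ h hh A (dset ω)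
        (fun a ha => ha.2 (hc a (mem_univ a) ha.1)) s i i.2 h1)
    · refine le_trans (pr_exists_le _ _) ?_
      refine le_trans (Finset.sum_le_sum fun a _ => hM a) ?_
      rw [Finset.sum_const, Finset.card_univ, Fintype.card_fin, nsmul_eq_mul]
  have b2 : pr (fun K : KK n k => h i (EE K.1) ∧ ¬ Sat (A i) (EE K.1)) ≤ s * EP n k q Q := by
    refine le_trans (pr_mono (q := fun K => ∃ a ∈ (univ : Finset (Fin s)),
      (κ a).st (fun b => Sat (A b) (EE K.1)) (EE K.1) ∧ ¬ Sat (A a) (EE K.1)) ?_) ?_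
    · rintro K ⟨h1, h2⟩
      by_contra hc
      push Not at hc
      exact h2 (APB_two κ hκ h hh A (EE K.1)
        (fun a ha => ha.2 (hc a (mem_univ a) ha.1)) s i i.2 h1)
    · refine le_trans (pr_exists_le _ _) ?_
      refine le_trans (Finset.sum_le_sum fun a _ => hP a) ?_
      rw [Finset.sum_const, Finset.card_univ, Fintype.card_fin, nsmul_eq_mul]
  by_cases h0 : ∅ ∈ A i
  · have hsat : ∀ x, Sat (A i) x := by
      intro x
      refine ⟨∅, h0, ?_⟩
      rw [EE_small (by simp)]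
      exact Finset.empty_subset _
    have b3 := pr_fst_le (fun ω : Rnd n Q R => Sat (A i) (dset ω) ∧ ¬ h i (dset ω))
      (fun z : Rnd n Q R × KK n k => ¬ h i (dset z.1) ∧ h i (EE z.2.1))
      (fun z hz => ⟨hsat _, hz.1⟩)
    linarith
  · have b3 := pr_snd_le (fun K : KK n k => (h i (EE K.1) ∧ ¬ Sat (A i) (EE K.1)) ∨
        Sat (A i) (EE K.1))
      (fun z : Rnd n Q R × KK n k => ¬ h i (dset z.1) ∧ h i (EE z.2.1))
      (fun z hz => by
        by_cases hs : Sat (A i) (EE z.2.1)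
        · exact Or.inr hs
        · exact Or.inl ⟨hz.2, hs⟩)
    have b4 := pr_or_le (fun K : KK n k => h i (EE K.1) ∧ ¬ Sat (A i) (EE K.1))
      (fun K : KK n k => Sat (A i) (EE K.1))
    have b5 := nontrivial_le (R := R) hQ hq hn hk1 hk hQn (hA i) h0
    linarith

end Pool.Agent.H29.NL
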