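/-
ASA : facts for large n.

PROOF.  Each of the conditions holds for all large n (Filter.eventually_atTop, combine with Filter.Eventually.and / filter_upwards over ℕ, (n : ℝ) → ∞ by
tendsto_natCast_atTop_atTop):
 n^θ → ∞ (tendsto_rpow_atTop), c logb 2 n + 1 ≤ n^θ because log n = o(n^θ) (isLittleO_log_rpow_atTop), ⌈y⌉₊ < y + 1 (Nat.ceil_lt_add_one), 1 ≤ ⌈c logb 2 n⌉₊ because
 c logb 2 n > 0 for n ≥ 2, n^(-3/4) → 0, n^(-θ) → 0, n^(2θ-3) → 0 (tendsto_rpow_neg_atTop; 2θ - 3 < 0).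
-/
import Pool.Agent.H29.NL.Bas

set_option autoImplicit false

namespace Pool.Agent.H29.NL

open Finset

private lemma ASA_log (a : ℝ) (c θ : ℝ) (hθ : 0 < θ) :
    ∀ᶠ n : ℕ in Filter.atTop, c * Real.logb 2 n + a ≤ (n : ℝ) ^ θ := by
  have h1 : (fun x : ℝ => c * Real.logb 2 x + a) =o[Filter.atTop] fun x => x ^ θ := by
    have h2 : Real.log =o[Filter.atTop] fun x : ℝ => x ^ θ := isLittleO_log_rpow_atTop hθ
    have h3 : (fun x : ℝ => c * Real.logb 2 x) =o[Filter.atTop] fun x : ℝ => x ^ θ := by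
      have := h2.const_mul_left (c / Real.log 2)
      refine this.congr_left ?_
      intro x
      rw [Real.logb]
      ring
    have h4 : (fun _ : ℝ => a) =o[Filter.atTop] fun x : ℝ => x ^ θ := by
      rw [Asymptotics.isLittleO_const_left]
      right
      exact tendsto_norm_atTop_atTop.comp (tendsto_rpow_atTop hθ)
    exact h3.add h4
  have h5 := h1.bound (c := 1) one_pos
  have h6 : ∀ᶠ x : ℝ in Filter.atTop, c * Real.logb 2 x + a ≤ x ^ θ := by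
    filter_upwards [h5, Filter.eventually_ge_atTop (0 : ℝ)] with x hx hx0
    have h7 := Real.rpow_nonneg hx0 θ
    rw [one_mul, Real.norm_eq_abs, Real.norm_eq_abs, abs_of_nonneg h7] at hx
    exact (le_abs_self _).trans hx
  exact tendsto_natCast_atTop_atTop.eventually h6

private lemma ASA_neg (A ε θ : ℝ) (hε : 0 < ε) (hθ : 0 < θ) :
    ∀ᶠ n : ℕ in Filter.atTop, A * (n : ℝ) ^ (-θ) ≤ ε := by
  have h1 : Filter.Tendsto (fun x : ℝ => A * x ^ (-θ)) Filter.atTop (nhds (A * 0)) :=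
    (tendsto_rpow_neg_atTop hθ).const_mul A
  rw [mul_zero] at h1
  have h2 : ∀ᶠ x : ℝ in Filter.atTop, A * x ^ (-θ) < ε := h1.eventually_lt_const hε
  filter_upwards [tendsto_natCast_atTop_atTop.eventually h2] with n hn
  exact hn.le

theorem large_n (θ c μ A B : ℝ) (q k : ℕ) (hθ : 0 < θ) (hθ1 : θ ≤ 1) (hc : 0 < c) (hμ : 0 ≤ μ) :
    ∃ n₀ : ℕ, ∀ n : ℕ, n₀ ≤ n → 2 ≤ n ∧ k ≤ n ∧ (2 : ℝ) ≤ (n : ℝ) ^ θ ∧
      1 ≤ ⌈c * Real.logb 2 n⌉₊ ∧ (⌈c * Real.logb 2 n⌉₊ : ℝ) ≤ (n : ℝ) ^ θ ∧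
      μ * Real.logb 2 n + 1 ≤ (n : ℝ) ^ θ ∧
      A * (n : ℝ) ^ (-(3 / 4) : ℝ) ≤ 1 / 8 ∧ B * (n : ℝ) ^ (-θ) ≤ 1 / 8 ∧
      (2 : ℝ) ^ q * (n : ℝ) ^ (2 * θ - 3) ≤ 1 / 8 := by
  have e1 := ASA_log 1 c θ hθ
  have e2 := ASA_log 1 μ θ hθ
  have e3 := ASA_log 2 0 θ hθ
  have e4 := ASA_neg A (1 / 8) (3 / 4) (by norm_num) (by norm_num)
  have e5 := ASA_neg B (1 / 8) θ (by norm_num) hθ
  have e6 := ASA_neg ((2 : ℝ) ^ q) (1 / 8) (3 - 2 * θ) (by norm_num) (by linarith)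
  have e7 : ∀ᶠ n : ℕ in Filter.atTop, 2 ≤ n := Filter.eventually_ge_atTop 2
  have e8 : ∀ᶠ n : ℕ in Filter.atTop, k ≤ n := Filter.eventually_ge_atTop k
  have e := e1.and (e2.and (e3.and (e4.and (e5.and (e6.and (e7.and e8))))))
  obtain ⟨n₀, hn₀⟩ := Filter.eventually_atTop.1 e
  refine ⟨n₀, fun n hn => ?_⟩
  obtain ⟨h1, h2, h3, h4, h5, h6, h7, h8⟩ := hn₀ n hn
  have hlog : 0 < Real.logb 2 n := by
    apply Real.logb_pos (by norm_num)
    have : (2 : ℝ) ≤ n := by exact_mod_cast h7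
    linarith
  have hcl : 0 < c * Real.logb 2 n := mul_pos hc hlog
  refine ⟨h7, h8, by linarith, ?_, ?_, h2, h4, h5, ?_⟩
  · exact Nat.ceil_pos.2 hcl
  · exact (Nat.ceil_lt_add_one hcl.le).le.trans h1
  · have : (2 * θ - 3 : ℝ) = -(3 - 2 * θ) := by ring
    rw [this]
    exact h6

end Pool.Agent.H29.NL
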