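/-
ASB : choice of the parameters q and θ.

PROOF.  x := 1/(4a) > 1/2 + 2μ.  So a < 1/2 (as 1/(4a) > 1/2), 1/(2a) > 1.  From μ ≤ 2a: 1/(4a) ≤ 1/(2μ) if μ > 0, so 2μ + 1/2 < 1/(2μ), 4μ² + μ < 1, hence μ < 1/2 (for
μ ≥ 1/2 the left side is ≥ 3/2).  q := ⌈1/(2a)⌉₊: q ≥ 2, 1/(2a) ≤ q < 1/(2a) + 1, so 2a(q-1) < 1; with u := q - 1/(2a) ∈ [0, 1):
 q - a q (q-1) = 1/(4a) + 1/2 + a u (1-u) ≥ 1/(4a) + 1/2.
θ := min of 1, (1 - 2a(q-1))/(3 q), 1/(4 (2 + 3 q²/2)), (2 - 2μ - 2a)/6 (all positive).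
-/
import Pool.Agent.H29.NL.Bas

set_option autoImplicit false

namespace Pool.Agent.H29.NL

theorem params (a μ : ℝ) (ha : 0 < a) (hμ : 0 ≤ μ) (hμa : μ ≤ 2 * a)
    (hE : 1 / 2 + 2 * μ < 1 / (4 * a)) :
    ∃ (q : ℕ) (θ : ℝ), 2 ≤ q ∧ 0 < θ ∧ θ ≤ 1 ∧ (2 * a + 3 * θ) * ((q : ℝ) - 1) ≤ 1 ∧
      θ * (2 + 3 * (q : ℝ) * (q - 1) / 2) ≤ 1 / 4 ∧ 2 * μ + 2 * a + 5 * θ ≤ 2 - θ ∧
      1 / (4 * a) + 1 / 2 ≤ (q : ℝ) - a * q * (q - 1) := by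
  have h4a : 0 < 4 * a := by linarith
  have h2a : 0 < 2 * a := by linarith
  have e1 : 1 / (4 * a) = (1 / (2 * a)) / 2 := by
    field_simp
    norm_num
  set y : ℝ := 1 / (2 * a) with hy
  have hy0 : 0 < y := by positivity
  have hay : 2 * a * y = 1 := by
    rw [hy]
    field_simp
  have hy1 : 1 < y := by
    rw [e1] at hE
    linarith
  -- a < 1/2
  have ha2 : 2 * a < 1 := by
    by_contra hcon
    push Not at hcon
    nlinarith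
  -- μ < 1/2
  have hμ2 : 2 * μ < 1 := by
    by_contra hcon
    push Not at hcon
    rw [e1] at hE
    nlinarith
  set q : ℕ := ⌈y⌉₊ with hq
  have hq1 : y ≤ q := Nat.le_ceil y
  have hq2 : (q : ℝ) < y + 1 := Nat.ceil_lt_add_one hy0.le
  have hq3 : 2 ≤ q := by
    have : (1 : ℝ) < q := lt_of_lt_of_le hy1 hq1
    exact_mod_cast this
  have hq3' : (2 : ℝ) ≤ q := by exact_mod_cast hq3
  have hq4 : 2 * a * ((q : ℝ) - 1) < 1 := by
    nlinarith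
  have hpos1 : 0 < (1 - 2 * a * ((q : ℝ) - 1)) / (3 * q) := by
    apply div_pos <;> linarith
  have hpos2 : 0 < 1 / (4 * (2 + 3 * (q : ℝ) ^ 2 / 2)) := by positivity
  have hpos3 : 0 < (2 - 2 * μ - 2 * a) / 6 := by linarith
  refine ⟨q, min (min 1 ((1 - 2 * a * ((q : ℝ) - 1)) / (3 * q)))
    (min (1 / (4 * (2 + 3 * (q : ℝ) ^ 2 / 2))) ((2 - 2 * μ - 2 * a) / 6)), hq3, ?_, ?_, ?_, ?_, ?_, ?_⟩
  · exact lt_min (lt_min one_pos hpos1) (lt_min hpos2 hpos3)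
  · exact (min_le_left _ _).trans (min_le_left _ _)
  · set θ := min (min 1 ((1 - 2 * a * ((q : ℝ) - 1)) / (3 * q)))
      (min (1 / (4 * (2 + 3 * (q : ℝ) ^ 2 / 2))) ((2 - 2 * μ - 2 * a) / 6))
    have hθ0 : 0 < θ := lt_min (lt_min one_pos hpos1) (lt_min hpos2 hpos3)
    have hθ : θ ≤ (1 - 2 * a * ((q : ℝ) - 1)) / (3 * q) :=
      (min_le_left _ _).trans (min_le_right _ _)
    have h3q : (0 : ℝ) < 3 * q := by linarith
    rw [le_div_iff₀ h3q] at hθ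
    nlinarith
  · set θ := min (min 1 ((1 - 2 * a * ((q : ℝ) - 1)) / (3 * q)))
      (min (1 / (4 * (2 + 3 * (q : ℝ) ^ 2 / 2))) ((2 - 2 * μ - 2 * a) / 6))
    have hθ0 : 0 < θ := lt_min (lt_min one_pos hpos1) (lt_min hpos2 hpos3)
    have hθ : θ ≤ 1 / (4 * (2 + 3 * (q : ℝ) ^ 2 / 2)) :=
      (min_le_right _ _).trans (min_le_left _ _)
    have hD : (0 : ℝ) < 4 * (2 + 3 * (q : ℝ) ^ 2 / 2) := by positivity
    rw [le_div_iff₀ hD] at hθ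
    have h1 : θ * (2 + 3 * (q : ℝ) * (q - 1) / 2) ≤ θ * (2 + 3 * (q : ℝ) ^ 2 / 2) := by
      apply mul_le_mul_of_nonneg_left _ hθ0.le
      nlinarith
    nlinarith
  · set θ := min (min 1 ((1 - 2 * a * ((q : ℝ) - 1)) / (3 * q)))
      (min (1 / (4 * (2 + 3 * (q : ℝ) ^ 2 / 2))) ((2 - 2 * μ - 2 * a) / 6))
    have hθ : θ ≤ (2 - 2 * μ - 2 * a) / 6 := (min_le_right _ _).trans (min_le_right _ _)
    linarith
  · rw [e1]
    have hu : (q : ℝ) - a * q * (q - 1)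
        = y / 2 + 1 / 2 + a * ((q : ℝ) - y) * (1 - (q - y)) := by
      have : a * y = 1 / 2 := by linarith
      have h3 : a * ((q : ℝ) - y) * (1 - (q - y))
          = a * q - a * q ^ 2 - a * y + 2 * (a * y) * q - (a * y) * y := by ring
      rw [h3, this]
      ring
    rw [hu]
    have : 0 ≤ a * ((q : ℝ) - y) * (1 - (q - y)) := by
      apply mul_nonneg (mul_nonneg ha.le _) <;> linarith
    linarith

end Pool.Agent.H29.NL
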