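/-
ASC : the master inequality fails for small circuits when n is large.

PROOF.  L := l - 1 ≥ 1 (real), a := 1/L + μ/2 > 0, x := 1/(4a) = L/(4 + 2 μ L), E := x - 1/2 - 2μ.
If E ≤ 0 take n₀ = 1: s < n^E ≤ 1 contradicts 1 ≤ s (Real.rpow_le_one_of_one_le_of_nonpos).  Let E > 0.  Take q, θ from `params` (μ ≤ 2a clear), c := q + E + 2μ + 3,
A := (q+1)^2 * 2^q * (2qk)^(2q), B := (q+1) * (2qk)^q and n₀ from `large_n`.  Let n ≥ n₀, R := ⌈c logb 2 n⌉₊, M := 2^r (r t + 1), Q := ⌈M R n^(2/L)⌉₊.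
* 2^R ≥ 2^(c logb 2 n) = n^c (Real.rpow_natCast, Real.rpow_le_rpow_of_exponent_le, Real.rpow_logb).
* 2^r ≤ n^μ (as t + 1 ≥ 1), so r ≤ μ logb 2 n (take logb) and r + 1 ≤ n^θ.  M ≤ 2^r (r+1)(t+1) ≤ n^θ n^μ = n^(μ+θ).  1 ≤ M, 1 ≤ R ≤ n^θ.
* M R n^(2/L) ≤ Q ≤ M R n^(2/L) + 1 ≤ 2 M R n^(2/L) ≤ n^θ * n^(μ+θ) * n^θ * n^(2/L) = n^(2a + 3θ).  Q > 0.
* Q^(q-1) ≤ n^((2a+3θ)(q-1)) ≤ n (exponent ≤ 1, n ≥ 1); cast to ℕ.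
* hU: M R / Q ≤ n^(-2/L); l.choose 2 = l L / 2, so (M R / Q)^(l.choose 2) ≤ n^(-l) (real exponents: (n^(-2/L))^(l.choose 2) = n^(-(2/L) * (l * L/2))),
  n.choose l ≤ n^l / l! (Nat.choose_le_pow_div), l! ≥ 2.
* M^2 ≤ n^(2μ + 2θ).
  T1 := M^2 * s * EM ≤ n^(2μ+2θ) n^E (n+1)^q / 2^R ≤ n^(2μ+2θ+E) (2n)^q / n^(q+E+2μ+3) = 2^q n^(2θ-3) ≤ 1/8.
  T2 := M^2 * s * EP ≤ n^(2μ+2θ+E) * A * n^((2a+3θ) q(q-1)/2 - q) (q.choose 2 = q(q-1)/2) and the exponent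
    2μ + 2θ + E + a q(q-1) - q + (3θ/2) q(q-1) ≤ 2μ + E - x - 1/2 + 1/4 = -3/4, so T2 ≤ A n^(-3/4) ≤ 1/8.
  T3 := M^2 * EZ ≤ n^(2μ+2θ) * B * n^(2a+3θ-2) ≤ B n^(-θ) ≤ 1/8.
  Sum ≤ 3/8 < 1/2.
-/
import Pool.Agent.H29.NL.ASA
import Pool.Agent.H29.NL.ASB

set_option autoImplicit false

namespace Pool.Agent.H29.NL

private theorem ASC_pow {N x b : ℝ} (hN : 0 ≤ N) (hx0 : 0 ≤ x) (hx : x ≤ N ^ b) (m : ℕ) :
    x ^ m ≤ N ^ (b * m) := by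
  calc x ^ m ≤ (N ^ b) ^ m := pow_le_pow_left₀ hx0 hx m
    _ = N ^ (b * m) := by rw [Real.rpow_mul hN, Real.rpow_natCast]

private theorem ASC_T1 {N : ℝ} (hN : 1 ≤ N) (q R : ℕ) {M s μ θ E c : ℝ} (hM0 : 0 ≤ M)
    (hM : M ≤ N ^ (μ + θ)) (hs0 : 0 ≤ s) (hs : s ≤ N ^ E) (hR : N ^ c ≤ 2 ^ R)
    (hc : c = q + E + 2 * μ + 3) (h8 : (2 : ℝ) ^ q * N ^ (2 * θ - 3) ≤ 1 / 8) :
    M ^ 2 * (s * ((N + 1) ^ q * (1 / 2 : ℝ) ^ R)) ≤ 1 / 8 := by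
  have hN0 : 0 < N := by linarith
  have h1 : M ^ 2 ≤ N ^ ((μ + θ) * (2 : ℕ)) := ASC_pow hN0.le hM0 hM 2
  have h2 : (N + 1) ^ q ≤ 2 ^ q * N ^ (q : ℝ) := by
    rw [Real.rpow_natCast, ← mul_pow]
    exact pow_le_pow_left₀ (by linarith) (by linarith) q
  have h3 : (1 / 2 : ℝ) ^ R ≤ N ^ (-c) := by
    rw [one_div, inv_pow, Real.rpow_neg hN0.le]
    exact inv_anti₀ (Real.rpow_pos_of_pos hN0 c) hR
  have h4 : 0 < N ^ (-c) := Real.rpow_pos_of_pos hN0 _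
  calc M ^ 2 * (s * ((N + 1) ^ q * (1 / 2 : ℝ) ^ R))
      ≤ N ^ ((μ + θ) * (2 : ℕ)) * (N ^ E * ((2 ^ q * N ^ (q : ℝ)) * N ^ (-c))) := by
        gcongr
    _ = 2 ^ q * (N ^ ((μ + θ) * (2 : ℕ)) * (N ^ E * (N ^ (q : ℝ) * N ^ (-c)))) := by ring
    _ = 2 ^ q * N ^ (2 * θ - 3) := by
        rw [← Real.rpow_add hN0, ← Real.rpow_add hN0, ← Real.rpow_add hN0]
        congr 2
        rw [hc]
        push_cast
        ring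
    _ ≤ 1 / 8 := h8

private theorem ASC_T2 {N : ℝ} (hN : 1 ≤ N) (q Q : ℕ) {M s μ θ E a A : ℝ} (hM0 : 0 ≤ M)
    (hM : M ≤ N ^ (μ + θ)) (hs0 : 0 ≤ s) (hs : s ≤ N ^ E) (hA : 0 ≤ A)
    (hQ : (Q : ℝ) ≤ N ^ (2 * a + 3 * θ)) (hE : E = 1 / (4 * a) - 1 / 2 - 2 * μ)
    (h2 : θ * (2 + 3 * (q : ℝ) * (q - 1) / 2) ≤ 1 / 4)
    (h4 : 1 / (4 * a) + 1 / 2 ≤ (q : ℝ) - a * q * (q - 1))
    (h8 : A * N ^ (-(3 / 4) : ℝ) ≤ 1 / 8) :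
    M ^ 2 * (s * (A * ((Q : ℝ) ^ (q.choose 2) / N ^ q))) ≤ 1 / 8 := by
  have hN0 : 0 < N := by linarith
  have h1 : M ^ 2 ≤ N ^ ((μ + θ) * (2 : ℕ)) := ASC_pow hN0.le hM0 hM 2
  have h3 : (Q : ℝ) ^ (q.choose 2) ≤ N ^ ((2 * a + 3 * θ) * (q.choose 2 : ℕ)) :=
    ASC_pow hN0.le (Nat.cast_nonneg Q) hQ _
  have h5 : (Q : ℝ) ^ (q.choose 2) / N ^ q ≤
      N ^ ((2 * a + 3 * θ) * (q.choose 2 : ℕ)) * N ^ (-(q : ℝ)) := by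
    rw [Real.rpow_neg hN0.le, Real.rpow_natCast, ← div_eq_mul_inv]
    exact div_le_div_of_nonneg_right h3 (pow_pos hN0 q).le
  calc M ^ 2 * (s * (A * ((Q : ℝ) ^ (q.choose 2) / N ^ q)))
      ≤ N ^ ((μ + θ) * (2 : ℕ)) * (N ^ E *
          (A * (N ^ ((2 * a + 3 * θ) * (q.choose 2 : ℕ)) * N ^ (-(q : ℝ))))) := by
        gcongr
    _ = A * (N ^ ((μ + θ) * (2 : ℕ)) * (N ^ E *
          (N ^ ((2 * a + 3 * θ) * (q.choose 2 : ℕ)) * N ^ (-(q : ℝ))))) := by ring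
    _ = A * N ^ ((μ + θ) * (2 : ℕ) + (E + ((2 * a + 3 * θ) * (q.choose 2 : ℕ) + -(q : ℝ)))) := by
        rw [← Real.rpow_add hN0, ← Real.rpow_add hN0, ← Real.rpow_add hN0]
    _ ≤ A * N ^ (-(3 / 4) : ℝ) := by
        refine mul_le_mul_of_nonneg_left (Real.rpow_le_rpow_of_exponent_le hN ?_) hA
        rw [Nat.cast_choose_two]
        push_cast
        nlinarith
    _ ≤ 1 / 8 := h8

private theorem ASC_T3 {N : ℝ} (hN : 1 ≤ N) (Q : ℕ) {M μ θ a B : ℝ} (hM0 : 0 ≤ M)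
    (hM : M ≤ N ^ (μ + θ)) (hB : 0 ≤ B) (hQ : (Q : ℝ) ≤ N ^ (2 * a + 3 * θ))
    (h3 : 2 * μ + 2 * a + 5 * θ ≤ 2 - θ) (h8 : B * N ^ (-θ) ≤ 1 / 8) :
    M ^ 2 * (B * ((Q : ℝ) / N ^ 2)) ≤ 1 / 8 := by
  have hN0 : 0 < N := by linarith
  have h1 : M ^ 2 ≤ N ^ ((μ + θ) * (2 : ℕ)) := ASC_pow hN0.le hM0 hM 2
  have h5 : (Q : ℝ) / N ^ 2 ≤ N ^ (2 * a + 3 * θ) * N ^ (-((2 : ℕ) : ℝ)) := by
    rw [Real.rpow_neg hN0.le, Real.rpow_natCast, ← div_eq_mul_inv]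
    exact div_le_div_of_nonneg_right hQ (pow_pos hN0 2).le
  calc M ^ 2 * (B * ((Q : ℝ) / N ^ 2))
      ≤ N ^ ((μ + θ) * (2 : ℕ)) * (B * (N ^ (2 * a + 3 * θ) * N ^ (-((2 : ℕ) : ℝ)))) := by
        gcongr
    _ = B * (N ^ ((μ + θ) * (2 : ℕ)) * (N ^ (2 * a + 3 * θ) * N ^ (-((2 : ℕ) : ℝ)))) := by ring
    _ = B * N ^ ((μ + θ) * (2 : ℕ) + (2 * a + 3 * θ + -((2 : ℕ) : ℝ))) := by
        rw [← Real.rpow_add hN0, ← Real.rpow_add hN0]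
    _ ≤ B * N ^ (-θ) := by
        refine mul_le_mul_of_nonneg_left (Real.rpow_le_rpow_of_exponent_le hN ?_) hB
        push_cast
        linarith
    _ ≤ 1 / 8 := h8

private theorem ASC_U {n l : ℕ} (hn : 1 ≤ n) (hl : 2 ≤ l) {y Q : ℝ} (hy : 0 ≤ y) (hQ : 0 < Q)
    (h : y * (n : ℝ) ^ (2 / ((l : ℝ) - 1)) ≤ Q) :
    (n.choose l : ℝ) * (y / Q) ^ (l.choose 2) ≤ 1 / 2 := by
  have hN : (1 : ℝ) ≤ n := by exact_mod_cast hn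
  have hN0 : (0 : ℝ) < n := by linarith
  have hl' : (2 : ℝ) ≤ l := by exact_mod_cast hl
  have h1 : y / Q ≤ (n : ℝ) ^ (-(2 / ((l : ℝ) - 1))) := by
    rw [div_le_iff₀ hQ, Real.rpow_neg hN0.le]
    have h2 : 0 < (n : ℝ) ^ (2 / ((l : ℝ) - 1)) := Real.rpow_pos_of_pos hN0 _
    rw [inv_mul_eq_div, le_div_iff₀ h2]
    exact h
  have h2 : (y / Q) ^ (l.choose 2) ≤ ((n : ℝ) ^ l)⁻¹ := by
    refine (ASC_pow hN0.le (div_nonneg hy hQ.le) h1 (l.choose 2)).trans (le_of_eq ?_)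
    rw [← Real.rpow_natCast, ← Real.rpow_neg hN0.le]
    congr 1
    rw [Nat.cast_choose_two]
    have h3 : (l : ℝ) - 1 ≠ 0 := by linarith
    field_simp
  have h3 : (n.choose l : ℝ) ≤ (n : ℝ) ^ l / (l.factorial : ℝ) := Nat.choose_le_pow_div l n
  have h4 : (2 : ℝ) ≤ (l.factorial : ℝ) := by
    have h5 : Nat.factorial 2 ≤ l.factorial := Nat.factorial_le hl
    have h6 : (2 : ℕ) ≤ l.factorial := h5
    exact_mod_cast h6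
  have h5 : 0 < (n : ℝ) ^ l := pow_pos hN0 l
  calc (n.choose l : ℝ) * (y / Q) ^ (l.choose 2)
      ≤ ((n : ℝ) ^ l / (l.factorial : ℝ)) * ((n : ℝ) ^ l)⁻¹ := by
        have h6 : 0 ≤ (y / Q) ^ (l.choose 2) := pow_nonneg (div_nonneg hy hQ.le) _
        gcongr
    _ = 1 / (l.factorial : ℝ) := by
        field_simp
    _ ≤ 1 / 2 := one_div_le_one_div_of_le (by norm_num) h4

private theorem ASC_M {n r t : ℕ} {μ θ : ℝ} (hn : 2 ≤ n)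
    (h : ((t : ℝ) + 1) * 2 ^ r ≤ (n : ℝ) ^ μ) (hθ : μ * Real.logb 2 n + 1 ≤ (n : ℝ) ^ θ) :
    (((2 ^ r * (r * t + 1) : ℕ)) : ℝ) ≤ (n : ℝ) ^ (μ + θ) := by
  have hN : (2 : ℝ) ≤ n := by exact_mod_cast hn
  have hN0 : (0 : ℝ) < n := by linarith
  have ht : (0 : ℝ) ≤ t := Nat.cast_nonneg t
  have hr : (0 : ℝ) ≤ r := Nat.cast_nonneg r
  have h2r : (0 : ℝ) < 2 ^ r := pow_pos (by norm_num) r
  have h1 : (2 : ℝ) ^ r ≤ (n : ℝ) ^ μ := by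
    refine le_trans ?_ h
    nlinarith [mul_nonneg ht h2r.le]
  have h2 : (r : ℝ) ≤ μ * Real.logb 2 n := by
    have h3 := Real.logb_le_logb_of_le (b := 2) (by norm_num) h2r h1
    rw [Real.logb_pow, Real.logb_self_eq_one (by norm_num), mul_one,
      Real.logb_rpow_eq_mul_logb_of_pos hN0] at h3
    exact h3
  have h3 : (r : ℝ) + 1 ≤ (n : ℝ) ^ θ := by linarith
  have h4 : 0 < (n : ℝ) ^ μ := Real.rpow_pos_of_pos hN0 _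
  push_cast
  calc (2 : ℝ) ^ r * (r * t + 1) ≤ 2 ^ r * (((t : ℝ) + 1) * (r + 1)) := by
        refine mul_le_mul_of_nonneg_left ?_ h2r.le
        nlinarith
    _ = (((t : ℝ) + 1) * 2 ^ r) * (r + 1) := by ring
    _ ≤ (n : ℝ) ^ μ * (n : ℝ) ^ θ := by
        refine mul_le_mul h h3 (by linarith) h4.le
    _ = (n : ℝ) ^ (μ + θ) := (Real.rpow_add hN0 _ _).symm

private theorem ASC_R {n : ℕ} {c : ℝ} (hn : 2 ≤ n) :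
    (n : ℝ) ^ c ≤ 2 ^ ⌈c * Real.logb 2 n⌉₊ := by
  have hN : (2 : ℝ) ≤ n := by exact_mod_cast hn
  have hN0 : (0 : ℝ) < n := by linarith
  rw [← Real.rpow_natCast]
  have h1 : (n : ℝ) ^ c = 2 ^ (c * Real.logb 2 n) := by
    rw [mul_comm, Real.rpow_mul (by norm_num), Real.rpow_logb (by norm_num) (by norm_num) hN0]
  rw [h1]
  exact Real.rpow_le_rpow_of_exponent_le (by norm_num) (Nat.le_ceil _)

theorem asymp (k l : ℕ) (μ : ℝ) (hl : 2 ≤ l) (hlk : l ≤ k) (hμ : 0 ≤ μ) :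
    ∃ n₀ : ℕ, ∀ n : ℕ, n₀ ≤ n → ∀ s r t : ℕ, ((t : ℝ) + 1) * 2 ^ r ≤ (n : ℝ) ^ μ → 1 ≤ s →
      (s : ℝ) < (n : ℝ) ^ (((l : ℝ) - 1) / (4 + 2 * μ * ((l : ℝ) - 1)) - 1 / 2 - 2 * μ) →
      ∃ q Q R M : ℕ, 0 < Q ∧ 2 ≤ q ∧ 0 < n ∧ k ≤ n ∧ Q ^ (q - 1) ≤ n ∧
        2 ^ r * (r * t + 1) ≤ M ∧
        (n.choose l : ℝ) * (((M : ℝ) * R) / Q) ^ (l.choose 2) ≤ 1 / 2 ∧
        (M : ℝ) ^ 2 * (s * EM n q R + s * EP n k q Q + EZ n k q Q) < 1 / 2 := by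
  have hl' : (2 : ℝ) ≤ l := by exact_mod_cast hl
  obtain ⟨L, hL⟩ : ∃ L : ℝ, L = (l : ℝ) - 1 := ⟨_, rfl⟩
  have hL1 : 1 ≤ L := by rw [hL]; linarith
  obtain ⟨a, ha⟩ : ∃ a : ℝ, a = 1 / L + μ / 2 := ⟨_, rfl⟩
  have hLp : 0 < 1 / L := by positivity
  have ha0 : 0 < a := by rw [ha]; linarith
  have hx : L / (4 + 2 * μ * L) = 1 / (4 * a) := by
    have h1 : 0 < 4 + 2 * μ * L := by
      have := mul_nonneg hμ (by linarith : 0 ≤ L)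
      linarith
    rw [ha]
    have h2 : 4 * (1 / L + μ / 2) = (4 + 2 * μ * L) / L := by
      field_simp
      ring
    rw [h2, one_div_div]
  obtain ⟨E, hE⟩ : ∃ E : ℝ, E = 1 / (4 * a) - 1 / 2 - 2 * μ := ⟨_, rfl⟩
  have hEx : ((l : ℝ) - 1) / (4 + 2 * μ * ((l : ℝ) - 1)) - 1 / 2 - 2 * μ = E := by
    rw [← hL, hx, hE]
  rw [hEx]
  rcases le_or_gt E 0 with hE0 | hE0
  · refine ⟨1, fun n hn s r t _ hs hsE => ?_⟩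
    exfalso
    have h1 : (n : ℝ) ^ E ≤ 1 :=
      Real.rpow_le_one_of_one_le_of_nonpos (by exact_mod_cast hn) hE0
    have h2 : (1 : ℝ) ≤ s := by exact_mod_cast hs
    linarith
  · obtain ⟨q, θ, hq, hθ, hθ1, p1, p2, p3, p4⟩ := params a μ ha0 hμ
      (by rw [ha]; linarith) (by rw [hE] at hE0; linarith)
    have hq' : (2 : ℝ) ≤ q := by exact_mod_cast hq
    obtain ⟨c, hc⟩ : ∃ c : ℝ, c = q + E + 2 * μ + 3 := ⟨_, rfl⟩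
    have hc0 : 0 < c := by rw [hc]; linarith
    obtain ⟨n₀, hn₀⟩ := large_n θ c μ (((q : ℝ) + 1) ^ 2 * 2 ^ q * (2 * q * k) ^ (2 * q))
      (((q : ℝ) + 1) * (2 * q * k) ^ q) q k hθ hθ1 hc0 hμ
    refine ⟨n₀, fun n hn s r t htr hs hsE => ?_⟩
    obtain ⟨g1, g2, g3, g4, g5, g6, g7, g8, g9⟩ := hn₀ n hn
    have hN : (2 : ℝ) ≤ n := by exact_mod_cast g1
    have hN1 : (1 : ℝ) ≤ n := by linarith
    have hN0 : (0 : ℝ) < n := by linarith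
    have hM := ASC_M g1 htr g6
    have hRc := ASC_R (n := n) (c := c) g1
    obtain ⟨R, hR⟩ : ∃ R : ℕ, R = ⌈c * Real.logb 2 n⌉₊ := ⟨_, rfl⟩
    rw [← hR] at g4 g5 hRc
    obtain ⟨M, hMd⟩ : ∃ M : ℕ, M = 2 ^ r * (r * t + 1) := ⟨_, rfl⟩
    rw [← hMd] at hM
    have hM1 : 1 ≤ M := by
      rw [hMd]
      exact Nat.succ_le_of_lt (by positivity)
    have hM1' : (1 : ℝ) ≤ M := by exact_mod_cast hM1
    have hR1' : (1 : ℝ) ≤ R := by exact_mod_cast g4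
    have hMR1 : (1 : ℝ) ≤ M * R := by nlinarith
    have hNL : (1 : ℝ) ≤ (n : ℝ) ^ (2 / L) := Real.one_le_rpow hN1 (by positivity)
    obtain ⟨Q, hQ⟩ : ∃ Q : ℕ, Q = ⌈(M : ℝ) * R * (n : ℝ) ^ (2 / L)⌉₊ := ⟨_, rfl⟩
    have hy1 : 1 ≤ (M : ℝ) * R * (n : ℝ) ^ (2 / L) := by nlinarith
    have hQ1 : (M : ℝ) * R * (n : ℝ) ^ (2 / L) ≤ Q := by
      rw [hQ]
      exact Nat.le_ceil _
    have hQ2 : (Q : ℝ) < (M : ℝ) * R * (n : ℝ) ^ (2 / L) + 1 := by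
      rw [hQ]
      exact Nat.ceil_lt_add_one (by linarith)
    have hQp : (0 : ℝ) < Q := by linarith
    have hQp' : 0 < Q := by exact_mod_cast hQp
    have hQu : (Q : ℝ) ≤ (n : ℝ) ^ (2 * a + 3 * θ) := by
      have e : 2 * a + 3 * θ = θ + ((μ + θ) + θ + 2 / L) := by
        rw [ha]
        ring
      rw [e, Real.rpow_add hN0, Real.rpow_add hN0, Real.rpow_add hN0 (μ + θ)]
      calc (Q : ℝ) ≤ 2 * ((M : ℝ) * R * (n : ℝ) ^ (2 / L)) := by linarith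
        _ ≤ (n : ℝ) ^ θ * ((n : ℝ) ^ (μ + θ) * (n : ℝ) ^ θ * (n : ℝ) ^ (2 / L)) := by
            gcongr
    have hs' : (s : ℝ) ≤ (n : ℝ) ^ E := hsE.le
    have hs0 : (0 : ℝ) ≤ s := Nat.cast_nonneg s
    have hM0 : (0 : ℝ) ≤ M := Nat.cast_nonneg M
    have T1 := ASC_T1 hN1 q R hM0 hM hs0 hs' hRc hc g9
    have T2 := ASC_T2 (A := ((q : ℝ) + 1) ^ 2 * 2 ^ q * (2 * q * k) ^ (2 * q)) hN1 q Q hM0 hM hs0
      hs' (by positivity) hQu hE p2 p4 g7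
    have T3 := ASC_T3 (B := ((q : ℝ) + 1) * (2 * q * k) ^ q) hN1 Q hM0 hM (by positivity) hQu
      p3 g8
    refine ⟨q, Q, R, M, hQp', hq, by omega, g2, ?_, by rw [hMd], ?_, ?_⟩
    · have h1 := ASC_pow hN0.le hQp.le hQu (q - 1)
      have h2 : (n : ℝ) ^ ((2 * a + 3 * θ) * ((q - 1 : ℕ) : ℝ)) ≤ (n : ℝ) ^ (1 : ℝ) := by
        refine Real.rpow_le_rpow_of_exponent_le hN1 ?_
        rw [Nat.cast_sub (by omega), Nat.cast_one]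
        exact p1
      rw [Real.rpow_one] at h2
      exact_mod_cast h1.trans h2
    · refine ASC_U (by omega) hl (by positivity) hQp ?_
      rw [← hL]
      exact hQ1
    · have e : (M : ℝ) ^ 2 * (s * EM n q R + s * EP n k q Q + EZ n k q Q) =
          (M : ℝ) ^ 2 * (s * (((n : ℝ) + 1) ^ q * (1 / 2 : ℝ) ^ R)) +
          (M : ℝ) ^ 2 * (s * ((((q : ℝ) + 1) ^ 2 * 2 ^ q * (2 * q * k) ^ (2 * q)) *
            ((Q : ℝ) ^ (q.choose 2) / (n : ℝ) ^ q))) +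
          (M : ℝ) ^ 2 * ((((q : ℝ) + 1) * (2 * q * k) ^ q) * ((Q : ℝ) / (n : ℝ) ^ 2)) := by
        unfold EM EP EZ
        ring
      rw [e]
      linarith

end Pool.Agent.H29.NL
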