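/-
CHN : graphs of edge sets, and the pigeonhole argument along the chain.

PROOFS.
* gr_mono: immediate.   xx_succ: xx ω (i+1) = xx ω i ∪ dset (ω i) for i : Fin M (ext; m < i+1 ↔ m < i ∨ m = i).   xx_mono.
* not_cliqueFree: K.card = k, EE K ⊆ x → K is a clique of gr x: Adj u v for u ≠ v in K as {u, v} ∈ EE K (IsNClique, isClique_iff).
* cliqueFree: if gr x has an l-clique U (IsNClique: Finset U, card l, pairwise adjacent) then EE U ⊆ x: every e ∈ EE U is {u, v} with u ≠ v in U (Finset.card_eq_two),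
  adjacent, so {u, v} ∈ x.
* chain: let Col := C.arb.powerset ×ˢ I, card ≤ 2^r * (r * t + 1) ≤ M (card_powerset; Nat.pow_le_pow_right).  For every i ∈ {0, .., M} the graph gr (xx ω i) is l-clique-free
  (xx ω i ⊆ xx ω M, hfree) so C.fn out is false there, and gr (xx ω i ∪ EE K) has a k-clique so C.fn out is true; by hH (separation, gr_mono) there is a colour
  (B, a) ∈ Col with ¬ H B (gr (xx ω i)) a ∧ H B (gr (xx ω i ∪ EE K)) a.  M + 1 > card Col: two indices i < i' with the same colour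
  (Finset.exists_ne_map_eq_of_card_lt_of_maps_to on range (M+1)).  Then i < M, and ¬ H B (gr (xx ω i')) a, xx ω i ∪ dset (ω i) = xx ω (i+1) ⊆ xx ω i', monotone (hmono): done.
-/
import Pool.Agent.H29.NL.Bas

set_option autoImplicit false

namespace Pool.Agent.H29.NL

open Finset

variable {n : ℕ}

lemma gr_mono {x y : Finset (Finset (Fin n))} (h : x ⊆ y) : gr x ≤ gr y := by
  intro u v huv
  exact ⟨huv.1, h huv.2⟩

lemma xx_succ {Q R M : ℕ} (ω : Fin M → Rnd n Q R) (i : Fin M) :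
    xx ω ((i : ℕ) + 1) = xx ω (i : ℕ) ∪ dset (ω i) := by
  classical
  ext e
  simp only [xx, Finset.mem_filter, Finset.mem_univ, true_and, Finset.mem_union]
  constructor
  · rintro ⟨m, hm, he⟩
    rcases Nat.lt_succ_iff_lt_or_eq.1 hm with h | h
    · exact Or.inl ⟨m, h, he⟩
    · have : m = i := Fin.ext h
      subst this
      exact Or.inr he
  · rintro (⟨m, hm, he⟩ | he)
    · exact ⟨m, Nat.lt_succ_of_lt hm, he⟩
    · exact ⟨i, Nat.lt_succ_self _, he⟩

lemma xx_mono {Q R M : ℕ} (ω : Fin M → Rnd n Q R) {i j : ℕ} (h : i ≤ j) : xx ω i ⊆ xx ω j := by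
  classical
  intro e
  simp only [xx, Finset.mem_filter, Finset.mem_univ, true_and]
  rintro ⟨m, hm, he⟩
  exact ⟨m, lt_of_lt_of_le hm h, he⟩

lemma not_cliqueFree {k : ℕ} {K : Finset (Fin n)} (hK : K.card = k)
    {x : Finset (Finset (Fin n))} (h : EE K ⊆ x) : ¬ (gr x).CliqueFree k := by
  intro hfree
  refine hfree K ?_
  rw [SimpleGraph.isNClique_iff]
  refine ⟨?_, hK⟩
  intro u hu v hv huv
  refine ⟨huv, h ?_⟩
  rw [EE, Finset.mem_powersetCard]
  refine ⟨?_, Finset.card_pair huv⟩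
  intro w hw
  rw [Finset.mem_insert, Finset.mem_singleton] at hw
  rcases hw with rfl | rfl
  · exact hu
  · exact hv

lemma cliqueFree_gr {l : ℕ} {x : Finset (Finset (Fin n))}
    (h : ¬ ∃ U : Finset (Fin n), U.card = l ∧ EE U ⊆ x) : (gr x).CliqueFree l := by
  intro U hU
  rw [SimpleGraph.isNClique_iff] at hU
  refine h ⟨U, hU.2, ?_⟩
  intro e he
  rw [EE, Finset.mem_powersetCard] at he
  obtain ⟨u, v, huv, rfl⟩ := Finset.card_eq_two.1 he.2
  have hu : u ∈ U := he.1 (by simp)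
  have hv : v ∈ U := he.1 (by simp)
  exact (hU.1 hu hv huv).2

theorem chain {s r t k l Q R M : ℕ} (C : Circuit n s r t) (hC : C.Separates k l)
    (H : Finset (Fin s) → SimpleGraph (Fin n) → Fin s → Prop) (I : Finset (Fin s))
    (hI : I.card ≤ r * t + 1) (hM : 2 ^ r * (r * t + 1) ≤ M)
    (hmono : ∀ B G G' i, G ≤ G' → H B G i → H B G' i)
    (hsep : ∀ G G', G ≤ G' → ¬ C.fn C.out G → C.fn C.out G' →
        ∃ B ∈ C.arb.powerset, ∃ a ∈ I, ¬ H B G a ∧ H B G' a)
    (ω : Fin M → Rnd n Q R) (hfree : ¬ ∃ U : Finset (Fin n), U.card = l ∧ EE U ⊆ xx ω M)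
    (K : KK n k) :
    ∃ i : Fin M, ∃ B ∈ C.arb.powerset, ∃ a ∈ I,
      ¬ H B (gr (xx ω (i : ℕ) ∪ dset (ω i))) a ∧ H B (gr (xx ω (i : ℕ) ∪ EE K.1)) a := by
  classical
  have hfree' : ∀ i : ℕ, i ≤ M → (gr (xx ω i)).CliqueFree l := by
    intro i hi
    apply cliqueFree_gr
    rintro ⟨U, hU, hx⟩
    exact hfree ⟨U, hU, hx.trans (xx_mono ω hi)⟩
  have hcol : ∀ i : ℕ, i ≤ M → ∃ c : Finset (Fin s) × Fin s, c ∈ C.arb.powerset ×ˢ I ∧
      ¬ H c.1 (gr (xx ω i)) c.2 ∧ H c.1 (gr (xx ω i ∪ EE K.1)) c.2 := by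
    intro i hi
    have h1 : ¬ C.fn C.out (gr (xx ω i)) := hC.2 _ (hfree' i hi)
    have h2 : C.fn C.out (gr (xx ω i ∪ EE K.1)) :=
      hC.1 _ (not_cliqueFree K.2 Finset.subset_union_right)
    obtain ⟨B, hB, a, ha, h3, h4⟩ := hsep _ _ (gr_mono Finset.subset_union_left) h1 h2
    exact ⟨(B, a), Finset.mk_mem_product hB ha, h3, h4⟩
  haveI : Nonempty (Finset (Fin s) × Fin s) := ⟨(∅, C.out)⟩
  choose! col hcol1 hcol2 using hcol
  have hcard : (C.arb.powerset ×ˢ I).card < (Finset.range (M + 1)).card := by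
    rw [Finset.card_range, Finset.card_product, Finset.card_powerset]
    refine lt_of_le_of_lt ?_ (Nat.lt_succ_self M)
    refine le_trans (Nat.mul_le_mul ?_ hI) hM
    exact Nat.pow_le_pow_right (by norm_num) C.card_arb
  obtain ⟨i, hi, j, hj, hij, he⟩ := Finset.exists_ne_map_eq_of_card_lt_of_maps_to hcard
    (f := col) (fun i hi => hcol1 i (Nat.lt_succ_iff.1 (Finset.mem_range.1 hi)))
  have key : ∀ i j : ℕ, i < j → j ≤ M → col i = col j → ∃ i : Fin M, ∃ B ∈ C.arb.powerset,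
      ∃ a ∈ I, ¬ H B (gr (xx ω (i : ℕ) ∪ dset (ω i))) a ∧
        H B (gr (xx ω (i : ℕ) ∪ EE K.1)) a := by
    intro i j hij hj he
    have hiM : i < M := lt_of_lt_of_le hij hj
    have h1 := hcol1 i hiM.le
    have h2 := hcol2 i hiM.le
    have h3 := hcol2 j hj
    rw [Finset.mem_product] at h1
    refine ⟨⟨i, hiM⟩, (col i).1, h1.1, (col i).2, h1.2, ?_, h2.2⟩
    intro hH
    apply h3.1
    rw [← he]
    refine hmono _ _ _ _ (gr_mono ?_) hH
    rw [← xx_succ ω ⟨i, hiM⟩]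
    exact xx_mono ω hij
  have hi' := Nat.lt_succ_iff.1 (Finset.mem_range.1 hi)
  have hj' := Nat.lt_succ_iff.1 (Finset.mem_range.1 hj)
  rcases lt_or_gt_of_ne hij with h | h
  · exact key i j h hj' he
  · exact key j i h hi' he.symm

end Pool.Agent.H29.NL
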