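/-
CYL : cylinder sets.

PROOFS.
* pr_cyl: the set of σ with (σ e : ℕ) = 0 for e ∈ A is Fintype.piFinset (fun e => if e ∈ A then {⟨0, hQ⟩} else univ), so it has
  Q^(card ι - card A) elements (Fintype.card_piFinset, Finset.prod_ite, prod_const), and card (ι → Fin Q) = Q^(card ι); the quotient is
  (1/Q)^card A (Q > 0, card A ≤ card ι: Finset.card_le_univ; pow_sub₀ or write Q^(card ι) = Q^(card A) * Q^(card ι - card A)).
* pr_cyl3: transport by the equivalence (Fin M → Fin R → Finset (Fin n) → Fin Q) ≃ (Fin M × Fin R × Finset (Fin n) → Fin Q)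
  (Equiv.curry twice, or write the four fields by hand: toFun ω := fun z => ω z.1 z.2.1 z.2.2, invFun f := fun m ρ e => f (m, ρ, e)) and
  pr_equiv to pr_cyl with A := B.image (fun e => ((c e).1, (c e).2, e)), which has the cardinality of B (the map is injective).
-/
import Pool.Agent.H29.NL.PRA

set_option autoImplicit false

namespace Pool.Agent.H29.NL

open Finset

lemma pr_cyl {ι : Type*} [Fintype ι] [DecidableEq ι] {Q : ℕ} (hQ : 0 < Q) (A : Finset ι) :
    pr (fun σ : ι → Fin Q => ∀ e ∈ A, (σ e : ℕ) = 0) = (1 / (Q : ℝ)) ^ A.card := by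
  classical
  have hset : (univ.filter fun σ : ι → Fin Q => ∀ e ∈ A, (σ e : ℕ) = 0)
      = Fintype.piFinset (fun e => if e ∈ A then {⟨0, hQ⟩} else (univ : Finset (Fin Q))) := by
    ext σ
    simp only [Finset.mem_filter, Finset.mem_univ, true_and, Fintype.mem_piFinset]
    constructor
    · intro h e
      by_cases he : e ∈ A
      · simp only [he, if_true, Finset.mem_singleton]
        exact Fin.ext (h e he)
      · simp only [he, if_false, Finset.mem_univ]
    · intro h e he
      have := h e
      simp only [he, if_true, Finset.mem_singleton] at this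
      rw [this]
  have hcard : (univ.filter fun σ : ι → Fin Q => ∀ e ∈ A, (σ e : ℕ) = 0).card
      = Q ^ (Fintype.card ι - A.card) := by
    rw [hset, Fintype.card_piFinset]
    have : ∀ e : ι, (if e ∈ A then ({⟨0, hQ⟩} : Finset (Fin Q)) else univ).card
        = if e ∈ A then 1 else Q := by
      intro e
      split_ifs <;> simp
    simp_rw [this]
    rw [Finset.prod_ite]
    simp only [Finset.prod_const_one, one_mul, Finset.prod_const]
    congr 1
    rw [Finset.filter_not, Finset.card_sdiff_of_subset (Finset.filter_subset _ _),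
      Finset.filter_mem_eq_inter, Finset.univ_inter, Finset.card_univ]
  unfold pr
  have h1 : (Fintype.card (ι → Fin Q) : ℝ) = (Q : ℝ) ^ (Fintype.card ι) := by
    rw [Fintype.card_fun, Fintype.card_fin]
    push_cast
    rfl
  have hle : A.card ≤ Fintype.card ι := Finset.card_le_univ A
  have h2 : (Q : ℝ) ^ (Fintype.card ι) = (Q : ℝ) ^ (Fintype.card ι - A.card) * (Q : ℝ) ^ A.card := by
    rw [← pow_add, Nat.sub_add_cancel hle]
  have hQ' : (0 : ℝ) < Q := by exact_mod_cast hQ
  have h3 : ((univ.filter fun σ : ι → Fin Q => ∀ e ∈ A, (σ e : ℕ) = 0).card : ℝ)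
      = (Q : ℝ) ^ (Fintype.card ι - A.card) := by
    rw [hcard]
    push_cast
    rfl
  rw [h1, h2]
  have h4 : ∀ inst : DecidablePred fun σ : ι → Fin Q => ∀ e ∈ A, (σ e : ℕ) = 0,
      ((@Finset.filter _ (fun σ : ι → Fin Q => ∀ e ∈ A, (σ e : ℕ) = 0) inst univ).card : ℝ)
      = (Q : ℝ) ^ (Fintype.card ι - A.card) := by
    intro inst
    rw [← h3]
    congr!
  rw [h4, one_div, inv_pow]
  field_simp

lemma pr_cyl3 {n Q R M : ℕ} (hQ : 0 < Q) (B : Finset (Finset (Fin n)))
    (c : Finset (Fin n) → Fin M × Fin R) :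
    pr (fun ω : Fin M → Rnd n Q R => ∀ e ∈ B, (ω (c e).1 (c e).2 e : ℕ) = 0)
      = (1 / (Q : ℝ)) ^ B.card := by
  classical
  let eq : (Fin M → Rnd n Q R) ≃ (Fin M × Fin R × Finset (Fin n) → Fin Q) :=
    { toFun := fun ω z => ω z.1 z.2.1 z.2.2
      invFun := fun f m ρ e => f (m, ρ, e)
      left_inv := fun ω => rfl
      right_inv := fun f => rfl }
  have h1 := pr_equiv eq (fun f : Fin M × Fin R × Finset (Fin n) → Fin Q =>
    ∀ z ∈ B.image (fun e => ((c e).1, (c e).2, e)), (f z : ℕ) = 0)
  rw [pr_cyl hQ] at h1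
  have h2 : (B.image (fun e => ((c e).1, (c e).2, e))).card = B.card := by
    apply Finset.card_image_of_injective
    intro a b hab
    simp only [Prod.mk.injEq] at hab
    exact hab.2.2
  rw [h2] at h1
  rw [← h1]
  apply pr_congr
  intro ω
  constructor
  · intro h z hz
    obtain ⟨e, he, rfl⟩ := Finset.mem_image.1 hz
    exact h e he
  · intro h e he
    exact h _ (Finset.mem_image_of_mem _ he)

end Pool.Agent.H29.NL
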