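/-
HB : freezing the arbitrary gates of a circuit.

PROOF.  For i ∉ C.arb choose a kind: input (u, v), AND (a, b) or OR S (C.gate).  For B : Finset (Fin s) define H B G : Fin s → Prop by well-founded recursion on i:
 H B G i :↔ i ∈ B if i ∈ C.arb;  G.Adj u v for an input;  H B G a ∧ H B G b for an AND;  ∃ a ∈ S, H B G a for an OR.
(Lean: WellFounded.fix on Fin s, or first prove a general lemma: for step : (i : Fin s) → (∀ a < i, Prop) → Prop there is f with f i = step i (fun a _ => f a): this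
is WellFounded.fix / `WellFoundedLT.fix` with its fix_eq.)
(a) monotone in G: strong induction on i (G ≤ G': Adj is monotone).
(b) agree: if ∀ j ∈ C.arb, j < i → (j ∈ B ↔ C.fn j G) and i ∉ C.arb then (H B G i ↔ C.fn i G); also for i ∈ C.arb if moreover (i ∈ B ↔ C.fn i G).  Strong induction on i.
(c) separation: G ≤ G', ¬ C.fn C.out G, C.fn C.out G'.  Let I := {C.out} ∪ ⋃_{i ∈ C.arb} T i, T i the fan-in set chosen from C.arb_gate i (card ≤ t), so card I ≤ r * t + 1
 (card_biUnion_le, card_union_le; card C.arb ≤ r).  Let B := C.arb.filter (fun j => C.fn j G).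
 Case 1: C.fn j G ↔ C.fn j G' for all j ∈ C.arb.  Then by (b) H B G C.out ↔ C.fn C.out G (false), H B G' C.out ↔ C.fn C.out G' (true): a := C.out.
 Case 2: let i be the least element of C.arb with ¬ (C.fn i G ↔ C.fn i G').  By the fan-in property there is a ∈ T i with ¬ (C.fn a G ↔ C.fn a G'); a < i, so a ∉ C.arb by minimality.
 By (b) (for all j ∈ arb, j < a < i: j ∈ B ↔ fn j G ↔ fn j G'): H B G a ↔ fn a G and H B G' a ↔ fn a G'.  As H is monotone, H B G a → H B G' a; they differ, so
 ¬ H B G a ∧ H B G' a.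
(d) kinds: for B and g0 define κ i := const (i ∈ B) for i ∈ arb; for an input (u, v): if u = v then const False, else if {u, v} ∈ g0 then const True else inp {u, v}; and a b; or S.
 Check st: (gr (g0 ∪ x)).Adj u v ↔ u ≠ v ∧ ({u, v} ∈ g0 ∨ {u, v} ∈ x).  Ok: card {u, v} = 2 for u ≠ v; a, b < i.
-/
import Pool.Agent.H29.NL.Bas

set_option autoImplicit false

namespace Pool.Agent.H29.NL

open Finset

/-- kinds of gates -/
private inductive HB_K (n s : ℕ)
  | arb
  | inp (u v : Fin n)
  | and (a b : Fin s)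
  | or (S : Finset (Fin s))

private def HB_spec {n s r t : ℕ} (C : Circuit n s r t) (i : Fin s) : HB_K n s → Prop
  | .arb => i ∈ C.arb
  | .inp u v => i ∉ C.arb ∧ ∀ G, C.fn i G ↔ G.Adj u v
  | .and a b => i ∉ C.arb ∧ a < i ∧ b < i ∧ ∀ G, C.fn i G ↔ C.fn a G ∧ C.fn b G
  | .or S => i ∉ C.arb ∧ (∀ a ∈ S, a < i) ∧ ∀ G, C.fn i G ↔ ∃ a ∈ S, C.fn a G

private theorem HB_exists_kind {n s r t : ℕ} (C : Circuit n s r t) (i : Fin s) :
    ∃ k, HB_spec C i k := by
  by_cases hi : i ∈ C.arb
  · exact ⟨.arb, hi⟩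
  · rcases C.gate i hi with ⟨u, v, h⟩ | ⟨a, b, h1, h2, h3⟩ | ⟨S, h1, h2⟩
    · exact ⟨.inp u v, hi, h⟩
    · exact ⟨.and a b, hi, h1, h2, h3⟩
    · exact ⟨.or S, hi, h1, h2⟩

private def HB_step {n s : ℕ} (B : Finset (Fin s)) (G : SimpleGraph (Fin n)) (i : Fin s) :
    HB_K n s → (Fin s → Prop) → Prop
  | .arb, _ => i ∈ B
  | .inp u v, _ => G.Adj u v
  | .and a b, f => f a ∧ f b
  | .or S, f => ∃ a ∈ S, f a

private def HB_it {n s : ℕ} (κ : Fin s → HB_K n s) (B : Finset (Fin s))
    (G : SimpleGraph (Fin n)) : ℕ → Fin s → Prop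
  | 0 => fun _ => False
  | k + 1 => fun i => HB_step B G i (κ i) (HB_it κ B G k)

private theorem HB_stable {n s r t : ℕ} {C : Circuit n s r t} {κ : Fin s → HB_K n s}
    (hκ : ∀ i, HB_spec C i (κ i)) (B : Finset (Fin s)) (G : SimpleGraph (Fin n)) (m : ℕ) :
    ∀ i : Fin s, (i : ℕ) = m → ∀ k k', (i : ℕ) < k → (i : ℕ) < k' →
      (HB_it κ B G k i ↔ HB_it κ B G k' i) := by
  induction m using Nat.strong_induction_on with
  | _ m ih =>
    intro i hi k k' hk hk'
    obtain ⟨k, rfl⟩ : ∃ l, k = l + 1 := ⟨k - 1, by omega⟩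
    obtain ⟨k', rfl⟩ : ∃ l, k' = l + 1 := ⟨k' - 1, by omega⟩
    have hs := hκ i
    have hlt : ∀ a : Fin s, a < i → (HB_it κ B G k a ↔ HB_it κ B G k' a) := by
      intro a ha
      have ha' : (a : ℕ) < i := ha
      exact ih a (by omega) a rfl k k' (by omega) (by omega)
    unfold HB_it
    cases hc : κ i with
    | arb => exact Iff.rfl
    | inp u v => exact Iff.rfl
    | and a b =>
      rw [hc] at hs
      obtain ⟨-, h1, h2, -⟩ := hs
      show (HB_it κ B G k a ∧ HB_it κ B G k b) ↔ (HB_it κ B G k' a ∧ HB_it κ B G k' b)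
      rw [hlt a h1, hlt b h2]
    | or S =>
      rw [hc] at hs
      obtain ⟨-, h1, -⟩ := hs
      show (∃ a ∈ S, HB_it κ B G k a) ↔ (∃ a ∈ S, HB_it κ B G k' a)
      constructor
      · rintro ⟨a, ha, h3⟩
        exact ⟨a, ha, (hlt a (h1 a ha)).1 h3⟩
      · rintro ⟨a, ha, h3⟩
        exact ⟨a, ha, (hlt a (h1 a ha)).2 h3⟩

private theorem HB_fix {n s r t : ℕ} {C : Circuit n s r t} {κ : Fin s → HB_K n s}
    (hκ : ∀ i, HB_spec C i (κ i)) (B : Finset (Fin s)) (G : SimpleGraph (Fin n)) (i : Fin s) :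
    HB_it κ B G s i ↔ HB_step B G i (κ i) (HB_it κ B G s) := by
  have h := HB_stable hκ B G i i rfl s (s + 1) i.2 (by omega)
  exact h

private theorem HB_mono {n s : ℕ} (κ : Fin s → HB_K n s) (B : Finset (Fin s))
    {G G' : SimpleGraph (Fin n)} (hG : G ≤ G') (k : ℕ) (i : Fin s) :
    HB_it κ B G k i → HB_it κ B G' k i := by
  induction k generalizing i with
  | zero => exact fun h => h
  | succ k ih =>
    unfold HB_it
    cases κ i with
    | arb => exact fun h => h
    | inp u v => exact fun h => hG h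
    | and a b => exact fun h => ⟨ih a h.1, ih b h.2⟩
    | or S =>
      rintro ⟨a, ha, h⟩
      exact ⟨a, ha, ih a h⟩

private theorem HB_agree {n s r t : ℕ} {C : Circuit n s r t} {κ : Fin s → HB_K n s}
    (hκ : ∀ i, HB_spec C i (κ i)) (B : Finset (Fin s)) (G : SimpleGraph (Fin n)) (m : ℕ) :
    ∀ i : Fin s, (i : ℕ) = m → (∀ j ∈ C.arb, j ≤ i → (j ∈ B ↔ C.fn j G)) →
      (HB_it κ B G s i ↔ C.fn i G) := by
  induction m using Nat.strong_induction_on with
  | _ m ih =>
    intro i hi hB
    have hlt : ∀ a : Fin s, a < i → (HB_it κ B G s a ↔ C.fn a G) := by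
      intro a ha
      have ha' : (a : ℕ) < i := ha
      exact ih a (by omega) a rfl fun j hj hja => hB j hj (hja.trans ha.le)
    have hs := hκ i
    rw [HB_fix hκ]
    cases hc : κ i with
    | arb =>
      rw [hc] at hs
      exact hB i hs le_rfl
    | inp u v =>
      rw [hc] at hs
      exact (hs.2 G).symm
    | and a b =>
      rw [hc] at hs
      obtain ⟨-, h1, h2, h3⟩ := hs
      show (HB_it κ B G s a ∧ HB_it κ B G s b) ↔ _
      rw [h3 G, hlt a h1, hlt b h2]
    | or S =>
      rw [hc] at hs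
      obtain ⟨-, h1, h2⟩ := hs
      show (∃ a ∈ S, HB_it κ B G s a) ↔ _
      rw [h2 G]
      constructor
      · rintro ⟨a, ha, h3⟩
        exact ⟨a, ha, (hlt a (h1 a ha)).1 h3⟩
      · rintro ⟨a, ha, h3⟩
        exact ⟨a, ha, (hlt a (h1 a ha)).2 h3⟩

open Classical in
private noncomputable def HB_mk {n s : ℕ} (B : Finset (Fin s)) (g0 : Finset (Finset (Fin n)))
    (i : Fin s) : HB_K n s → MK n s
  | .arb => MK.const (i ∈ B)
  | .inp u v => if u = v then MK.const False else
      if ({u, v} : Finset (Fin n)) ∈ g0 then MK.const True else MK.inp {u, v}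
  | .and a b => MK.and a b
  | .or S => MK.or S

theorem freeze {n s r t : ℕ} (C : Circuit n s r t) :
    ∃ (H : Finset (Fin s) → SimpleGraph (Fin n) → Fin s → Prop) (I : Finset (Fin s)),
      I.card ≤ r * t + 1 ∧
      (∀ B G G' i, G ≤ G' → H B G i → H B G' i) ∧
      (∀ G G', G ≤ G' → ¬ C.fn C.out G → C.fn C.out G' →
        ∃ B ∈ C.arb.powerset, ∃ a ∈ I, ¬ H B G a ∧ H B G' a) ∧
      (∀ B (g0 : Finset (Finset (Fin n))), ∃ κ : Fin s → MK n s, (∀ i, (κ i).Ok i) ∧
        ∀ i x, H B (gr (g0 ∪ x)) i ↔ (κ i).st (fun a => H B (gr (g0 ∪ x)) a) x) := by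
  classical
  choose κ hκ using HB_exists_kind C
  have hT : ∀ i, ∃ T : Finset (Fin s), i ∈ C.arb → T.card ≤ t ∧ (∀ a ∈ T, a < i) ∧
      ∀ G H, (∀ a ∈ T, (C.fn a G ↔ C.fn a H)) → (C.fn i G ↔ C.fn i H) := by
    intro i
    by_cases hi : i ∈ C.arb
    · obtain ⟨T, h⟩ := C.arb_gate i hi
      exact ⟨T, fun _ => h⟩
    · exact ⟨∅, fun h => absurd h hi⟩
  choose T hT using hT
  refine ⟨fun B G i => HB_it κ B G s i, insert C.out (C.arb.biUnion T), ?_, ?_, ?_, ?_⟩
  · refine (Finset.card_insert_le _ _).trans (Nat.add_le_add_right ?_ 1)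
    refine Finset.card_biUnion_le.trans ?_
    calc ∑ i ∈ C.arb, (T i).card ≤ ∑ i ∈ C.arb, t :=
          Finset.sum_le_sum fun i hi => (hT i hi).1
      _ = C.arb.card * t := by rw [Finset.sum_const, smul_eq_mul]
      _ ≤ r * t := Nat.mul_le_mul_right t C.card_arb
  · intro B G G' i hG
    exact HB_mono κ B hG s i
  · intro G G' hG h0 h1
    refine ⟨C.arb.filter (fun j => C.fn j G), Finset.mem_powerset.2 (Finset.filter_subset _ _),
      ?_⟩
    set B := C.arb.filter (fun j => C.fn j G) with hB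
    have hBG : ∀ j ∈ C.arb, (j ∈ B ↔ C.fn j G) := by
      intro j hj
      rw [hB, Finset.mem_filter]
      exact ⟨fun h => h.2, fun h => ⟨hj, h⟩⟩
    by_cases hall : ∀ j ∈ C.arb, (C.fn j G ↔ C.fn j G')
    · refine ⟨C.out, Finset.mem_insert_self _ _, ?_, ?_⟩
      · exact fun h => h0 ((HB_agree hκ B G _ C.out rfl fun j hj _ => hBG j hj).1 h)
      · exact (HB_agree hκ B G' _ C.out rfl fun j hj _ => (hBG j hj).trans (hall j hj)).2 h1
    · have hne : (C.arb.filter (fun j => ¬ (C.fn j G ↔ C.fn j G'))).Nonempty := by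
        push Not at hall
        obtain ⟨j, hj, hj'⟩ := hall
        refine ⟨j, Finset.mem_filter.2 ⟨hj, ?_⟩⟩
        rcases hj' with ⟨h2, h3⟩ | ⟨h2, h3⟩
        · exact fun h => h3 (h.1 h2)
        · exact fun h => h2 (h.2 h3)
      obtain ⟨i, hi, hmin⟩ := Finset.exists_min_image _ (fun j : Fin s => j) hne
      rw [Finset.mem_filter] at hi
      obtain ⟨t1, t2, t3⟩ := hT i hi.1
      obtain ⟨a, haT, ha⟩ : ∃ a ∈ T i, ¬ (C.fn a G ↔ C.fn a G') := by
        by_contra hcon
        push Not at hcon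
        apply hi.2
        apply t3
        intro a ha
        have h4 := hcon a ha
        rcases Classical.em (C.fn a G) with h5 | h5 <;>
          rcases Classical.em (C.fn a G') with h6 | h6 <;> simp_all
      have hai : a < i := t2 a haT
      have hsame : ∀ j ∈ C.arb, j ≤ a → (C.fn j G ↔ C.fn j G') := by
        intro j hj hja
        by_contra hcon
        have h7 := hmin j (Finset.mem_filter.2 ⟨hj, hcon⟩)
        exact absurd (h7.trans hja) (not_le.2 hai)
      have e1 := HB_agree hκ B G _ a rfl fun j hj _ => hBG j hj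
      have e2 := HB_agree hκ B G' _ a rfl fun j hj hja => (hBG j hj).trans (hsame j hj hja)
      have e3 := HB_mono κ B hG s a
      refine ⟨a, Finset.mem_insert_of_mem (Finset.mem_biUnion.2 ⟨i, hi.1, haT⟩), ?_, ?_⟩
      · intro h4
        exact ha ⟨fun _ => e2.1 (e3 h4), fun _ => e1.1 h4⟩
      · by_contra h4
        apply ha
        constructor
        · intro h5
          exact absurd (e3 (e1.2 h5)) h4
        · intro h5
          exact absurd (e2.2 h5) h4
  · intro B g0
    refine ⟨fun i => HB_mk B g0 i (κ i), ?_, ?_⟩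
    · intro i
      have hs := hκ i
      show (HB_mk B g0 i (κ i)).Ok i
      cases hc : κ i with
      | arb => exact trivial
      | inp u v =>
        unfold HB_mk
        simp only
        split_ifs with h1 h2
        · exact trivial
        · exact trivial
        · exact Finset.card_pair h1
      | and a b =>
        rw [hc] at hs
        exact ⟨hs.2.1, hs.2.2.1⟩
      | or S =>
        rw [hc] at hs
        exact hs.2.1
    · intro i x
      show HB_it κ B (gr (g0 ∪ x)) s i ↔
        (HB_mk B g0 i (κ i)).st (fun a => HB_it κ B (gr (g0 ∪ x)) s a) x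
      rw [HB_fix hκ]
      cases hc : κ i with
      | arb => exact Iff.rfl
      | inp u v =>
        show (gr (g0 ∪ x)).Adj u v ↔ _
        unfold HB_mk
        simp only
        split_ifs with h1 h2
        · exact ⟨fun h => h.1 h1, fun h => h.elim⟩
        · exact ⟨fun _ => trivial, fun _ => ⟨h1, Finset.mem_union_left _ h2⟩⟩
        · constructor
          · intro h
            exact (Finset.mem_union.1 h.2).resolve_left h2
          · intro h
            exact ⟨h1, Finset.mem_union_right _ h⟩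
      | and a b => exact Iff.rfl
      | or S => exact Iff.rfl

end Pool.Agent.H29.NL
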