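/-
UNI : the union of all the blocks is probably free of l-cliques.

PROOF.  xx ω M contains e iff ∃ m ρ, (ω m ρ e : ℕ) = 0 (m < M is automatic).  The event is contained in
⋃_{U : card U = l} ⋃_{c} {ω | ∀ e ∈ EE U, (ω (c e).1 (c e).2 e : ℕ) = 0}, where U runs through univ.filter (card = l) (= powersetCard l univ,
of cardinality n.choose l: Finset.card_powersetCard, card_univ, Fintype.card_fin) and c through the functions on the finset EE U with values
in Fin M × Fin R.  To have finitely many c of the right number ((M * R)^card (EE U)) use, for each U, the type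
{e // e ∈ EE U} → Fin M × Fin R (Fintype, cardinality (M * R)^(card (EE U))), extended by an arbitrary value outside EE U; if M * R = 0 and
l.choose 2 > 0 there is no e in xx ω M and EE U is not empty, so the event is empty; if l.choose 2 = 0 the bound is n.choose l * 1 (one c
only: the union bound over U with pr_le_one is enough).
Union bound pr_exists_le twice and pr_cyl3: each event has probability (1/Q)^(card (EE U)), card (EE U) = l.choose 2 (card_powersetCard).
Sum: n.choose l * (M*R)^(l.choose 2) * (1/Q)^(l.choose 2).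
-/
import Pool.Agent.H29.NL.CYL

set_option autoImplicit false

namespace Pool.Agent.H29.NL

open Finset

theorem UNI_mem {n Q R M : ℕ} {ω : Fin M → Rnd n Q R} {e : Finset (Fin n)} (h : e ∈ xx ω M) :
    ∃ c : Fin M × Fin R, (ω c.1 c.2 e : ℕ) = 0 := by
  unfold xx at h
  rw [mem_filter] at h
  obtain ⟨-, m, -, hm⟩ := h
  unfold dset at hm
  rw [mem_filter] at hm
  obtain ⟨-, ρ, hρ⟩ := hm
  exact ⟨(m, ρ), hρ⟩

theorem UNI_false {Ω : Type*} [Fintype Ω] {p : Ω → Prop} (h : ∀ ω, ¬ p ω) : pr p ≤ 0 := by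
  have h1 := pr_exists_le (Ω := Ω) (∅ : Finset ℕ) (fun _ _ => True)
  rw [sum_empty] at h1
  exact (pr_mono fun ω hω => absurd hω (h ω)).trans h1

theorem UNI_U {n Q R M : ℕ} (hQ : 0 < Q) {l : ℕ} {U : Finset (Fin n)} (hU : U.card = l) :
    pr (fun ω : Fin M → Rnd n Q R => EE U ⊆ xx ω M) ≤ (((M : ℝ) * R) / Q) ^ (l.choose 2) := by
  have hcard : (EE U).card = l.choose 2 := by rw [EE, card_powersetCard, hU]
  have hnn : (0 : ℝ) ≤ (((M : ℝ) * R) / Q) ^ (l.choose 2) := by positivity
  by_cases hne : Nonempty (Fin M × Fin R)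
  · obtain ⟨d⟩ := hne
    have h1 : pr (fun ω : Fin M → Rnd n Q R => EE U ⊆ xx ω M) ≤
        pr (fun ω : Fin M → Rnd n Q R => ∃ c ∈ (univ : Finset ({e // e ∈ EE U} → Fin M × Fin R)),
          ∀ e ∈ EE U, (ω ((fun e => if h : e ∈ EE U then c ⟨e, h⟩ else d) e).1
            ((fun e => if h : e ∈ EE U then c ⟨e, h⟩ else d) e).2 e : ℕ) = 0) := by
      refine pr_mono fun ω hω => ?_
      choose c hc using fun e : {e // e ∈ EE U} => UNI_mem (hω e.2)
      refine ⟨c, mem_univ c, fun e he => ?_⟩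
      simp only [dif_pos he]
      exact hc ⟨e, he⟩
    refine h1.trans ((pr_exists_le _ _).trans ?_)
    rw [Finset.sum_congr rfl (fun c _ => pr_cyl3 hQ (EE U)
      (fun e => if h : e ∈ EE U then c ⟨e, h⟩ else d))]
    rw [sum_const, card_univ, Fintype.card_fun, Fintype.card_prod, Fintype.card_fin,
      Fintype.card_fin, Fintype.card_coe, hcard, nsmul_eq_mul]
    push_cast
    rw [← mul_pow, mul_one_div]
  · by_cases h0 : l.choose 2 = 0
    · rw [h0, pow_zero]
      exact pr_le_one _
    · refine le_trans (UNI_false fun ω hω => ?_) hnn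
      have h2 : (EE U).Nonempty := by
        rw [← card_pos, hcard]
        exact Nat.pos_of_ne_zero h0
      obtain ⟨e, he⟩ := h2
      obtain ⟨c, -⟩ := UNI_mem (hω he)
      exact hne ⟨c⟩

theorem pr_clique_le {n Q R M : ℕ} (hQ : 0 < Q) (l : ℕ) :
    pr (fun ω : Fin M → Rnd n Q R => ∃ U : Finset (Fin n), U.card = l ∧ EE U ⊆ xx ω M)
      ≤ (n.choose l : ℝ) * (((M : ℝ) * R) / Q) ^ (l.choose 2) := by
  have h1 : pr (fun ω : Fin M → Rnd n Q R => ∃ U : Finset (Fin n), U.card = l ∧ EE U ⊆ xx ω M) ≤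
      pr (fun ω : Fin M → Rnd n Q R => ∃ U ∈ powersetCard l (univ : Finset (Fin n)),
        EE U ⊆ xx ω M) := by
    refine pr_mono fun ω hω => ?_
    obtain ⟨U, hU, h⟩ := hω
    exact ⟨U, mem_powersetCard_univ.2 hU, h⟩
  refine h1.trans ((pr_exists_le _ _).trans ?_)
  refine (Finset.sum_le_card_nsmul _ _ ((((M : ℝ) * R) / Q) ^ (l.choose 2)) fun U hU => ?_).trans ?_
  · exact UNI_U hQ (mem_powersetCard_univ.1 hU)
  · rw [card_powersetCard, card_univ, Fintype.card_fin, nsmul_eq_mul]

end Pool.Agent.H29.NL
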