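/-
MST : the master inequality.

PROOF.  H, I from freeze C.  Sample space Ω := (Fin M → Rnd n Q R) × KK n k (uniform, nonempty: Q > 0, k ≤ n).  τ := s EM + s EP + EZ ≥ 0.
(1) pr over Ω of {xx z.1 M has an l-clique} ≤ 1/2: pr_fst_le, pr_clique_le and hU.  So by `chain`:
 1 = pr (True) ≤ 1/2 + Σ_{i : Fin M} Σ_{B ∈ arb.powerset} Σ_{a ∈ I} pr (z ↦ ¬ H B (gr (xx z.1 i ∪ dset (z.1 i))) a ∧ H B (gr (xx z.1 i ∪ EE z.2)) a)
 (pr_mono, pr_or_le, pr_exists_le).
(2) each of these probabilities is ≤ τ: pr_update_le at the coordinate i: for fixed ω and z : Rnd × KK, xx (update ω i z.1) i = xx ω i (only the blocks m < i matter) =: g0,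
 and (update ω i z.1) i = z.1; take κ from freeze (d) for B and g0, h a x := H B (gr (g0 ∪ x)) a; approx_bound gives
 pr (z ↦ ¬ h a (dset z.1) ∧ h a (EE z.2)) ≤ τ.
(3) the number of terms is ≤ M * (2^r * (r t + 1)) ≤ M * M (card_powerset, card arb ≤ r).  So 1/2 ≤ M^2 τ.
-/
import Pool.Agent.H29.NL.APB
import Pool.Agent.H29.NL.UNI
import Pool.Agent.H29.NL.HB
import Pool.Agent.H29.NL.CHN

set_option autoImplicit false

namespace Pool.Agent.H29.NL

open Finset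

theorem MST_true {Ω : Type*} [Fintype Ω] [Nonempty Ω] : pr (fun _ : Ω => True) = 1 := by
  have h0 : pr (fun _ : Ω => False) = 0 := by
    apply le_antisymm _ (pr_nonneg _)
    have h1 := pr_exists_le (Ω := Ω) (∅ : Finset ℕ) (fun _ _ => True)
    rw [sum_empty] at h1
    exact (pr_mono fun ω hω => absurd hω not_false).trans h1
  have h2 := pr_not (fun _ : Ω => False)
  rw [h0, sub_zero] at h2
  rw [← h2]
  exact pr_congr fun ω => by simp

theorem MST_xx {n Q R M : ℕ} (ω : Fin M → Rnd n Q R) (i : Fin M) (z : Rnd n Q R) :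
    xx (Function.update ω i z) (i : ℕ) = xx ω (i : ℕ) := by
  unfold xx
  apply filter_congr
  intro e _
  constructor
  · rintro ⟨m, hm, he⟩
    refine ⟨m, hm, ?_⟩
    rwa [Function.update_of_ne (by rintro rfl; exact lt_irrefl _ hm)] at he
  · rintro ⟨m, hm, he⟩
    refine ⟨m, hm, ?_⟩
    rwa [Function.update_of_ne (by rintro rfl; exact lt_irrefl _ hm)]

theorem master {n s r t k l q Q R M : ℕ} (C : Circuit n s r t) (hC : C.Separates k l)
    (hQ : 0 < Q) (hq : 2 ≤ q) (hn : 0 < n) (hk1 : 1 ≤ k) (hk : k ≤ n) (hQn : Q ^ (q - 1) ≤ n)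
    (hM : 2 ^ r * (r * t + 1) ≤ M)
    (hU : (n.choose l : ℝ) * (((M : ℝ) * R) / Q) ^ (l.choose 2) ≤ 1 / 2) :
    1 / 2 ≤ (M : ℝ) ^ 2 * (s * EM n q R + s * EP n k q Q + EZ n k q Q) := by
  obtain ⟨H, I, hI, hmono, hsep, hkind⟩ := freeze C
  have : Nonempty (Fin Q) := ⟨⟨0, hQ⟩⟩
  have : Nonempty (KK n k) := by
    obtain ⟨K, -, hK⟩ := Finset.exists_subset_card_eq (s := (univ : Finset (Fin n))) (n := k)
      (by rw [card_univ, Fintype.card_fin]; exact hk)
    exact ⟨⟨K, hK⟩⟩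
  obtain ⟨τ, hτ⟩ : ∃ τ : ℝ, τ = s * EM n q R + s * EP n k q Q + EZ n k q Q := ⟨_, rfl⟩
  have hτ0 : 0 ≤ τ := by
    rw [hτ]
    unfold EM EP EZ
    positivity
  rw [← hτ]
  obtain ⟨P, hP⟩ : ∃ P : Fin M × Finset (Fin s) × Fin s → (Fin M → Rnd n Q R) × KK n k → Prop,
      P = fun x z => ¬ H x.2.1 (gr (xx z.1 (x.1 : ℕ) ∪ dset (z.1 x.1))) x.2.2 ∧
        H x.2.1 (gr (xx z.1 (x.1 : ℕ) ∪ EE z.2.1)) x.2.2 := ⟨_, rfl⟩
  have hterm : ∀ x, pr (P x) ≤ τ := by
    rintro ⟨i, B, a⟩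
    refine pr_update_le i (P (i, B, a)) hτ0 fun ω => ?_
    obtain ⟨κ, hκ, hκ2⟩ := hkind B (xx ω (i : ℕ))
    have h1 := approx_bound (R := R) hQ hq hn hk1 hk hQn κ hκ
      (fun a x => H B (gr (xx ω (i : ℕ) ∪ x)) a) (fun i' x => hκ2 i' x) a
    rw [← hτ] at h1
    refine (pr_mono fun z hz => ?_).trans h1
    rw [hP] at hz
    simp only [MST_xx, Function.update_self] at hz
    exact hz
  have h1 : (1 : ℝ) ≤ 1 / 2 + pr (fun z : (Fin M → Rnd n Q R) × KK n k =>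
      ∃ x ∈ (univ : Finset (Fin M)) ×ˢ C.arb.powerset ×ˢ I, P x z) := by
    have h0 := MST_true (Ω := (Fin M → Rnd n Q R) × KK n k)
    have h2 : pr (fun _ : (Fin M → Rnd n Q R) × KK n k => True) ≤
        pr (fun z : (Fin M → Rnd n Q R) × KK n k =>
          (∃ U : Finset (Fin n), U.card = l ∧ EE U ⊆ xx z.1 M) ∨
          ∃ x ∈ (univ : Finset (Fin M)) ×ˢ C.arb.powerset ×ˢ I, P x z) := by
      refine pr_mono fun z _ => ?_
      by_cases hf : ∃ U : Finset (Fin n), U.card = l ∧ EE U ⊆ xx z.1 M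
      · exact Or.inl hf
      · obtain ⟨i, B, hB, a, ha, h3, h4⟩ := chain C hC H I hI hM hmono hsep z.1 hf z.2
        refine Or.inr ⟨(i, B, a), ?_, ?_⟩
        · rw [mem_product, mem_product]
          exact ⟨mem_univ _, hB, ha⟩
        · rw [hP]
          exact ⟨h3, h4⟩
    refine h0.ge.trans (h2.trans ((pr_or_le _ _).trans ?_))
    refine add_le_add ?_ le_rfl
    refine (pr_fst_le (fun ω : Fin M → Rnd n Q R =>
      ∃ U : Finset (Fin n), U.card = l ∧ EE U ⊆ xx ω M) _ (fun z hz => hz)).trans ?_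
    exact (pr_clique_le hQ l).trans hU
  have h2 : pr (fun z : (Fin M → Rnd n Q R) × KK n k =>
      ∃ x ∈ (univ : Finset (Fin M)) ×ˢ C.arb.powerset ×ˢ I, P x z) ≤ (M : ℝ) ^ 2 * τ := by
    refine (pr_exists_le _ _).trans ?_
    refine (Finset.sum_le_card_nsmul _ _ τ fun x _ => hterm x).trans ?_
    rw [nsmul_eq_mul]
    refine mul_le_mul_of_nonneg_right ?_ hτ0
    have h3 : ((univ : Finset (Fin M)) ×ˢ C.arb.powerset ×ˢ I).card ≤ M ^ 2 := by
      rw [card_product, card_product, card_univ, Fintype.card_fin, card_powerset, pow_two]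
      refine Nat.mul_le_mul_left _ (le_trans ?_ hM)
      exact Nat.mul_le_mul (Nat.pow_le_pow_right (by norm_num) C.card_arb) hI
    exact_mod_cast h3
  linarith

end Pool.Agent.H29.NL
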