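/-
FIN : the theorem.

PROOFS.
* lower: n₀ from `asymp`; if s < n^E then (s ≥ 1 because C.out : Fin s) asymp and master contradict each other.
* lower_c: c' := |c| + 2, μ := 1/(12 c'), l₀ := ⌈8 c'⌉₊ + 2.  Apply `lower` with μ' := 3 μ: for n with n^μ ≥ 2:  (t+1) 2^r ≤ (n^μ + 1) n^μ ≤ n^(3μ)
  (2^r ≤ 2^(μ logb 2 n) = n^μ, n^μ + 1 ≤ 2 n^μ ≤ n^(2μ)).  With m := l - 1 ≥ 8 c' and 6 μ = 1/(2c'):  m/(4 + 6 μ m) ≥ c' (⟺ m ≥ 4c' + m/2),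
  6 μ ≤ 1/4, so the exponent is ≥ c' - 1/2 - 1/4 > c and n^c < n^(exponent) ≤ s for n ≥ 2.
* no_family: apply lower_c to c + 1; k := max l₀ 2, l := k; for n large n^(c+1) < s ≤ f k * n^c, so n < f k for all large n: contradiction.
-/
import Pool.Agent.H29.NL.MST
import Pool.Agent.H29.NL.ASC

set_option autoImplicit false

namespace Pool.Agent.H29.NL

theorem lower (k l : ℕ) (μ : ℝ) (hl : 2 ≤ l) (hlk : l ≤ k) (hμ : 0 ≤ μ) :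
    ∃ n₀ : ℕ, ∀ n : ℕ, n₀ ≤ n → ∀ (s r t : ℕ) (C : Circuit n s r t),
      ((t : ℝ) + 1) * 2 ^ r ≤ (n : ℝ) ^ μ → C.Separates k l →
      (n : ℝ) ^ (((l : ℝ) - 1) / (4 + 2 * μ * ((l : ℝ) - 1)) - 1 / 2 - 2 * μ) ≤ s := by
  obtain ⟨n₀, h⟩ := asymp k l μ hl hlk hμ
  refine ⟨n₀, fun n hn s r t C hrt hC => ?_⟩
  by_contra hs
  have hs1 : 1 ≤ s := by
    have := C.out.2
    omega
  obtain ⟨q, Q, R, M, hQ, hq, hn0, hk, hQn, hM, hU, hlt⟩ := h n hn s r t hrt hs1 (not_le.mp hs)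
  exact absurd (master C hC hQ hq hn0 (by omega) hk hQn hM hU) (not_le.mpr hlt)

theorem lower_c (c : ℝ) : ∃ μ : ℝ, 0 < μ ∧ ∃ l₀ : ℕ, ∀ l k : ℕ, l₀ ≤ l → l ≤ k →
    ∃ n₀ : ℕ, ∀ n : ℕ, n₀ ≤ n → ∀ (s r t : ℕ) (C : Circuit n s r t),
      (r : ℝ) ≤ μ * Real.logb 2 n → (t : ℝ) ≤ (n : ℝ) ^ μ → C.Separates k l →
      (n : ℝ) ^ c < s := by
  obtain ⟨c', hc'⟩ : ∃ c' : ℝ, c' = |c| + 2 := ⟨_, rfl⟩
  have hc'2 : 2 ≤ c' := by rw [hc']; linarith [abs_nonneg c]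
  have hc'0 : 0 < c' := by linarith
  obtain ⟨μ, hμ⟩ : ∃ μ : ℝ, μ = 1 / (12 * c') := ⟨_, rfl⟩
  have hμ0 : 0 < μ := by rw [hμ]; positivity
  refine ⟨μ, hμ0, ⌈8 * c'⌉₊ + 2, fun l k hl hlk => ?_⟩
  obtain ⟨n₀, h⟩ := lower k l (3 * μ) (by omega) hlk (by positivity)
  have hev : ∀ᶠ n : ℕ in Filter.atTop, (2 : ℝ) ≤ (n : ℝ) ^ μ :=
    ((tendsto_rpow_atTop hμ0).comp tendsto_natCast_atTop_atTop).eventually_ge_atTop 2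
  obtain ⟨n₁, h₁⟩ := Filter.eventually_atTop.mp hev
  refine ⟨max n₀ (max n₁ 2), fun n hn s r t C hr ht hC => ?_⟩
  have hn0 : n₀ ≤ n := le_trans (le_max_left _ _) hn
  have hn1 : n₁ ≤ n := le_trans (le_trans (le_max_left _ _) (le_max_right _ _)) hn
  have hn2 : 2 ≤ n := le_trans (le_trans (le_max_right _ _) (le_max_right _ _)) hn
  have hnR : (2 : ℝ) ≤ n := by exact_mod_cast hn2
  have hnpos : (0 : ℝ) < n := by linarith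
  have h2 : (2 : ℝ) ≤ (n : ℝ) ^ μ := h₁ n hn1
  have hpos : 0 < (n : ℝ) ^ μ := by linarith
  have h2r : (2 : ℝ) ^ r ≤ (n : ℝ) ^ μ := by
    calc (2 : ℝ) ^ r = (2 : ℝ) ^ (r : ℝ) := (Real.rpow_natCast 2 r).symm
      _ ≤ (2 : ℝ) ^ (μ * Real.logb 2 n) := Real.rpow_le_rpow_of_exponent_le (by norm_num) hr
      _ = (n : ℝ) ^ μ := by
        rw [mul_comm, Real.rpow_mul (by norm_num), Real.rpow_logb (by norm_num) (by norm_num) hnpos]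
  have hrt : ((t : ℝ) + 1) * 2 ^ r ≤ (n : ℝ) ^ (3 * μ) := by
    have e : (n : ℝ) ^ (3 * μ) = (n : ℝ) ^ μ * (n : ℝ) ^ μ * (n : ℝ) ^ μ := by
      rw [← Real.rpow_add hnpos, ← Real.rpow_add hnpos]
      congr 1
      ring
    rw [e]
    refine mul_le_mul ?_ h2r (by positivity) (by positivity)
    nlinarith
  have hfin := h n hn0 s r t C hrt hC
  refine lt_of_lt_of_le ?_ hfin
  refine Real.rpow_lt_rpow_of_exponent_lt (by linarith) ?_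
  have hm : 8 * c' ≤ (l : ℝ) - 1 := by
    have h3 : (8 * c' : ℝ) ≤ (⌈8 * c'⌉₊ : ℝ) := Nat.le_ceil _
    have h4 : ((⌈8 * c'⌉₊ + 2 : ℕ) : ℝ) ≤ (l : ℝ) := by exact_mod_cast hl
    push_cast at h4
    linarith
  have hmpos : 0 < (l : ℝ) - 1 := by linarith
  have e6 : 2 * (3 * μ) = 1 / (2 * c') := by
    rw [hμ]
    field_simp
    norm_num
  have hden : 0 < 4 + 2 * (3 * μ) * ((l : ℝ) - 1) := by positivity
  have hq : c' ≤ ((l : ℝ) - 1) / (4 + 2 * (3 * μ) * ((l : ℝ) - 1)) := by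
    rw [le_div_iff₀ hden, e6]
    have e7 : c' * (4 + 1 / (2 * c') * ((l : ℝ) - 1)) = 4 * c' + ((l : ℝ) - 1) / 2 := by
      field_simp
    rw [e7]
    linarith
  have hsmall : 2 * (3 * μ) ≤ 1 / 4 := by
    rw [e6]
    exact one_div_le_one_div_of_le (by norm_num) (by linarith)
  have := le_abs_self c
  linarith

theorem no_family (c : ℝ) : ∃ μ : ℝ, 0 < μ ∧ ∀ f : ℕ → ℝ, ¬ ∀ k n : ℕ,
    ∃ (s r t : ℕ) (C : Circuit n s r t), (r : ℝ) ≤ μ * Real.logb 2 n ∧ (t : ℝ) ≤ (n : ℝ) ^ μ ∧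
      (s : ℝ) ≤ f k * (n : ℝ) ^ c ∧ C.Separates k k := by
  obtain ⟨μ, hμ, l₀, h⟩ := lower_c (c + 1)
  refine ⟨μ, hμ, fun f hf => ?_⟩
  obtain ⟨n₀, h₀⟩ := h l₀ l₀ le_rfl le_rfl
  obtain ⟨s, r, t, C, hr, ht, hs, hC⟩ := hf l₀ (max n₀ (⌈|f l₀|⌉₊ + 1))
  have h1 := h₀ _ (le_max_left _ _) s r t C hr ht hC
  obtain ⟨n, hn⟩ : ∃ n : ℕ, n = max n₀ (⌈|f l₀|⌉₊ + 1) := ⟨_, rfl⟩
  rw [← hn] at h1 hs
  have hge : ⌈|f l₀|⌉₊ + 1 ≤ n := by rw [hn]; exact le_max_right _ _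
  have hgeR : ((⌈|f l₀|⌉₊ + 1 : ℕ) : ℝ) ≤ (n : ℝ) := by exact_mod_cast hge
  have hc1 : |f l₀| ≤ (⌈|f l₀|⌉₊ : ℝ) := Nat.le_ceil _
  push_cast at hgeR
  have hnpos : (0 : ℝ) < n := by linarith [abs_nonneg (f l₀)]
  rw [Real.rpow_add hnpos, Real.rpow_one] at h1
  have h3 : (n : ℝ) ^ c * n < (n : ℝ) ^ c * f l₀ := by
    refine lt_of_lt_of_le h1 (hs.trans (le_of_eq (mul_comm _ _)))
  have h4 : (n : ℝ) < f l₀ := lt_of_mul_lt_mul_left h3 (Real.rpow_nonneg hnpos.le _)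
  linarith [le_abs_self (f l₀)]

theorem no_family' (c : ℝ) : ∃ μ : ℝ, 0 < μ ∧ ∀ f : ℕ → ℝ, ∃ k n₀ : ℕ, ∀ n : ℕ, n₀ ≤ n →
    ∀ (s r t : ℕ) (C : Circuit n s r t), (r : ℝ) ≤ μ * Real.logb 2 n → (t : ℝ) ≤ (n : ℝ) ^ μ →
      C.Separates k k → f k * (n : ℝ) ^ c < s := by
  obtain ⟨μ, hμ, l₀, h⟩ := lower_c (c + 1)
  refine ⟨μ, hμ, fun f => ?_⟩
  obtain ⟨n₀, h₀⟩ := h l₀ l₀ le_rfl le_rfl
  refine ⟨l₀, max n₀ (⌈|f l₀|⌉₊ + 1), fun n hn s r t C hr ht hC => ?_⟩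
  have h1 := h₀ n (le_trans (le_max_left _ _) hn) s r t C hr ht hC
  have hge : ⌈|f l₀|⌉₊ + 1 ≤ n := le_trans (le_max_right _ _) hn
  have hgeR : ((⌈|f l₀|⌉₊ + 1 : ℕ) : ℝ) ≤ (n : ℝ) := by exact_mod_cast hge
  have hc1 : |f l₀| ≤ (⌈|f l₀|⌉₊ : ℝ) := Nat.le_ceil _
  push_cast at hgeR
  have hnpos : (0 : ℝ) < n := by linarith [abs_nonneg (f l₀)]
  rw [Real.rpow_add hnpos, Real.rpow_one, mul_comm] at h1
  refine lt_of_le_of_lt ?_ h1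
  refine mul_le_mul_of_nonneg_right ?_ (Real.rpow_nonneg hnpos.le _)
  linarith [le_abs_self (f l₀)]

end Pool.Agent.H29.NL
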