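import Mathlib
import Pool.Agent.H29.NL.FIN

/-!
# k-CLIQUE and circuits with few arbitrary gates (MP_ba3460)

Circuits of unrestricted depth made of inputs, AND gates of fan-in two, OR gates of unbounded
fan-in and at most `r` gates computing arbitrary (non-monotone) Boolean functions of at most `t`
earlier gates (for example NOT gates, `t = 1`).  If `(t + 1) 2 ^ r ≤ n ^ μ`, such a circuit needs
`n ^ (L / (4 + 2 μ L) - 1 / 2 - 2 μ)` gates, `L = l - 1`, to separate the graphs with a `k`-clique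
from the graphs without an `l`-clique, whatever `k ≥ l`.
-/

namespace Pool.Agent.H29.NL.FewArbitraryGates

section Gates

variable {n s : ℕ}

/-- Gate `i` tests whether two vertices are adjacent. -/
def IsInput (fn : Fin s → SimpleGraph (Fin n) → Prop) (i : Fin s) : Prop :=
  ∃ u v : Fin n, ∀ G, fn i G ↔ G.Adj u v

/-- Gate `i` is the AND of two earlier gates. -/
def IsAnd (fn : Fin s → SimpleGraph (Fin n) → Prop) (i : Fin s) : Prop :=
  ∃ a b : Fin s, a < i ∧ b < i ∧ ∀ G, fn i G ↔ fn a G ∧ fn b G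

/-- Gate `i` is the OR of a set of earlier gates. -/
def IsOr (fn : Fin s → SimpleGraph (Fin n) → Prop) (i : Fin s) : Prop :=
  ∃ S : Finset (Fin s), (∀ a ∈ S, a < i) ∧ ∀ G, fn i G ↔ ∃ a ∈ S, fn a G

/-- Gate `i` is an arbitrary function of at most `t` earlier gates: its value only depends on the
values of the gates of a set `T` with at most `t` elements. -/
def IsArb (t : ℕ) (fn : Fin s → SimpleGraph (Fin n) → Prop) (i : Fin s) : Prop :=
  ∃ T : Finset (Fin s), T.card ≤ t ∧ (∀ a ∈ T, a < i) ∧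
    ∀ G H, (∀ a ∈ T, (fn a G ↔ fn a H)) → (fn i G ↔ fn i H)

end Gates

/-- A circuit with `s` gates on the graphs with vertex set `Fin n`: `fn i G` is the value of gate
`i` at the graph `G`; at most `r` gates (those of `arb`) are arbitrary functions of at most `t`
earlier gates, the others are inputs, ANDs of two earlier gates or ORs of sets of earlier gates. -/
structure Circuit (n s r t : ℕ) where
  fn : Fin s → SimpleGraph (Fin n) → Prop
  out : Fin s
  arb : Finset (Fin s)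
  card_arb : arb.card ≤ r
  gate : ∀ i, i ∉ arb → IsInput fn i ∨ IsAnd fn i ∨ IsOr fn i
  arb_gate : ∀ i ∈ arb, IsArb t fn i

/-- The circuit accepts all the graphs with a `k`-clique and rejects all the graphs without an
`l`-clique (for `k = l`: it decides `k`-CLIQUE). -/
def Circuit.Separates {n s r t : ℕ} (C : Circuit n s r t) (k l : ℕ) : Prop :=
  (∀ G : SimpleGraph (Fin n), ¬ G.CliqueFree k → C.fn C.out G) ∧
    ∀ G : SimpleGraph (Fin n), G.CliqueFree l → ¬ C.fn C.out G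

/-- The same circuit in the notation of the helper files. -/
def Circuit.conv {n s r t : ℕ} (C : Circuit n s r t) : Pool.Agent.H29.NL.Circuit n s r t where
  fn := C.fn
  out := C.out
  arb := C.arb
  card_arb := C.card_arb
  gate := C.gate
  arb_gate := C.arb_gate

/-- **Main result.**
(1) Let `2 ≤ l ≤ k`, `μ ≥ 0`.  For all large `n`, every circuit with at most `r` arbitrary gates
of fan-in at most `t`, where `(t + 1) 2 ^ r ≤ n ^ μ`, which separates the graphs with a
`k`-clique from those without an `l`-clique has at least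
`n ^ ((l - 1) / (4 + 2 μ (l - 1)) - 1 / 2 - 2 μ)` gates.
(2) For every `c` there are `μ > 0` and `l₀` such that for all `k ≥ l ≥ l₀` and all large `n`
every such circuit with at most `μ log₂ n` arbitrary gates of fan-in at most `n ^ μ` has more
than `n ^ c` gates.
(3) For every `c` there is `μ > 0` such that for every function `f` there is a `k` such that, for
all large `n`, every circuit of this kind deciding `k`-CLIQUE on `n`-vertex graphs has more than
`f k * n ^ c` gates. -/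
theorem result :
    (∀ (k l : ℕ) (μ : ℝ), 2 ≤ l → l ≤ k → 0 ≤ μ → ∃ n₀ : ℕ, ∀ n : ℕ, n₀ ≤ n →
      ∀ (s r t : ℕ) (C : Circuit n s r t), ((t : ℝ) + 1) * 2 ^ r ≤ (n : ℝ) ^ μ →
        C.Separates k l →
        (n : ℝ) ^ (((l : ℝ) - 1) / (4 + 2 * μ * ((l : ℝ) - 1)) - 1 / 2 - 2 * μ) ≤ s) ∧
    (∀ c : ℝ, ∃ μ : ℝ, 0 < μ ∧ ∃ l₀ : ℕ, ∀ l k : ℕ, l₀ ≤ l → l ≤ k → ∃ n₀ : ℕ, ∀ n : ℕ,
      n₀ ≤ n → ∀ (s r t : ℕ) (C : Circuit n s r t), (r : ℝ) ≤ μ * Real.logb 2 n →
        (t : ℝ) ≤ (n : ℝ) ^ μ → C.Separates k l → (n : ℝ) ^ c < s) ∧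
    ∀ c : ℝ, ∃ μ : ℝ, 0 < μ ∧ ∀ f : ℕ → ℝ, ∃ k n₀ : ℕ, ∀ n : ℕ, n₀ ≤ n →
      ∀ (s r t : ℕ) (C : Circuit n s r t), (r : ℝ) ≤ μ * Real.logb 2 n →
        (t : ℝ) ≤ (n : ℝ) ^ μ → C.Separates k k → f k * (n : ℝ) ^ c < s := by
  refine ⟨fun k l μ hl hlk hμ => ?_, fun c => ?_, fun c => ?_⟩
  · obtain ⟨n₀, h⟩ := Pool.Agent.H29.NL.lower k l μ hl hlk hμ
    exact ⟨n₀, fun n hn s r t C h1 h2 => h n hn s r t C.conv h1 h2⟩
  · obtain ⟨μ, hμ, l₀, h⟩ := Pool.Agent.H29.NL.lower_c c
    refine ⟨μ, hμ, l₀, fun l k hl hlk => ?_⟩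
    obtain ⟨n₀, h'⟩ := h l k hl hlk
    exact ⟨n₀, fun n hn s r t C h1 h2 h3 => h' n hn s r t C.conv h1 h2 h3⟩
  · obtain ⟨μ, hμ, h⟩ := Pool.Agent.H29.NL.no_family' c
    refine ⟨μ, hμ, fun f => ?_⟩
    obtain ⟨k, n₀, h'⟩ := h f
    exact ⟨k, n₀, fun n hn s r t C h1 h2 h3 => h' n hn s r t C.conv h1 h2 h3⟩

end Pool.Agent.H29.NL.FewArbitraryGates
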