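/-
SM : second moment (Cauchy-Schwarz).

PROOF.  N := card (ι → Fin Q) > 0.  For σ let f σ := Σ_{X ∈ S} [∀ e ∈ A X, (σ e : ℕ) = 0] (real, values 0/1 in the sum) and
g σ := [∃ X ∈ S, ∀ e ∈ A X, (σ e : ℕ) = 0].  f = f * g pointwise, g^2 = g.  Cauchy-Schwarz (Finset.sum_mul_sq_le_sq_mul_sq, or
inner_mul_le_norm_mul_norm style lemma `Finset.sum_mul_sq_le_sq_mul_sq s f g : (∑ f i * g i)^2 ≤ (∑ f i^2) * ∑ g i^2`):
(Σ_σ f)^2 ≤ (Σ f^2)(Σ g).  Divide by N^2: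
 Σ_σ f / N = Σ_X pr(∀ e ∈ A X, ..) = Σ_X (1/Q)^|A X|   (pr_cyl, Finset.sum_comm),
 Σ_σ f^2 / N = Σ_X Σ_X' pr(∀ e ∈ A X ∪ A X', ..) = Σ Σ (1/Q)^|A X ∪ A X'|  (product of indicators = indicator of the union),
 Σ_σ g / N = pr(∃ ...).
-/
import Pool.Agent.H29.NL.CYL

set_option autoImplicit false

namespace Pool.Agent.H29.NL

open Finset

private lemma SM_pr {Ω : Type*} [Fintype Ω] (p : Ω → Prop) [DecidablePred p] :
    pr p = (∑ ω, (if p ω then (1 : ℝ) else 0)) / (Fintype.card Ω : ℝ) := by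
  unfold pr
  congr 1
  rw [Finset.sum_boole]
  congr 2
  ext ω
  simp only [Finset.mem_filter]

theorem second_moment {ι κ : Type*} [Fintype ι] [DecidableEq ι] {Q : ℕ} (hQ : 0 < Q)
    (S : Finset κ) (A : κ → Finset ι) :
    (∑ X ∈ S, (1 / (Q : ℝ)) ^ (A X).card) ^ 2 ≤
      pr (fun σ : ι → Fin Q => ∃ X ∈ S, ∀ e ∈ A X, (σ e : ℕ) = 0) *
        ∑ X ∈ S, ∑ X' ∈ S, (1 / (Q : ℝ)) ^ (A X ∪ A X').card := by
  classical
  have : Nonempty (ι → Fin Q) := ⟨fun _ => ⟨0, hQ⟩⟩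
  obtain ⟨N, hN⟩ : ∃ N : ℝ, N = (Fintype.card (ι → Fin Q) : ℝ) := ⟨_, rfl⟩
  have hN0 : 0 < N := by
    rw [hN]
    exact_mod_cast Fintype.card_pos
  obtain ⟨F, hF⟩ : ∃ F : κ → (ι → Fin Q) → ℝ, F = fun X σ =>
      if ∀ e ∈ A X, (σ e : ℕ) = 0 then (1 : ℝ) else 0 := ⟨_, rfl⟩
  obtain ⟨g, hg⟩ : ∃ g : (ι → Fin Q) → ℝ, g = fun σ =>
      if ∃ X ∈ S, ∀ e ∈ A X, (σ e : ℕ) = 0 then (1 : ℝ) else 0 := ⟨_, rfl⟩
  have h1 : ∀ X, ∑ σ, F X σ = N * (1 / (Q : ℝ)) ^ (A X).card := by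
    intro X
    have := SM_pr (fun σ : ι → Fin Q => ∀ e ∈ A X, (σ e : ℕ) = 0)
    rw [pr_cyl hQ, ← hN, eq_div_iff hN0.ne'] at this
    rw [hF, mul_comm]
    exact this.symm
  have h2 : ∀ X X', ∑ σ, F X σ * F X' σ = N * (1 / (Q : ℝ)) ^ (A X ∪ A X').card := by
    intro X X'
    have := SM_pr (fun σ : ι → Fin Q => ∀ e ∈ A X ∪ A X', (σ e : ℕ) = 0)
    rw [pr_cyl hQ, ← hN, eq_div_iff hN0.ne'] at this
    rw [mul_comm, this, hF]
    refine Finset.sum_congr rfl fun σ _ => ?_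
    beta_reduce
    by_cases hX : ∀ e ∈ A X, (σ e : ℕ) = 0
    · by_cases hX' : ∀ e ∈ A X', (σ e : ℕ) = 0
      · rw [if_pos hX, if_pos hX', if_pos, mul_one]
        intro e he
        rcases Finset.mem_union.1 he with he | he
        · exact hX e he
        · exact hX' e he
      · rw [if_neg hX', mul_zero, if_neg]
        intro h
        exact hX' fun e he => h e (Finset.mem_union_right _ he)
    · rw [if_neg hX, zero_mul, if_neg]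
      intro h
      exact hX fun e he => h e (Finset.mem_union_left _ he)
  have h3 : ∑ σ, g σ = N * pr (fun σ : ι → Fin Q => ∃ X ∈ S, ∀ e ∈ A X, (σ e : ℕ) = 0) := by
    rw [SM_pr, ← hN, mul_div_cancel₀ _ hN0.ne', hg]
  have h4 : ∀ σ, (∑ X ∈ S, F X σ) * g σ = ∑ X ∈ S, F X σ := by
    intro σ
    by_cases h : ∃ X ∈ S, ∀ e ∈ A X, (σ e : ℕ) = 0
    · rw [hg]
      beta_reduce
      rw [if_pos h, mul_one]
    · have : ∑ X ∈ S, F X σ = 0 := by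
        refine Finset.sum_eq_zero fun X hX => ?_
        rw [hF]
        beta_reduce
        rw [if_neg]
        exact fun h' => h ⟨X, hX, h'⟩
      rw [this, zero_mul]
  have h5 : ∀ σ, g σ ^ 2 = g σ := by
    intro σ
    rw [hg]
    beta_reduce
    split_ifs <;> norm_num
  have hCS := Finset.sum_mul_sq_le_sq_mul_sq Finset.univ (fun σ => ∑ X ∈ S, F X σ) g
  simp only [h4, h5] at hCS
  have h6 : ∑ σ, ∑ X ∈ S, F X σ = N * ∑ X ∈ S, (1 / (Q : ℝ)) ^ (A X).card := by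
    rw [Finset.sum_comm, Finset.mul_sum]
    exact Finset.sum_congr rfl fun X _ => h1 X
  have h7 : ∑ σ, (∑ X ∈ S, F X σ) ^ 2 =
      N * ∑ X ∈ S, ∑ X' ∈ S, (1 / (Q : ℝ)) ^ (A X ∪ A X').card := by
    have e1 : ∀ σ, (∑ X ∈ S, F X σ) ^ 2 = ∑ X ∈ S, ∑ X' ∈ S, F X σ * F X' σ := by
      intro σ
      rw [pow_two, Finset.sum_mul_sum]
    simp only [e1]
    rw [Finset.sum_comm, Finset.mul_sum]
    refine Finset.sum_congr rfl fun X _ => ?_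
    rw [Finset.sum_comm, Finset.mul_sum]
    exact Finset.sum_congr rfl fun X' _ => h2 X X'
  rw [h6, h7, h3] at hCS
  have h8 : N ^ 2 * (∑ X ∈ S, (1 / (Q : ℝ)) ^ (A X).card) ^ 2 ≤
      N ^ 2 * (pr (fun σ : ι → Fin Q => ∃ X ∈ S, ∀ e ∈ A X, (σ e : ℕ) = 0) *
        ∑ X ∈ S, ∑ X' ∈ S, (1 / (Q : ℝ)) ^ (A X ∪ A X').card) := by
    calc N ^ 2 * (∑ X ∈ S, (1 / (Q : ℝ)) ^ (A X).card) ^ 2
        = (N * ∑ X ∈ S, (1 / (Q : ℝ)) ^ (A X).card) ^ 2 := by ring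
      _ ≤ _ := hCS
      _ = _ := by ring
  exact le_of_mul_le_mul_left h8 (pow_pos hN0 2)

end Pool.Agent.H29.NL
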