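/-
SPR : a spread family of j-sets above Y is hit by one round with probability at least 1/2.

PROOF.  y := card Y, m := j.choose 2 - y.choose 2 (y < j, so y.choose 2 ≤ j.choose 2), N := S.card, N ≥ bb q Q j y = (2q)^(j-y) Q^m ≥ 1.
Apply second_moment with ι := Finset (Fin n), A X := EE X \ EE Y (card m for X ∈ S by card_sdiff_EE): left side (N (1/Q)^m)^2.
For X, X' ∈ S let Z := X ∩ X' ⊇ Y, z := card Z; card (A X ∪ A X') = 2 C(j,2) - C(z,2) - C(y,2)  (card_union_sdiff_EE).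
For fixed X ∈ S:  Σ_{X' ∈ S} (1/Q)^{card(A X ∪ A X')} ≤ Σ_{T ⊆ X \ Y} #{X' ∈ S : Y ∪ T ⊆ X'} (1/Q)^(2 C(j,2) - C(y + card T, 2) - C(y,2))
(each X' is counted at least once, at T := (X ∩ X') \ Y, where Y ∪ T = X ∩ X'; all the terms are ≥ 0; use e.g. Finset.sum_le_sum after
writing the left side as a double sum over T with indicator, or Finset.sum_comm; or bound each X' term by Σ_T (if Y ∪ T ⊆ X' then .. else 0)
via single_le_sum).
Claim for every T ⊆ X \ Y, d := card T:  #{..} (1/Q)^(2 C(j,2) - C(y+d,2) - C(y,2)) ≤ N (1/Q)^(2m) * (1/(2q))^d: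
 * T = ∅: the count is N, exponent 2m. Equality.
 * 0 < d < j - y: Y ⊂ Y ∪ T, card = y + d < j, so the count is ≤ bb q Q j (y+d) = (2q)^(j-y-d) Q^(C(j,2) - C(y+d,2)); times the factor this is
   (2q)^(j-y-d) (1/Q)^m = (1/(2q))^d * (2q)^(j-y) (1/Q)^m ≤ (1/(2q))^d * N (1/Q)^(2m), because (2q)^(j-y) Q^m ≤ N.
 * d = j - y: Y ∪ T = X, X' ⊇ X and both have card j, so X' = X: the count is ≤ 1, exponent 2 C(j,2) - C(j,2) - C(y,2) = m; (1/Q)^m
   = (1/(2q))^d (2q)^(j-y) (1/Q)^m ≤ (1/(2q))^d N (1/Q)^(2m).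
Sum over T: Σ_T (1/(2q))^(card T) = (1 + 1/(2q))^(j-y) (Finset.sum_pow_mul_eq_add_pow or prod_one_add) ≤ 2: (1 + 1/(2q))^(j-y) ≤ (1+1/(2q))^q
≤ exp(1/2) ≤ 2 (Real.add_one_le_exp, or Bernoulli for (1 - 1/(2q+1))^q ≥ 1 - q/(2q+1) ≥ 1/2).
So the double sum is ≤ N * 2 N (1/Q)^(2m) = 2 (N (1/Q)^m)^2 and second_moment gives 1 ≤ 2 pr (N (1/Q)^m > 0).
-/
import Pool.Agent.H29.NL.SM
import Pool.Agent.H29.NL.EDG

set_option autoImplicit false

namespace Pool.Agent.H29.NL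

open Finset

private lemma SPR_two (q k : ℕ) (hq : 1 ≤ q) (hk : k ≤ q) :
    (1 + 1 / (2 * (q : ℝ))) ^ k ≤ 2 := by
  have hq0 : (0 : ℝ) < q := by exact_mod_cast hq
  have h1 : (1 + 1 / (2 * (q : ℝ))) ^ k ≤ (Real.exp (1 / (2 * (q : ℝ)))) ^ k := by
    apply pow_le_pow_left₀ (by positivity)
    have := Real.add_one_le_exp (1 / (2 * (q : ℝ)))
    linarith
  have h2 : (Real.exp (1 / (2 * (q : ℝ)))) ^ k = Real.exp (k * (1 / (2 * (q : ℝ)))) := by
    rw [← Real.exp_nat_mul]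
  have h3 : (k : ℝ) * (1 / (2 * (q : ℝ))) ≤ Real.log 2 := by
    have h4 : (k : ℝ) * (1 / (2 * (q : ℝ))) ≤ 1 / 2 := by
      have : (k : ℝ) ≤ q := by exact_mod_cast hk
      rw [mul_one_div, div_le_div_iff₀ (by positivity) (by norm_num)]
      linarith
    have := Real.log_two_gt_d9
    linarith
  calc (1 + 1 / (2 * (q : ℝ))) ^ k ≤ Real.exp (k * (1 / (2 * (q : ℝ)))) := by rw [← h2]; exact h1
    _ ≤ Real.exp (Real.log 2) := Real.exp_le_exp.2 h3
    _ = 2 := Real.exp_log (by norm_num)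

private lemma SPR_sum {α : Type*} (s : Finset α) (b : ℝ) :
    ∑ T ∈ s.powerset, b ^ T.card = (1 + b) ^ s.card := by
  have h := Finset.sum_pow_mul_eq_add_pow b (1 : ℝ) s
  simp only [one_pow, mul_one] at h
  rw [h, add_comm]

/-- The pure inequality for one `T`. -/
private lemma SPR_ineq (N c r Q : ℝ) (hr : 0 < r) (hQ : 0 < Q) (d k m p : ℕ) (hd : d ≤ k)
    (hN : r ^ k * Q ^ m ≤ N) (hc : c ≤ r ^ (k - d) * Q ^ p) :
    c * (1 / Q) ^ (p + m) ≤ N * (1 / Q) ^ (2 * m) * (1 / r) ^ d := by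
  have hQ' : Q ≠ 0 := hQ.ne'
  have hr' : r ≠ 0 := hr.ne'
  have h1 : c * (1 / Q) ^ (p + m) ≤ r ^ (k - d) * Q ^ p * (1 / Q) ^ (p + m) :=
    mul_le_mul_of_nonneg_right hc (by positivity)
  have h2 : r ^ k * Q ^ m * ((1 / Q) ^ (2 * m) * (1 / r) ^ d)
      ≤ N * ((1 / Q) ^ (2 * m) * (1 / r) ^ d) :=
    mul_le_mul_of_nonneg_right hN (by positivity)
  have h3 : r ^ (k - d) * Q ^ p * (1 / Q) ^ (p + m)
      = r ^ k * Q ^ m * ((1 / Q) ^ (2 * m) * (1 / r) ^ d) := by
    have e1 : r ^ k = r ^ (k - d) * r ^ d := by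
      rw [← pow_add, Nat.sub_add_cancel hd]
    rw [e1, pow_add, two_mul, pow_add]
    simp only [one_div, inv_pow]
    field_simp
  calc c * (1 / Q) ^ (p + m) ≤ r ^ (k - d) * Q ^ p * (1 / Q) ^ (p + m) := h1
    _ = r ^ k * Q ^ m * ((1 / Q) ^ (2 * m) * (1 / r) ^ d) := h3
    _ ≤ N * ((1 / Q) ^ (2 * m) * (1 / r) ^ d) := h2
    _ = N * (1 / Q) ^ (2 * m) * (1 / r) ^ d := by ring

theorem spread {n q Q j : ℕ} (hQ : 0 < Q) (hq : 1 ≤ q) (hj : j ≤ q) (Y : Finset (Fin n))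
    (hY : Y.card < j) (S : Finset (Finset (Fin n))) (hS : ∀ X ∈ S, X.card = j ∧ Y ⊆ X)
    (hbig : bb q Q j Y.card ≤ S.card)
    (hspr : ∀ Z : Finset (Fin n), Y ⊂ Z → Z.card < j →
      (S.filter fun X => Z ⊆ X).card ≤ bb q Q j Z.card) :
    1 / 2 ≤ pr (fun σ : Lab n Q => ∃ X ∈ S, ∀ e ∈ EE X \ EE Y, (σ e : ℕ) = 0) := by
  have hQR : (0 : ℝ) < Q := by exact_mod_cast hQ
  have hqR : (0 : ℝ) < q := by exact_mod_cast hq
  set y := Y.card with hy
  set N : ℝ := (S.card : ℝ) with hNdef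
  have hyc : y.choose 2 ≤ j.choose 2 := Nat.choose_le_choose 2 hY.le
  set m := j.choose 2 - y.choose 2 with hm
  have hbigR : (2 * (q : ℝ)) ^ (j - y) * (Q : ℝ) ^ m ≤ N := by
    have : ((bb q Q j y : ℕ) : ℝ) ≤ N := by rw [hNdef]; exact Nat.cast_le.2 hbig
    simpa [bb] using this
  have hNpos : 0 < N := lt_of_lt_of_le (by positivity) hbigR
  have hsm := second_moment (ι := Finset (Fin n)) hQ S (fun X => EE X \ EE Y)
  have hA : ∀ X ∈ S, (EE X \ EE Y).card = m := by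
    intro X hX
    rw [card_sdiff_EE (hS X hX).2, (hS X hX).1]
  have hl : ∑ X ∈ S, (1 / (Q : ℝ)) ^ (EE X \ EE Y).card = N * (1 / (Q : ℝ)) ^ m := by
    rw [Finset.sum_congr rfl (fun X hX => by rw [hA X hX])]
    rw [Finset.sum_const, nsmul_eq_mul]
  -- the inner sums
  have hin : ∀ X ∈ S, ∑ X' ∈ S, (1 / (Q : ℝ)) ^ ((EE X \ EE Y) ∪ (EE X' \ EE Y)).card
      ≤ 2 * N * (1 / (Q : ℝ)) ^ (2 * m) := by
    intro X hX
    obtain ⟨hXc, hYX⟩ := hS X hX
    set P := (X \ Y).powerset with hP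
    set ex : ℕ → ℕ := fun d => (j.choose 2 - (y + d).choose 2) + m with hex
    have step1 : ∀ X' ∈ S, (1 / (Q : ℝ)) ^ ((EE X \ EE Y) ∪ (EE X' \ EE Y)).card
        ≤ ∑ T ∈ P, (if Y ∪ T ⊆ X' then (1 / (Q : ℝ)) ^ (ex T.card) else 0) := by
      intro X' hX'
      obtain ⟨hX'c, hYX'⟩ := hS X' hX'
      have hT : (X ∩ X') \ Y ∈ P := by
        rw [hP, Finset.mem_powerset]
        exact Finset.sdiff_subset_sdiff Finset.inter_subset_left le_rfl
      have hYI : Y ⊆ X ∩ X' := Finset.subset_inter hYX hYX'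
      have hU : Y ∪ ((X ∩ X') \ Y) = X ∩ X' := Finset.union_sdiff_of_subset hYI
      have hcard : y + ((X ∩ X') \ Y).card = (X ∩ X').card := by
        rw [Finset.card_sdiff_of_subset hYI]
        have := Finset.card_le_card hYI
        omega
      have hzj : (X ∩ X').card ≤ j := by
        rw [← hXc]; exact Finset.card_le_card Finset.inter_subset_left
      have hle := Finset.single_le_sum (s := P)
        (f := fun T => (if Y ∪ T ⊆ X' then (1 / (Q : ℝ)) ^ (ex T.card) else 0))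
        (fun T _ => by
          show (0 : ℝ) ≤ (if Y ∪ T ⊆ X' then (1 / (Q : ℝ)) ^ (ex T.card) else 0)
          split_ifs
          · positivity
          · exact le_rfl) hT
      refine le_trans (le_of_eq ?_) hle
      show (1 / (Q : ℝ)) ^ ((EE X \ EE Y) ∪ (EE X' \ EE Y)).card
        = (if Y ∪ ((X ∩ X') \ Y) ⊆ X' then (1 / (Q : ℝ)) ^ (ex ((X ∩ X') \ Y).card) else 0)
      rw [if_pos (by rw [hU]; exact Finset.inter_subset_right)]
      congr 1
      have hc := card_union_sdiff_EE hYX hYX'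
      rw [hXc, hX'c] at hc
      have hz2 : (X ∩ X').card.choose 2 ≤ j.choose 2 := Nat.choose_le_choose 2 hzj
      simp only [hex, hcard]
      rw [← hy] at hc
      omega
    have step2 : ∑ X' ∈ S, (1 / (Q : ℝ)) ^ ((EE X \ EE Y) ∪ (EE X' \ EE Y)).card
        ≤ ∑ T ∈ P, ((S.filter fun X' => Y ∪ T ⊆ X').card : ℝ) * (1 / (Q : ℝ)) ^ (ex T.card) := by
      refine (Finset.sum_le_sum step1).trans (le_of_eq ?_)
      rw [Finset.sum_comm]
      refine Finset.sum_congr rfl fun T _ => ?_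
      rw [← Finset.sum_filter, Finset.sum_const, nsmul_eq_mul]
    have step3 : ∀ T ∈ P, ((S.filter fun X' => Y ∪ T ⊆ X').card : ℝ) * (1 / (Q : ℝ)) ^ (ex T.card)
        ≤ N * (1 / (Q : ℝ)) ^ (2 * m) * (1 / (2 * (q : ℝ))) ^ T.card := by
      intro T hT
      rw [hP, Finset.mem_powerset] at hT
      have hdisj : Disjoint Y T := by
        rw [Finset.disjoint_left]
        intro a ha hb
        exact (Finset.mem_sdiff.1 (hT hb)).2 ha
      have hZc : (Y ∪ T).card = y + T.card := Finset.card_union_of_disjoint hdisj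
      have hZX : Y ∪ T ⊆ X := Finset.union_subset hYX (hT.trans Finset.sdiff_subset)
      have hdj : y + T.card ≤ j := by
        rw [← hZc, ← hXc]; exact Finset.card_le_card hZX
      have hcount : (S.filter fun X' => Y ∪ T ⊆ X').card ≤ S.card :=
        Finset.card_le_card (Finset.filter_subset _ _)
      by_cases hT0 : T.card = 0
      · have hex0 : ex T.card = 2 * m := by
          simp only [hex, hT0, add_zero]
          omega
        rw [hex0, hT0, pow_zero, mul_one]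
        have : ((S.filter fun X' => Y ∪ T ⊆ X').card : ℝ) ≤ N := by rw [hNdef]; exact Nat.cast_le.2 hcount
        exact mul_le_mul_of_nonneg_right this (by positivity)
      · have hcb : (S.filter fun X' => Y ∪ T ⊆ X').card ≤ bb q Q j (y + T.card) := by
          rcases Nat.lt_or_ge (y + T.card) j with hlt | hge
          · have hss : Y ⊂ Y ∪ T := by
              refine Finset.ssubset_iff_subset_ne.2 ⟨Finset.subset_union_left, fun h => ?_⟩
              have := congrArg Finset.card h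
              rw [hZc] at this
              omega
            have := hspr (Y ∪ T) hss (by rw [hZc]; exact hlt)
            rwa [hZc] at this
          · have heq : y + T.card = j := le_antisymm hdj hge
            have hb1 : bb q Q j (y + T.card) = 1 := by
              rw [heq]; simp [bb]
            rw [hb1, Finset.card_le_one]
            intro A hA' B hB'
            rw [Finset.mem_filter] at hA' hB'
            have e1 : Y ∪ T = A := Finset.eq_of_subset_of_card_le hA'.2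
              (by rw [(hS A hA'.1).1, hZc, heq])
            have e2 : Y ∪ T = B := Finset.eq_of_subset_of_card_le hB'.2
              (by rw [(hS B hB'.1).1, hZc, heq])
            rw [← e1, ← e2]
        have hcbR : ((S.filter fun X' => Y ∪ T ⊆ X').card : ℝ)
            ≤ (2 * (q : ℝ)) ^ (j - y - T.card) * (Q : ℝ) ^ (j.choose 2 - (y + T.card).choose 2) := by
          have h1 : ((S.filter fun X' => Y ∪ T ⊆ X').card : ℝ) ≤ ((bb q Q j (y + T.card) : ℕ) : ℝ) := by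
            exact_mod_cast hcb
          refine h1.trans (le_of_eq ?_)
          simp only [bb]
          push_cast
          rw [Nat.sub_sub]
        exact SPR_ineq N _ (2 * (q : ℝ)) Q (by positivity) hQR T.card (j - y) m _ (by omega)
          hbigR hcbR
    calc ∑ X' ∈ S, (1 / (Q : ℝ)) ^ ((EE X \ EE Y) ∪ (EE X' \ EE Y)).card
        ≤ ∑ T ∈ P, ((S.filter fun X' => Y ∪ T ⊆ X').card : ℝ) * (1 / (Q : ℝ)) ^ (ex T.card) := step2
      _ ≤ ∑ T ∈ P, N * (1 / (Q : ℝ)) ^ (2 * m) * (1 / (2 * (q : ℝ))) ^ T.card :=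
          Finset.sum_le_sum step3
      _ = N * (1 / (Q : ℝ)) ^ (2 * m) * (1 + 1 / (2 * (q : ℝ))) ^ (X \ Y).card := by
          rw [← Finset.mul_sum, hP, SPR_sum]
      _ ≤ N * (1 / (Q : ℝ)) ^ (2 * m) * 2 := by
          apply mul_le_mul_of_nonneg_left _ (by positivity)
          apply SPR_two q _ hq
          exact (Finset.card_le_card Finset.sdiff_subset).trans (hXc.le.trans hj)
      _ = 2 * N * (1 / (Q : ℝ)) ^ (2 * m) := by ring
  have hdouble : ∑ X ∈ S, ∑ X' ∈ S, (1 / (Q : ℝ)) ^ ((EE X \ EE Y) ∪ (EE X' \ EE Y)).card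
      ≤ 2 * (N * (1 / (Q : ℝ)) ^ m) ^ 2 := by
    calc _ ≤ ∑ X ∈ S, 2 * N * (1 / (Q : ℝ)) ^ (2 * m) := Finset.sum_le_sum hin
      _ = 2 * (N * (1 / (Q : ℝ)) ^ m) ^ 2 := by
        rw [Finset.sum_const, nsmul_eq_mul, two_mul m, pow_add]
        ring
  have hprn : 0 ≤ pr (fun σ : Lab n Q => ∃ X ∈ S, ∀ e ∈ EE X \ EE Y, (σ e : ℕ) = 0) := by
    unfold pr
    positivity
  set p := pr (fun σ : Lab n Q => ∃ X ∈ S, ∀ e ∈ EE X \ EE Y, (σ e : ℕ) = 0) with hp
  have hfin : (N * (1 / (Q : ℝ)) ^ m) ^ 2 ≤ p * (2 * (N * (1 / (Q : ℝ)) ^ m) ^ 2) := by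
    have h1 : (N * (1 / (Q : ℝ)) ^ m) ^ 2 ≤ p *
        ∑ X ∈ S, ∑ X' ∈ S, (1 / (Q : ℝ)) ^ ((EE X \ EE Y) ∪ (EE X' \ EE Y)).card := by
      rw [← hl]
      exact hsm
    exact h1.trans (mul_le_mul_of_nonneg_left hdouble hprn)
  have hpos : 0 < (N * (1 / (Q : ℝ)) ^ m) ^ 2 := by positivity
  by_contra hlt
  push Not at hlt
  nlinarith [mul_pos hpos (sub_pos.2 hlt)]

end Pool.Agent.H29.NL
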